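import Pool.Agent.N631.SX.Main

/-!
# Tables of exclusive ors of answers: amplification of the advantage (helper631)
-/

set_option autoImplicit false

namespace Pool.Agent.N631.SX

open Pool.Agent.R563 Pool.Agent.W959 Pool.Agent.W959.Ent

/-! ### trees -/

/-- renumbering of the cells -/
def mapT {c c' : ℕ} (e : Fin c → Fin c') : XT.Tree c Bool → XT.Tree c' Bool
  | XT.Tree.answer o => XT.Tree.answer o
  | XT.Tree.probe σ nx => XT.Tree.probe (e σ) (fun b => mapT e (nx b))

theorem mapT_out {c c' : ℕ} (e : Fin c → Fin c') (b : Fin c' → Bool) (T : XT.Tree c Bool) :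
    (mapT e T).out b = T.out (fun σ => b (e σ)) := by
  induction T with
  | answer o => rfl
  | probe σ nx ih =>
    simp only [mapT, XT.Tree.out]
    exact ih _

theorem mapT_probes {c c' : ℕ} (e : Fin c → Fin c') (b : Fin c' → Bool) (T : XT.Tree c Bool) :
    (mapT e T).probes b = T.probes (fun σ => b (e σ)) := by
  induction T with
  | answer o => rfl
  | probe σ nx ih =>
    simp only [mapT, XT.Tree.probes]
    rw [ih]

/-- one tree after another -/
def bindT {c : ℕ} : XT.Tree c Bool → (Bool → XT.Tree c Bool) → XT.Tree c Bool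
  | XT.Tree.answer o, k => k o
  | XT.Tree.probe σ nx, k => XT.Tree.probe σ (fun b => bindT (nx b) k)

theorem bindT_out {c : ℕ} (b : Fin c → Bool) (T : XT.Tree c Bool) (k : Bool → XT.Tree c Bool) :
    (bindT T k).out b = (k (T.out b)).out b := by
  induction T with
  | answer o => rfl
  | probe σ nx ih =>
    simp only [bindT, XT.Tree.out]
    exact ih _

theorem bindT_probes {c : ℕ} (b : Fin c → Bool) (T : XT.Tree c Bool)
    (k : Bool → XT.Tree c Bool) :
    (bindT T k).probes b = T.probes b + (k (T.out b)).probes b := by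
  induction T with
  | answer o => simp [bindT, XT.Tree.probes, XT.Tree.out]
  | probe σ nx ih =>
    simp only [bindT, XT.Tree.probes, XT.Tree.out]
    rw [ih]
    omega

/-- majority of the answers of trees -/
def majT {c : ℕ} (r : ℕ) : List (XT.Tree c Bool) → ℕ → XT.Tree c Bool
  | [], m => XT.Tree.answer (decide (r < 2 * m))
  | T :: l, m => bindT T (fun o => majT r l (m + if o = true then 1 else 0))

theorem majT_out {c : ℕ} (r : ℕ) (b : Fin c → Bool) (l : List (XT.Tree c Bool)) (m : ℕ) :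
    (majT r l m).out b =
      decide (r < 2 * (m + (l.map fun T => if T.out b = true then 1 else 0).sum)) := by
  induction l generalizing m with
  | nil => simp [majT, XT.Tree.out]
  | cons T l ih =>
    simp only [majT]
    rw [bindT_out, ih]
    simp only [List.map_cons, List.sum_cons]
    congr 2
    ring

theorem majT_probes {c : ℕ} (r : ℕ) (b : Fin c → Bool) (l : List (XT.Tree c Bool)) (m : ℕ) :
    (majT r l m).probes b = (l.map fun T => T.probes b).sum := by
  induction l generalizing m with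
  | nil => simp [majT, XT.Tree.probes]
  | cons T l ih =>
    simp only [majT]
    rw [bindT_probes, ih]
    simp

theorem dep_probes {c : ℕ} (b : Fin c → Bool) (T : XT.Tree c Bool) : T.probes b ≤ dep T := by
  induction T with
  | answer o => simp [XT.Tree.probes]
  | probe σ nx ih =>
    simp only [XT.Tree.probes, dep]
    have h1 := ih (b σ)
    cases hb : b σ
    · rw [hb] at h1
      omega
    · rw [hb] at h1
      omega

/-! ### independent copies -/

section prob

variable {Ω : Type} [Fintype Ω] (p a : Ω → ℝ)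

theorem pair_E (hp1 : ∑ ω, p ω = 1) (ha : ∑ ω, p ω * a ω = 0) {r : ℕ} (i j : Fin r) :
    ∑ ω : Fin r → Ω, (∏ l, p (ω l)) * (a (ω i) * a (ω j)) =
      if i = j then ∑ ω, p ω * a ω ^ 2 else 0 := by
  classical
  have h1 : ∀ ω : Fin r → Ω, (∏ l, p (ω l)) * (a (ω i) * a (ω j)) =
      ∏ l, (p (ω l) * ((if l = i then a (ω l) else 1) * (if l = j then a (ω l) else 1))) := by
    intro ω
    rw [Finset.prod_mul_distrib, Finset.prod_mul_distrib, Finset.prod_ite_eq', Finset.prod_ite_eq']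
    simp
  have h5 := Finset.prod_univ_sum (fun _ : Fin r => (Finset.univ : Finset Ω))
    (fun l ω => p ω * ((if l = i then a ω else 1) * (if l = j then a ω else 1)))
  rw [Fintype.piFinset_univ] at h5
  rw [Finset.sum_congr rfl fun ω _ => h1 ω, ← h5]
  by_cases hij : i = j
  · rw [if_pos hij]
    subst hij
    rw [Finset.prod_eq_single i]
    · simp only [if_true]
      refine Finset.sum_congr rfl fun ω _ => ?_
      ring
    · intro l _ hl
      simp [hl, hp1]
    · intro h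
      exact absurd (Finset.mem_univ _) h
  · rw [if_neg hij]
    refine Finset.prod_eq_zero (Finset.mem_univ i) ?_
    simp [hij, ha]

theorem second (hp1 : ∑ ω, p ω = 1) (ha : ∑ ω, p ω * a ω = 0) (r : ℕ) :
    ∑ ω : Fin r → Ω, (∏ l, p (ω l)) * (∑ i, a (ω i)) ^ 2 = r * ∑ ω, p ω * a ω ^ 2 := by
  have h1 : ∀ ω : Fin r → Ω, (∏ l, p (ω l)) * (∑ i, a (ω i)) ^ 2 =
      ∑ i, ∑ j, (∏ l, p (ω l)) * (a (ω i) * a (ω j)) := by
    intro ω
    rw [sq, Finset.sum_mul_sum, Finset.mul_sum]
    refine Finset.sum_congr rfl fun i _ => ?_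
    rw [Finset.mul_sum]
  rw [Finset.sum_congr rfl fun ω _ => h1 ω, Finset.sum_comm]
  have h2 : ∀ i : Fin r, ∑ ω : Fin r → Ω, ∑ j, (∏ l, p (ω l)) * (a (ω i) * a (ω j)) =
      ∑ ω, p ω * a ω ^ 2 := by
    intro i
    rw [Finset.sum_comm, Finset.sum_congr rfl fun j _ => pair_E p a hp1 ha i j]
    simp
  rw [Finset.sum_congr rfl fun i _ => h2 i]
  simp

theorem total (hp1 : ∑ ω, p ω = 1) (r : ℕ) : ∑ ω : Fin r → Ω, ∏ l, p (ω l) = 1 := by
  classical
  have h5 := Finset.prod_univ_sum (fun _ : Fin r => (Finset.univ : Finset Ω))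
    (fun _ ω => p ω)
  rw [Fintype.piFinset_univ] at h5
  rw [← h5]
  simp [hp1]

/-- Chebyshev: the probability that at least half of the copies are bad -/
theorem cheb (hp : ∀ ω, 0 ≤ p ω) (hp1 : ∑ ω, p ω = 1) (bad : Ω → Prop) {δ : ℝ} (hδ : 0 < δ)
    (hbad : ∑ ω, p ω * ind (bad ω) ≤ 1 / 2 - δ) {r : ℕ} (hr : 25 / δ ^ 2 ≤ (r : ℝ)) :
    ∑ ω : Fin r → Ω, (∏ l, p (ω l)) * ind ((r : ℝ) ≤ 2 * ∑ i, ind (bad (ω i))) ≤ 1 / 100 := by
  obtain ⟨μ, hμ⟩ : ∃ μ, μ = ∑ ω, p ω * ind (bad ω) := ⟨_, rfl⟩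
  rw [← hμ] at hbad
  let a : Ω → ℝ := fun ω => ind (bad ω) - μ
  have ha : ∑ ω, p ω * a ω = 0 := by
    simp only [a, mul_sub, Finset.sum_sub_distrib]
    rw [← hμ, ← Finset.sum_mul, hp1]
    ring
  have hδ2 : 0 < δ ^ 2 := by positivity
  have hr0 : (0 : ℝ) < r := lt_of_lt_of_le (by positivity) hr
  have hμ0 : 0 ≤ μ := by
    rw [hμ]
    exact Finset.sum_nonneg fun ω _ => mul_nonneg (hp ω) (ind_nonneg _)
  have hvar : ∑ ω, p ω * a ω ^ 2 ≤ 1 / 4 := by
    have h1 : ∑ ω, p ω * a ω ^ 2 = μ - μ ^ 2 := by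
      have h2 : ∀ ω, p ω * a ω ^ 2 = p ω * ind (bad ω) * (1 - 2 * μ) + p ω * μ ^ 2 := by
        intro ω
        simp only [a]
        by_cases h : bad ω
        · rw [ind_true h]; ring
        · rw [ind_false h]; ring
      rw [Finset.sum_congr rfl fun ω _ => h2 ω, Finset.sum_add_distrib, ← Finset.sum_mul,
        ← Finset.sum_mul, ← hμ, hp1]
      ring
    rw [h1]
    nlinarith [sq_nonneg (μ - 1 / 2)]
  have h2 := second p a hp1 ha r
  have h3 : ∀ ω : Fin r → Ω, (∏ l, p (ω l)) * ind ((r : ℝ) ≤ 2 * ∑ i, ind (bad (ω i))) *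
      ((r : ℝ) ^ 2 * δ ^ 2) ≤ (∏ l, p (ω l)) * (∑ i, a (ω i)) ^ 2 := by
    intro ω
    have hP : 0 ≤ ∏ l, p (ω l) := Finset.prod_nonneg fun l _ => hp _
    rw [mul_assoc]
    apply mul_le_mul_of_nonneg_left _ hP
    by_cases h : (r : ℝ) ≤ 2 * ∑ i, ind (bad (ω i))
    · rw [ind_true h, one_mul]
      have h4 : (r : ℝ) * δ ≤ ∑ i, a (ω i) := by
        simp only [a, Finset.sum_sub_distrib, Finset.sum_const, Finset.card_univ,
          Fintype.card_fin, nsmul_eq_mul]
        nlinarith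
      calc (r : ℝ) ^ 2 * δ ^ 2 = ((r : ℝ) * δ) ^ 2 := by ring
        _ ≤ _ := pow_le_pow_left₀ (by positivity) h4 2
    · rw [ind_false h, zero_mul]
      positivity
  have h4 := Finset.sum_le_sum fun ω (_ : ω ∈ (Finset.univ : Finset (Fin r → Ω))) => h3 ω
  rw [h2, ← Finset.sum_mul] at h4
  have h5 : (r : ℝ) * ∑ ω, p ω * a ω ^ 2 ≤ r * (1 / 4) :=
    mul_le_mul_of_nonneg_left hvar hr0.le
  have h6 : (25 : ℝ) ≤ r * δ ^ 2 := by
    rwa [div_le_iff₀ hδ2] at hr
  obtain ⟨S, hS⟩ : ∃ S, S = ∑ ω : Fin r → Ω, (∏ l, p (ω l)) *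
    ind ((r : ℝ) ≤ 2 * ∑ i, ind (bad (ω i))) := ⟨_, rfl⟩
  rw [← hS] at h4 ⊢
  have hS0 : 0 ≤ S := by
    rw [hS]
    exact Finset.sum_nonneg fun ω _ => mul_nonneg (Finset.prod_nonneg fun l _ => hp _)
      (ind_nonneg _)
  have h7 : S * ((r : ℝ) * (r * δ ^ 2)) ≤ r * (1 / 4) := by
    calc S * ((r : ℝ) * (r * δ ^ 2)) = S * ((r : ℝ) ^ 2 * δ ^ 2) := by ring
      _ ≤ _ := h4
      _ ≤ _ := h5
  have h8 : S * (r * δ ^ 2) ≤ 1 / 4 := by
    have : (r : ℝ) * (S * (r * δ ^ 2)) ≤ r * (1 / 4) := by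
      calc (r : ℝ) * (S * (r * δ ^ 2)) = S * ((r : ℝ) * (r * δ ^ 2)) := by ring
        _ ≤ _ := h7
    exact le_of_mul_le_mul_left this hr0
  nlinarith

end prob

/-! ### the amplified structure -/

/-- independent copies with a majority vote -/
noncomputable def ampDS {n c : ℕ} (t r : ℕ) (D : Fin r → XT.XorSumDS n c) :
    XT.XorSumDS n (r * c) where
  Q σ := (D (finProdFinEquiv.symm σ).1).Q (finProdFinEquiv.symm σ).2
  f σ := (D (finProdFinEquiv.symm σ).1).f (finProdFinEquiv.symm σ).2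
  g σ := (D (finProdFinEquiv.symm σ).1).g (finProdFinEquiv.symm σ).2
  query z := majT r (List.ofFn fun i => mapT (fun σ => finProdFinEquiv (i, σ))
    (ct t ((D i).query z))) 0

theorem ampDS_bit {n c : ℕ} (t r : ℕ) (D : Fin r → XT.XorSumDS n c) (A B : Fin n → ℕ) (i : Fin r)
    (σ : Fin c) : (ampDS t r D).bit A B (finProdFinEquiv (i, σ)) = (D i).bit A B σ := by
  unfold XT.XorSumDS.bit ampDS
  simp

theorem ampDS_out {n c : ℕ} (t r : ℕ) (D : Fin r → XT.XorSumDS n c) (A B : Fin n → ℕ) (z : ℕ) :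
    ((ampDS t r D).query z).out ((ampDS t r D).bit A B) =
      decide (r < 2 * ∑ i, if (ct t ((D i).query z)).out ((D i).bit A B) = true then 1 else 0) := by
  have h1 : (ampDS t r D).query z = majT r (List.ofFn fun i => mapT
    (fun σ => finProdFinEquiv (i, σ)) (ct t ((D i).query z))) 0 := rfl
  rw [h1, majT_out, List.map_ofFn, List.sum_ofFn, zero_add]
  congr 3
  refine Finset.sum_congr rfl fun i _ => ?_
  simp only [Function.comp_apply, mapT_out, ampDS_bit]

theorem ampDS_probes {n c : ℕ} (t r : ℕ) (D : Fin r → XT.XorSumDS n c) (A B : Fin n → ℕ) (z : ℕ) :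
    ((ampDS t r D).query z).probes ((ampDS t r D).bit A B) ≤ r * t := by
  have h1 : (ampDS t r D).query z = majT r (List.ofFn fun i => mapT
    (fun σ => finProdFinEquiv (i, σ)) (ct t ((D i).query z))) 0 := rfl
  rw [h1, majT_probes, List.map_ofFn, List.sum_ofFn]
  calc _ ≤ ∑ _i : Fin r, t := by
        refine Finset.sum_le_sum fun i _ => ?_
        simp only [Function.comp_apply, mapT_probes]
        exact (dep_probes _ _).trans (ct_dep _ _)
    _ = r * t := by simp

theorem ampDS_space {n c s : ℕ} (t r : ℕ) (D : Fin r → XT.XorSumDS n c)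
    (hs : ∀ i, (D i).space ≤ s) : (ampDS t r D).space ≤ r * s := by
  classical
  have h1 : (ampDS t r D).space =
      (Finset.univ.filter fun q : Fin r × Fin c => ((D q.1).Q q.2).Nonempty).card := by
    unfold XT.XorSumDS.space ampDS
    refine Finset.card_bij (fun σ _ => finProdFinEquiv.symm σ) ?_ ?_ ?_
    · intro σ hσ
      simpa using hσ
    · intro σ _ σ' _ h
      exact finProdFinEquiv.symm.injective h
    · intro q hq
      refine ⟨finProdFinEquiv q, Finset.mem_filter.2 ⟨Finset.mem_univ _, ?_⟩, by simp⟩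
      show ((D (finProdFinEquiv.symm (finProdFinEquiv q)).1).Q
        (finProdFinEquiv.symm (finProdFinEquiv q)).2).Nonempty
      rw [Equiv.symm_apply_apply]
      exact (Finset.mem_filter.1 hq).2
  rw [h1, Finset.card_filter, Fintype.sum_prod_type]
  calc _ ≤ ∑ _i : Fin r, s := by
        refine Finset.sum_le_sum fun i _ => ?_
        rw [← Finset.card_filter]
        refine le_trans (le_of_eq ?_) (hs i)
        unfold XT.XorSumDS.space
        congr
    _ = r * s := by simp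

theorem ind_eq_ite (P : Prop) [Decidable P] : ind P = if P then (1 : ℝ) else 0 := by
  by_cases h : P
  · rw [ind_true h, if_pos h]
  · rw [ind_false h, if_neg h]

theorem amp_solves {n c : ℕ} {Ω : Type} [Fintype Ω] (p : Ω → ℝ) (D : Ω → XT.XorSumDS n c)
    {t r : ℕ} {δ : ℝ} (hδ : 0 < δ) (hr : 25 / δ ^ 2 ≤ (r : ℝ)) (hD : XT.SumSolves p D t δ) :
    XT.SumSolves (fun ω : Fin r → Ω => ∏ l, p (ω l)) (fun ω => ampDS t r fun i => D (ω i))
      (r * t) (49 / 100) := by
  classical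
  obtain ⟨hp, hp1, hcor⟩ := hD
  refine ⟨fun ω => Finset.prod_nonneg fun l _ => hp _, total p hp1 r, ?_⟩
  intro A B hA hB z
  have h1 := hcor A B hA hB z
  let bad : Ω → Prop := fun ω => ¬ ((((D ω).query z).out ((D ω).bit A B) = true ↔
      ∃ i j, A i + B j = z) ∧ ((D ω).query z).probes ((D ω).bit A B) ≤ t)
  have hbad : ∑ ω, p ω * ind (bad ω) ≤ 1 / 2 - δ := by
    rw [Finset.sum_filter] at h1
    have h2 : ∑ ω, p ω * ind (bad ω) + (1 / 2 + δ) ≤ 1 := by
      refine (add_le_add_right h1 _).trans ?_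
      rw [← Finset.sum_add_distrib, ← hp1]
      refine Finset.sum_le_sum fun ω _ => ?_
      by_cases h : bad ω
      · rw [ind_true h, if_neg h]
        simp
      · rw [ind_false h, if_pos (not_not.1 h)]
        simp
    linarith
  have h2 := cheb p hp hp1 bad hδ hbad hr
  have h3 := total p hp1 r
  rw [Finset.sum_filter]
  have h4 : ∀ ω : Fin r → Ω, (∏ l, p (ω l)) - (∏ l, p (ω l)) *
      ind ((r : ℝ) ≤ 2 * ∑ i, ind (bad (ω i))) ≤
      if (((ampDS t r fun i => D (ω i)).query z).out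
        ((ampDS t r fun i => D (ω i)).bit A B) = true ↔ ∃ i j, A i + B j = z) ∧
        ((ampDS t r fun i => D (ω i)).query z).probes ((ampDS t r fun i => D (ω i)).bit A B) ≤
          r * t then (∏ l, p (ω l)) else 0 := by
    intro ω
    have hP : 0 ≤ ∏ l, p (ω l) := Finset.prod_nonneg fun l _ => hp _
    by_cases h : (r : ℝ) ≤ 2 * ∑ i, ind (bad (ω i))
    · rw [ind_true h, mul_one, sub_self]
      split_ifs
      · exact hP
      · exact le_rfl
    · rw [ind_false h, mul_zero, sub_zero]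
      rw [if_pos]
      refine ⟨?_, ampDS_probes _ _ _ _ _ _⟩
      rw [ampDS_out, decide_eq_true_iff]
      have h := not_le.1 h
      let o : Fin r → Prop := fun i => (ct t ((D (ω i)).query z)).out ((D (ω i)).bit A B) = true
      have hcast : ((∑ i, if (ct t ((D (ω i)).query z)).out ((D (ω i)).bit A B) = true then 1
          else 0 : ℕ) : ℝ) = ∑ i, ind (o i) := by
        push_cast
        refine Finset.sum_congr rfl fun i _ => ?_
        rw [ind_eq_ite]
      have hgood : ∀ i, ¬ bad (ω i) → (o i ↔ ∃ i j, A i + B j = z) := by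
        intro i hi
        have := not_not.1 hi
        simp only [o]
        rw [ct_out _ _ _ this.2]
        exact this.1
      constructor
      · intro hlt
        by_contra hno
        have h5 : ∑ i, ind (o i) ≤ ∑ i, ind (bad (ω i)) := by
          refine Finset.sum_le_sum fun i _ => ?_
          apply ind_mono
          intro hi
          exact Classical.byContradiction fun hb => hno ((hgood i hb).1 hi)
        have h6 : (r : ℝ) < 2 * ∑ i, ind (o i) := by
          rw [← hcast]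
          exact_mod_cast hlt
        linarith
      · intro hyes
        have h5 : (r : ℝ) ≤ ∑ i, ind (bad (ω i)) + ∑ i, ind (o i) := by
          rw [← Finset.sum_add_distrib]
          calc (r : ℝ) = ∑ _i : Fin r, (1 : ℝ) := by simp
            _ ≤ _ := by
              refine Finset.sum_le_sum fun i _ => ?_
              by_cases hb : bad (ω i)
              · rw [ind_true hb]
                have := ind_nonneg (o i)
                linarith
              · rw [ind_false hb, ind_true ((hgood i hb).2 hyes)]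
                norm_num
        have h6 : (r : ℝ) < 2 * ∑ i, ind (o i) := by linarith
        rw [← hcast] at h6
        exact_mod_cast h6
  have h5 := Finset.sum_le_sum fun ω (_ : ω ∈ (Finset.univ : Finset (Fin r → Ω))) => h4 ω
  rw [Finset.sum_sub_distrib, h3] at h5
  linarith

/-- **Main theorem for any advantage.** -/
theorem main_delta (N t c s : ℕ) (ht : 1 ≤ t) (δ : ℝ) (hδ : 0 < δ) (hδ2 : δ ≤ 1 / 2)
    (Ω : Type) [Fintype Ω] (p : Ω → ℝ) (D : Ω → XT.XorSumDS N c) (hs : ∀ ω, (D ω).space ≤ s)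
    (hD : XT.SumSolves p D t δ) :
    δ ^ 14 * (N : ℝ) ^ 2 ≤ 10 ^ 29 * (t : ℝ) ^ 6 * ((s : ℝ) + 1) := by
  obtain ⟨r, hr⟩ : ∃ r : ℕ, r = ⌈25 / δ ^ 2⌉₊ := ⟨_, rfl⟩
  have hr1 : 25 / δ ^ 2 ≤ (r : ℝ) := by rw [hr]; exact Nat.le_ceil _
  have hδ3 : 0 < δ ^ 2 := by positivity
  have hr2 : (r : ℝ) ≤ 26 / δ ^ 2 := by
    have h1 := Nat.ceil_lt_add_one (show (0 : ℝ) ≤ 25 / δ ^ 2 by positivity)
    rw [← hr] at h1
    have h2 : (1 : ℝ) ≤ 1 / δ ^ 2 := by
      rw [le_div_iff₀ hδ3]
      nlinarith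
    have h3 : 26 / δ ^ 2 = 25 / δ ^ 2 + 1 / δ ^ 2 := by ring
    linarith
  have hrpos : 1 ≤ r := by
    have : (0 : ℝ) < r := lt_of_lt_of_le (by positivity) hr1
    have : 0 < r := by exact_mod_cast this
    omega
  have h := main N (r * t) (r * c) (r * s) (Nat.one_le_iff_ne_zero.2 (by positivity))
    (Fin r → Ω) (fun ω => ∏ l, p (ω l)) (fun ω => ampDS t r fun i => D (ω i))
    (fun ω => ampDS_space t r _ fun i => hs _) (amp_solves p D hδ hr1 hD)
  push_cast at h
  have hr3 : (1 : ℝ) ≤ r := by exact_mod_cast hrpos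
  have hs0 : (0 : ℝ) ≤ s := by positivity
  have h1 : (r : ℝ) * s + 1 ≤ r * (s + 1) := by nlinarith
  have h2 : (N : ℝ) ^ 2 ≤ 10 ^ 19 * (r : ℝ) ^ 7 * ((t : ℝ) ^ 6 * (s + 1)) := by
    refine h.trans ?_
    calc 10 ^ 19 * ((r : ℝ) * t) ^ 6 * (r * s + 1) ≤ 10 ^ 19 * ((r : ℝ) * t) ^ 6 * (r * (s + 1)) :=
          mul_le_mul_of_nonneg_left h1 (by positivity)
      _ = _ := by ring
  have h3 : δ ^ 14 * (r : ℝ) ^ 7 ≤ 26 ^ 7 := by
    calc δ ^ 14 * (r : ℝ) ^ 7 = (δ ^ 2 * r) ^ 7 := by ring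
      _ ≤ 26 ^ 7 := by
          apply pow_le_pow_left₀ (by positivity)
          rw [le_div_iff₀ hδ3] at hr2
          linarith
  have h4 : (0 : ℝ) ≤ (t : ℝ) ^ 6 * (s + 1) := by positivity
  calc δ ^ 14 * (N : ℝ) ^ 2 ≤ δ ^ 14 * (10 ^ 19 * (r : ℝ) ^ 7 * ((t : ℝ) ^ 6 * (s + 1))) :=
        mul_le_mul_of_nonneg_left h2 (by positivity)
    _ = 10 ^ 19 * (δ ^ 14 * (r : ℝ) ^ 7) * ((t : ℝ) ^ 6 * (s + 1)) := by ring
    _ ≤ 10 ^ 19 * 26 ^ 7 * ((t : ℝ) ^ 6 * (s + 1)) := by
        apply mul_le_mul_of_nonneg_right _ h4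
        exact mul_le_mul_of_nonneg_left h3 (by positivity)
    _ ≤ 10 ^ 29 * ((t : ℝ) ^ 6 * (s + 1)) := mul_le_mul_of_nonneg_right (by norm_num) h4
    _ = _ := by ring

end Pool.Agent.N631.SX
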