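import Pool.Agent.N631.LX.Mask
import Pool.Agent.R563.XT.Stm

/-!
# The arrays (helper631)
-/

set_option autoImplicit false

namespace Pool.Agent.N631.SX

open Pool.Agent.N631.LX

/-- an array of length `n` with the given values -/
noncomputable def arr {ι : Type} [Fintype ι] (n : ℕ) (val : ι → ℕ) (p0 : ι) (l : Fin n) : ℕ :=
  if h : (l : ℕ) < Fintype.card ι then val ((Fintype.equivFin ι).symm ⟨l, h⟩) else val p0

theorem arr_ex {ι : Type} [Fintype ι] {n : ℕ} (hn : Fintype.card ι ≤ n) (val : ι → ℕ) (p0 : ι)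
    (P : ℕ → Prop) : (∃ l : Fin n, P (arr n val p0 l)) ↔ ∃ p, P (val p) := by
  constructor
  · rintro ⟨l, hl⟩
    unfold arr at hl
    split_ifs at hl with h
    · exact ⟨_, hl⟩
    · exact ⟨_, hl⟩
  · rintro ⟨p, hp⟩
    refine ⟨⟨Fintype.equivFin ι p, lt_of_lt_of_le (Fintype.equivFin ι p).2 hn⟩, ?_⟩
    unfold arr
    rw [dif_pos (Fintype.equivFin ι p).2]
    simpa using hp

variable {k v : ℕ}

/-- the offsets in a block of the first array -/
def OA (S : Fin k → Fin v → Bool) (i : Fin k) (a : ℕ) : Prop :=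
  a = 0 ∨ ∃ e : Fin v, S i e = true ∧ a = 2 * v + (e : ℕ)

/-- the offsets in a block of the second array -/
def OB (T : Fin k → Fin v → Bool) (j : Fin k) (b : ℕ) : Prop :=
  (∃ e : Fin v, T j e = true ∧ b = v - 1 - (e : ℕ)) ∨ ∃ y, y < 2 * v - 1 ∧ y ≠ v - 1 ∧ b = 2 * v + y

/-- the values of the first array -/
def valA (S : Fin k → Fin v → Bool) (p : Fin k × Option (Fin v)) : ℕ :=
  7 * v * (p.1 : ℕ) + match p.2 with
    | none => 0
    | some e => if S p.1 e = true then 2 * v + (e : ℕ) else 0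

/-- the values of the second array -/
def valB (T : Fin k → Fin v → Bool) (p : Fin k × (Fin v ⊕ Fin (2 * v))) : ℕ :=
  7 * v * (k * (p.1 : ℕ)) + match p.2 with
    | Sum.inl e => if T p.1 e = true then v - 1 - (e : ℕ) else 2 * v
    | Sum.inr y => if (y : ℕ) < 2 * v - 1 ∧ (y : ℕ) ≠ v - 1 then 2 * v + (y : ℕ) else 2 * v

theorem valA_ex (S : Fin k → Fin v → Bool) (P : ℕ → Prop) :
    (∃ p, P (valA S p)) ↔ ∃ i a, OA S i a ∧ P (7 * v * (i : ℕ) + a) := by
  constructor
  · rintro ⟨⟨i, o⟩, h⟩
    cases o with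
    | none => exact ⟨i, 0, Or.inl rfl, h⟩
    | some e =>
      simp only [valA] at h
      split_ifs at h with he
      · exact ⟨i, _, Or.inr ⟨e, he, rfl⟩, h⟩
      · exact ⟨i, 0, Or.inl rfl, h⟩
  · rintro ⟨i, a, ha | ⟨e, he, ha⟩, h⟩
    · subst ha
      exact ⟨(i, none), h⟩
    · refine ⟨(i, some e), ?_⟩
      simp only [valA, he, if_true]
      rw [← ha]
      exact h

theorem valB_ex (hv : 2 ≤ v) (T : Fin k → Fin v → Bool) (P : ℕ → Prop) :
    (∃ p, P (valB T p)) ↔ ∃ j b, OB T j b ∧ P (7 * v * (k * (j : ℕ)) + b) := by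
  have h0 : ∀ j, OB T j (2 * v) := fun j => Or.inr ⟨0, by omega, by omega, rfl⟩
  constructor
  · rintro ⟨⟨j, o⟩, h⟩
    cases o with
    | inl e =>
      simp only [valB] at h
      split_ifs at h with he
      · exact ⟨j, _, Or.inl ⟨e, he, rfl⟩, h⟩
      · exact ⟨j, _, h0 j, h⟩
    | inr y =>
      simp only [valB] at h
      split_ifs at h with he
      · exact ⟨j, _, Or.inr ⟨y, he.1, he.2, rfl⟩, h⟩
      · exact ⟨j, _, h0 j, h⟩
  · rintro ⟨j, b, ⟨e, he, hb⟩ | ⟨y, hy1, hy2, hb⟩, h⟩
    · refine ⟨(j, Sum.inl e), ?_⟩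
      simp only [valB, he, if_true]
      rw [← hb]
      exact h
    · refine ⟨(j, Sum.inr ⟨y, by omega⟩), ?_⟩
      simp only [valB, hy1, hy2, ne_eq, not_false_eq_true, and_self, if_true]
      rw [← hb]
      exact h

/-- `z` is a sum -/
def ans (S T : Fin k → Fin v → Bool) (z : ℕ) : Prop :=
  ∃ (i j : Fin k) (a b : ℕ), OA S i a ∧ OB T j b ∧ 7 * v * ((i : ℕ) + k * (j : ℕ)) + (a + b) = z

theorem arr_ans {n : ℕ} (hv : 2 ≤ v) (hn : k * (3 * v) ≤ n) (S T : Fin k → Fin v → Bool)
    (pA : Fin k × Option (Fin v)) (pB : Fin k × (Fin v ⊕ Fin (2 * v))) (z : ℕ) :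
    (∃ l l' : Fin n, arr n (valA S) pA l + arr n (valB T) pB l' = z) ↔ ans S T z := by
  have hcA : Fintype.card (Fin k × Option (Fin v)) ≤ n := by
    rw [Fintype.card_prod, Fintype.card_fin, Fintype.card_option, Fintype.card_fin]
    exact (Nat.mul_le_mul_left k (by omega)).trans hn
  have hcB : Fintype.card (Fin k × (Fin v ⊕ Fin (2 * v))) ≤ n := by
    rw [Fintype.card_prod, Fintype.card_fin, Fintype.card_sum, Fintype.card_fin, Fintype.card_fin]
    exact (Nat.mul_le_mul_left k (by omega)).trans hn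
  rw [arr_ex hcA (valA S) pA (fun x => ∃ l' : Fin n, x + arr n (valB T) pB l' = z),
    valA_ex S (fun x => ∃ l' : Fin n, x + arr n (valB T) pB l' = z)]
  unfold ans
  constructor
  · rintro ⟨i, a, ha, h⟩
    rw [arr_ex hcB (valB T) pB (fun y => 7 * v * (i : ℕ) + a + y = z),
      valB_ex hv T (fun y => 7 * v * (i : ℕ) + a + y = z)] at h
    obtain ⟨j, b, hb, h⟩ := h
    exact ⟨i, j, a, b, ha, hb, by rw [← h]; ring⟩
  · rintro ⟨i, j, a, b, ha, hb, h⟩
    refine ⟨i, a, ha, ?_⟩
    rw [arr_ex hcB (valB T) pB (fun y => 7 * v * (i : ℕ) + a + y = z),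
      valB_ex hv T (fun y => 7 * v * (i : ℕ) + a + y = z)]
    exact ⟨j, b, hb, by rw [← h]; ring⟩

theorem OA_lt {S : Fin k → Fin v → Bool} {i : Fin k} {a : ℕ} (h : OA S i a) (hv : 2 ≤ v) :
    a < 3 * v := by
  rcases h with h | ⟨e, -, h⟩
  · omega
  · have := e.2
    omega

theorem OB_lt {T : Fin k → Fin v → Bool} {j : Fin k} {b : ℕ} (h : OB T j b) (hv : 2 ≤ v) :
    b < 4 * v - 1 := by
  rcases h with ⟨e, -, h⟩ | ⟨y, hy, -, h⟩
  · omega
  · omega

theorem blk_inj {L k i j r i' j' r' : ℕ} (hi : i < k) (hr : r < L)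
    (hi' : i' < k) (hr' : r' < L) (h : L * (i + k * j) + r = L * (i' + k * j') + r') :
    i = i' ∧ j = j' ∧ r = r' := by
  have hL : 0 < L := by omega
  have h1 : r = r' := by
    have := congrArg (· % L) h
    simpa [Nat.mul_add_mod, Nat.mod_eq_of_lt hr, Nat.mod_eq_of_lt hr'] using this
  have h2 : i + k * j = i' + k * j' := by
    subst h1
    have h3 : L * (i + k * j) = L * (i' + k * j') := by omega
    exact Nat.eq_of_mul_eq_mul_left hL h3
  have hk : 0 < k := by omega
  have h4 : i = i' := by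
    have := congrArg (· % k) h2
    simpa [Nat.add_mul_mod_self_left, Nat.mod_eq_of_lt hi, Nat.mod_eq_of_lt hi'] using this
  have h5 : k * j = k * j' := by omega
  exact ⟨h4, Nat.eq_of_mul_eq_mul_left hk h5, h1⟩

theorem ans_loc (hv : 2 ≤ v) (S T : Fin k → Fin v → Bool) (i j : Fin k) {off : ℕ}
    (hoff : off < 7 * v) : ans S T (7 * v * ((i : ℕ) + k * (j : ℕ)) + off) ↔
      ∃ a b, OA S i a ∧ OB T j b ∧ a + b = off := by
  constructor
  · rintro ⟨i', j', a, b, ha, hb, h⟩
    have h1 := OA_lt ha hv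
    have h2 := OB_lt hb hv
    obtain ⟨q1, q2, q3⟩ := blk_inj i'.2 (by omega) i.2 hoff h
    have q1' : i' = i := Fin.ext q1
    have q2' : j' = j := Fin.ext q2
    subst q1' q2'
    exact ⟨a, b, ha, hb, q3⟩
  · rintro ⟨a, b, ha, hb, h⟩
    exact ⟨i, j, a, b, ha, hb, by rw [h]⟩

/-- the two sets meet -/
def meets (S T : Fin k → Fin v → Bool) (i j : Fin k) : Prop :=
  ∃ e, S i e = true ∧ T j e = true

theorem ans_mid (hv : 2 ≤ v) (S T : Fin k → Fin v → Bool) (i j : Fin k) :
    ans S T (7 * v * ((i : ℕ) + k * (j : ℕ)) + (3 * v - 1)) ↔ meets S T i j := by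
  rw [ans_loc hv S T i j (by omega)]
  constructor
  · rintro ⟨a, b, ha | ⟨e, he, ha⟩, ⟨e', he', hb⟩ | ⟨y, hy, hy', hb⟩, h⟩
    · have := e'.2
      omega
    · omega
    · have h1 := e.2
      have h2 := e'.2
      have : e = e' := Fin.ext (by omega)
      subst this
      exact ⟨e, he, he'⟩
    · omega
  · rintro ⟨e, he, he'⟩
    have := e.2
    exact ⟨2 * v + e, v - 1 - e, Or.inr ⟨e, he, rfl⟩, Or.inl ⟨e, he', rfl⟩, by omega⟩

open Classical in
/-- every answer is the exclusive or of answers for pairs and of functions of one side -/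
theorem decomp (hv : 2 ≤ v) (z : ℕ) : ∃ (cz : Fin k → Fin k → ZMod 2)
    (fz gz : (Fin k → Fin v → Bool) → ZMod 2), ∀ S T : Fin k → Fin v → Bool,
      b2 (decide (ans S T z)) = (∑ i, ∑ j, cz i j * b2 (decide (meets S T i j))) + fz S + gz T := by
  by_cases h : ∃ (i j : Fin k) (off : ℕ), off < 7 * v ∧ z = 7 * v * ((i : ℕ) + k * (j : ℕ)) + off
  · obtain ⟨i, j, off, hoff, rfl⟩ := h
    by_cases h1 : off < 2 * v
    · refine ⟨fun _ _ => 0, fun _ => 0, fun T => b2 (decide (OB T j off)), fun S T => ?_⟩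
      simp only [zero_mul, Finset.sum_const_zero, zero_add]
      congr 1
      rw [decide_eq_decide, ans_loc hv S T i j hoff]
      constructor
      · rintro ⟨a, b, ha | ⟨e, he, ha⟩, hb, h2⟩
        · have : b = off := by omega
          rwa [← this]
        · omega
      · intro h2
        exact ⟨0, off, Or.inl rfl, h2, by omega⟩
    · by_cases h2 : off = 3 * v - 1
      · refine ⟨fun i' j' => if i' = i ∧ j' = j then 1 else 0, fun _ => 0, fun _ => 0,
          fun S T => ?_⟩
        rw [add_zero, add_zero, Finset.sum_eq_single i, Finset.sum_eq_single j]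
        · simp only [and_self, if_true, one_mul]
          congr 1
          rw [decide_eq_decide, h2]
          exact ans_mid hv S T i j
        · intro j' _ hj'
          simp [hj']
        · intro h
          exact absurd (Finset.mem_univ _) h
        · intro i' _ hi'
          simp [hi']
        · intro h
          exact absurd (Finset.mem_univ _) h
      · by_cases h3 : off < 4 * v - 1
        · refine ⟨fun _ _ => 0, fun _ => 1, fun _ => 0, fun S T => ?_⟩
          simp only [zero_mul, Finset.sum_const_zero, zero_add, add_zero]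
          have : ans S T (7 * v * ((i : ℕ) + k * (j : ℕ)) + off) := by
            rw [ans_loc hv S T i j hoff]
            exact ⟨0, off, Or.inl rfl, Or.inr ⟨off - 2 * v, by omega, by omega, by omega⟩,
              by omega⟩
          simp [this, b2]
        · by_cases h4 : off = 4 * v - 1
          · refine ⟨fun _ _ => 0, fun _ => 0, fun _ => 0, fun S T => ?_⟩
            simp only [zero_mul, Finset.sum_const_zero, add_zero]
            have : ¬ ans S T (7 * v * ((i : ℕ) + k * (j : ℕ)) + off) := by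
              rw [ans_loc hv S T i j hoff]
              rintro ⟨a, b, ha | ⟨e, he, ha⟩, ⟨e', he', hb⟩ | ⟨y, hy, hy', hb⟩, h5⟩
              · omega
              · omega
              · have := e.2
                omega
              · have := e.2
                omega
            simp [this, b2]
          · refine ⟨fun _ _ => 0, fun S => b2 (decide (∃ a, OA S i a ∧
              ∃ y, y < 2 * v - 1 ∧ y ≠ v - 1 ∧ a + (2 * v + y) = off)), fun _ => 0,
              fun S T => ?_⟩
            simp only [zero_mul, Finset.sum_const_zero, zero_add, add_zero]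
            congr 1
            rw [decide_eq_decide, ans_loc hv S T i j hoff]
            constructor
            · rintro ⟨a, b, ha, ⟨e', he', hb⟩ | ⟨y, hy, hy', hb⟩, h5⟩
              · have := OA_lt ha hv
                omega
              · exact ⟨a, ha, y, hy, hy', by omega⟩
            · rintro ⟨a, ha, y, hy, hy', h5⟩
              exact ⟨a, 2 * v + y, ha, Or.inr ⟨y, hy, hy', rfl⟩, h5⟩
  · refine ⟨fun _ _ => 0, fun _ => 0, fun _ => 0, fun S T => ?_⟩
    simp only [zero_mul, Finset.sum_const_zero, add_zero]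
    have : ¬ ans S T z := by
      rintro ⟨i, j, a, b, ha, hb, h5⟩
      have h1 := OA_lt ha hv
      have h2 := OB_lt hb hv
      exact h ⟨i, j, a + b, by omega, h5.symm⟩
    simp [this, b2]

end Pool.Agent.N631.SX
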