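import Pool.Agent.N631.SX.Arr

/-!
# The arrays, with few elements (helper631)
-/

set_option autoImplicit false

namespace Pool.Agent.N631.SX

open Pool.Agent.N631.LX

/-- an array of length `N` with the elements of `V` -/
noncomputable def arrF (N : ℕ) (V : Finset ℕ) (x0 : ℕ) (l : Fin N) : ℕ :=
  if h : (l : ℕ) < V.card then (V.equivFin.symm ⟨l, h⟩ : ℕ) else x0

theorem arrF_mem {N : ℕ} {V : Finset ℕ} {x0 : ℕ} (hx0 : x0 ∈ V) (l : Fin N) :
    arrF N V x0 l ∈ V := by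
  unfold arrF
  split_ifs with h
  · exact (V.equivFin.symm ⟨l, h⟩).2
  · exact hx0

theorem arrF_ex {N : ℕ} {V : Finset ℕ} {x0 : ℕ} (hx0 : x0 ∈ V) (hN : V.card ≤ N)
    (P : ℕ → Prop) : (∃ l : Fin N, P (arrF N V x0 l)) ↔ ∃ x ∈ V, P x := by
  constructor
  · rintro ⟨l, hl⟩
    exact ⟨_, arrF_mem hx0 l, hl⟩
  · rintro ⟨x, hx, hP⟩
    refine ⟨⟨V.equivFin ⟨x, hx⟩, lt_of_lt_of_le (V.equivFin ⟨x, hx⟩).2 hN⟩, ?_⟩
    unfold arrF
    rw [dif_pos (V.equivFin ⟨x, hx⟩).2]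
    simpa using hP

variable {k v : ℕ}

/-- the offsets in a block of the first array -/
def OA2 (ρ : ℕ) (S : Fin k → Fin v → Bool) (i : Fin k) (a : ℕ) : Prop :=
  (∃ x, x < ρ ∧ a = x * ρ) ∨ ∃ e : Fin v, S i e = true ∧ a = ρ * ρ + v + (e : ℕ)

/-- the offsets of the padding in a block of the second array -/
def PB (ρ v b : ℕ) : Prop := ∃ x, x < ρ ∧ (b = 2 * v - 1 + x ∨ b = ρ * ρ + 2 * v + x)

/-- the offsets in a block of the second array -/
def OB2 (ρ : ℕ) (T : Fin k → Fin v → Bool) (j : Fin k) (b : ℕ) : Prop :=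
  (∃ e : Fin v, T j e = true ∧ b = v - 1 - (e : ℕ)) ∨ PB ρ v b

/-- the length of a block -/
def WW (ρ v : ℕ) : ℕ := 4 * (ρ * ρ + v)

theorem sq_lt {ρ x : ℕ} (hx : x < ρ) : x * ρ + ρ ≤ ρ * ρ := by
  have := Nat.mul_le_mul_right ρ (show x + 1 ≤ ρ from hx)
  rw [Nat.add_mul, one_mul] at this
  exact this

theorem OA2_lt {ρ : ℕ} {S : Fin k → Fin v → Bool} {i : Fin k} {a : ℕ} (h : OA2 ρ S i a) :
    a < ρ * ρ + 2 * v ∨ a < ρ * ρ := by
  rcases h with ⟨x, hx, h⟩ | ⟨e, -, h⟩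
  · have := sq_lt hx
    right
    omega
  · have := e.2
    left
    omega

theorem OB2_lt {ρ : ℕ} (hv : 1 ≤ v) {T : Fin k → Fin v → Bool} {j : Fin k} {b : ℕ}
    (h : OB2 ρ T j b) : b < ρ * ρ + 2 * v + ρ ∨ b < v := by
  rcases h with ⟨e, -, h⟩ | ⟨x, hx, h | h⟩
  · right
    have := e.2
    omega
  · have := Nat.le_mul_self ρ
    left
    omega
  · left
    omega

theorem sum_lt {ρ : ℕ} (hρ : 1 ≤ ρ) (hv : 2 ≤ v) {S T : Fin k → Fin v → Bool} {i j : Fin k}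
    {a b : ℕ} (ha : OA2 ρ S i a) (hb : OB2 ρ T j b) : a + b < WW ρ v := by
  have h1 := OA2_lt ha
  have h2 := OB2_lt (by omega) hb
  have h3 := Nat.le_mul_self ρ
  unfold WW
  omega

/-- `z` is a sum -/
def ans2 (ρ : ℕ) (S T : Fin k → Fin v → Bool) (z : ℕ) : Prop :=
  ∃ (i j : Fin k) (a b : ℕ), OA2 ρ S i a ∧ OB2 ρ T j b ∧
    WW ρ v * ((i : ℕ) + k * (j : ℕ)) + (a + b) = z

theorem ans2_loc {ρ : ℕ} (hρ : 1 ≤ ρ) (hv : 2 ≤ v) (S T : Fin k → Fin v → Bool) (i j : Fin k)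
    {off : ℕ} (hoff : off < WW ρ v) : ans2 ρ S T (WW ρ v * ((i : ℕ) + k * (j : ℕ)) + off) ↔
      ∃ a b, OA2 ρ S i a ∧ OB2 ρ T j b ∧ a + b = off := by
  constructor
  · rintro ⟨i', j', a, b, ha, hb, h⟩
    have h1 := sum_lt hρ hv ha hb
    obtain ⟨q1, q2, q3⟩ := blk_inj i'.2 h1 i.2 hoff h
    have q1' : i' = i := Fin.ext q1
    have q2' : j' = j := Fin.ext q2
    subst q1' q2'
    exact ⟨a, b, ha, hb, q3⟩
  · rintro ⟨a, b, ha, hb, h⟩
    exact ⟨i, j, a, b, ha, hb, by rw [h]⟩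

theorem tgt_lt {ρ : ℕ} (hv : 2 ≤ v) : ρ * ρ + 2 * v - 1 < WW ρ v := by
  unfold WW
  omega

theorem ans2_mid {ρ : ℕ} (hρ : 1 ≤ ρ) (hv : 2 ≤ v) (S T : Fin k → Fin v → Bool) (i j : Fin k) :
    ans2 ρ S T (WW ρ v * ((i : ℕ) + k * (j : ℕ)) + (ρ * ρ + 2 * v - 1)) ↔ meets S T i j := by
  rw [ans2_loc hρ hv S T i j (tgt_lt hv)]
  constructor
  · rintro ⟨a, b, ⟨x, hx, ha⟩ | ⟨e, he, ha⟩, ⟨e', he', hb⟩ | ⟨y, hy, hb | hb⟩, h⟩
    · have := sq_lt hx
      have := e'.2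
      omega
    · have := sq_lt hx
      omega
    · omega
    · have h1 := e.2
      have h2 := e'.2
      have : e = e' := Fin.ext (by omega)
      subst this
      exact ⟨e, he, he'⟩
    · omega
    · omega
  · rintro ⟨e, he, he'⟩
    have := e.2
    exact ⟨ρ * ρ + v + e, v - 1 - e, Or.inr ⟨e, he, rfl⟩, Or.inl ⟨e, he', rfl⟩, by omega⟩

open Classical in
/-- every answer is the exclusive or of answers for pairs and of functions of one side -/
theorem decomp2 {ρ : ℕ} (hρ : 1 ≤ ρ) (hρv : v ≤ ρ * ρ) (hv : 2 ≤ v) (z : ℕ) :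
    ∃ (cz : Fin k → Fin k → ZMod 2)
    (fz gz : (Fin k → Fin v → Bool) → ZMod 2), ∀ S T : Fin k → Fin v → Bool,
      b2 (decide (ans2 ρ S T z)) =
        (∑ i, ∑ j, cz i j * b2 (decide (meets S T i j))) + fz S + gz T := by
  by_cases h : ∃ (i j : Fin k) (off : ℕ), off < WW ρ v ∧
      z = WW ρ v * ((i : ℕ) + k * (j : ℕ)) + off
  · obtain ⟨i, j, off, hoff, rfl⟩ := h
    by_cases h1 : off < ρ * ρ + v
    · refine ⟨fun _ _ => 0, fun _ => 0, fun T => b2 (decide (∃ x b, x < ρ ∧ OB2 ρ T j b ∧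
        x * ρ + b = off)), fun S T => ?_⟩
      simp only [zero_mul, Finset.sum_const_zero, zero_add]
      congr 1
      rw [decide_eq_decide, ans2_loc hρ hv S T i j hoff]
      constructor
      · rintro ⟨a, b, ⟨x, hx, ha⟩ | ⟨e, he, ha⟩, hb, h2⟩
        · exact ⟨x, b, hx, hb, by rw [← ha]; exact h2⟩
        · omega
      · rintro ⟨x, b, hx, hb, h2⟩
        exact ⟨x * ρ, b, Or.inl ⟨x, hx, rfl⟩, hb, h2⟩
    · by_cases h2 : off = ρ * ρ + 2 * v - 1
      · refine ⟨fun i' j' => if i' = i ∧ j' = j then 1 else 0, fun _ => 0, fun _ => 0,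
          fun S T => ?_⟩
        rw [add_zero, add_zero, Finset.sum_eq_single i, Finset.sum_eq_single j]
        · simp only [and_self, if_true, one_mul]
          congr 1
          rw [decide_eq_decide, h2]
          exact ans2_mid hρ hv S T i j
        · intro j' _ hj'
          simp [hj']
        · intro h
          exact absurd (Finset.mem_univ _) h
        · intro i' _ hi'
          simp [hi']
        · intro h
          exact absurd (Finset.mem_univ _) h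
      · by_cases h3 : off < ρ * ρ + 3 * v - 1
        · refine ⟨fun _ _ => 0, fun _ => 1, fun _ => 0, fun S T => ?_⟩
          simp only [zero_mul, Finset.sum_const_zero, zero_add, add_zero]
          have : ans2 ρ S T (WW ρ v * ((i : ℕ) + k * (j : ℕ)) + off) := by
            rw [ans2_loc hρ hv S T i j hoff]
            by_cases h4 : off < ρ * ρ + 2 * v - 1
            · obtain ⟨y, hy⟩ : ∃ y, y = off - (2 * v - 1) := ⟨_, rfl⟩
              have hy1 : y < ρ * ρ := by omega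
              have hy2 := Nat.div_add_mod y ρ
              rw [mul_comm] at hy2
              exact ⟨y / ρ * ρ, 2 * v - 1 + y % ρ, Or.inl ⟨y / ρ, Nat.div_lt_of_lt_mul hy1, rfl⟩,
                Or.inr ⟨y % ρ, Nat.mod_lt _ (by omega), Or.inl rfl⟩, by omega⟩
            · obtain ⟨y, hy⟩ : ∃ y, y = off - (ρ * ρ + 2 * v) := ⟨_, rfl⟩
              have hy1 : y < ρ * ρ := by omega
              have hy2 := Nat.div_add_mod y ρ
              rw [mul_comm] at hy2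
              exact ⟨y / ρ * ρ, ρ * ρ + 2 * v + y % ρ,
                Or.inl ⟨y / ρ, Nat.div_lt_of_lt_mul hy1, rfl⟩,
                Or.inr ⟨y % ρ, Nat.mod_lt _ (by omega), Or.inr rfl⟩, by omega⟩
          simp [this, b2]
        · refine ⟨fun _ _ => 0, fun S => b2 (decide (∃ a b, OA2 ρ S i a ∧ PB ρ v b ∧
              a + b = off)), fun _ => 0, fun S T => ?_⟩
          simp only [zero_mul, Finset.sum_const_zero, zero_add, add_zero]
          congr 1
          rw [decide_eq_decide, ans2_loc hρ hv S T i j hoff]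
          constructor
          · rintro ⟨a, b, ha, ⟨e', he', hb⟩ | hb, h5⟩
            · have := OA2_lt ha
              have := e'.2
              omega
            · exact ⟨a, b, ha, hb, h5⟩
          · rintro ⟨a, b, ha, hb, h5⟩
            exact ⟨a, b, ha, Or.inr hb, h5⟩
  · refine ⟨fun _ _ => 0, fun _ => 0, fun _ => 0, fun S T => ?_⟩
    simp only [zero_mul, Finset.sum_const_zero, add_zero]
    have : ¬ ans2 ρ S T z := by
      rintro ⟨i, j, a, b, ha, hb, h5⟩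
      exact h ⟨i, j, a + b, sum_lt hρ hv ha hb, h5.symm⟩
    simp [this, b2]

/-! ### the sets of values -/

/-- the pairs of a block and an element -/
def prs (S : Fin k → Fin v → Bool) : Finset (Fin k × Fin v) :=
  Finset.univ.filter fun p => S p.1 p.2 = true

theorem prs_card (S : Fin k → Fin v → Bool) :
    (prs S).card = ∑ i, (Finset.univ.filter fun e => S i e = true).card := by
  unfold prs
  rw [Finset.card_filter, Fintype.sum_prod_type]
  refine Finset.sum_congr rfl fun i _ => ?_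
  rw [Finset.card_filter]

/-- the values of the first array -/
def VA (ρ : ℕ) (S : Fin k → Fin v → Bool) : Finset ℕ :=
  ((Finset.univ : Finset (Fin k × Fin ρ)).image fun p => WW ρ v * (p.1 : ℕ) + (p.2 : ℕ) * ρ) ∪
    (prs S).image fun p => WW ρ v * (p.1 : ℕ) + (ρ * ρ + v + (p.2 : ℕ))

/-- the values of the second array -/
def VB (ρ : ℕ) (T : Fin k → Fin v → Bool) : Finset ℕ :=
  (((Finset.univ : Finset (Fin k × Fin ρ)).image fun p =>
      WW ρ v * (k * (p.1 : ℕ)) + (2 * v - 1 + (p.2 : ℕ))) ∪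
    ((Finset.univ : Finset (Fin k × Fin ρ)).image fun p =>
      WW ρ v * (k * (p.1 : ℕ)) + (ρ * ρ + 2 * v + (p.2 : ℕ)))) ∪
    (prs T).image fun p => WW ρ v * (k * (p.1 : ℕ)) + (v - 1 - (p.2 : ℕ))

theorem VA_card (ρ : ℕ) (S : Fin k → Fin v → Bool) : (VA ρ S).card ≤ k * ρ + (prs S).card := by
  unfold VA
  refine (Finset.card_union_le _ _).trans (Nat.add_le_add ?_ Finset.card_image_le)
  refine Finset.card_image_le.trans (le_of_eq ?_)
  rw [Finset.card_univ, Fintype.card_prod, Fintype.card_fin, Fintype.card_fin]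

theorem VB_card (ρ : ℕ) (T : Fin k → Fin v → Bool) :
    (VB ρ T).card ≤ 2 * (k * ρ) + (prs T).card := by
  unfold VB
  have h1 : ∀ f : Fin k × Fin ρ → ℕ, ((Finset.univ : Finset (Fin k × Fin ρ)).image f).card ≤
      k * ρ := by
    intro f
    refine Finset.card_image_le.trans (le_of_eq ?_)
    rw [Finset.card_univ, Fintype.card_prod, Fintype.card_fin, Fintype.card_fin]
  refine (Finset.card_union_le _ _).trans (Nat.add_le_add ?_ Finset.card_image_le)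
  refine (Finset.card_union_le _ _).trans ?_
  refine (Nat.add_le_add (h1 _) (h1 _)).trans (le_of_eq ?_)
  ring

theorem VA_mem (ρ : ℕ) (S : Fin k → Fin v → Bool) (x : ℕ) :
    x ∈ VA ρ S ↔ ∃ i a, OA2 ρ S i a ∧ WW ρ v * (i : ℕ) + a = x := by
  unfold VA prs
  simp only [Finset.mem_union, Finset.mem_image, Finset.mem_univ, true_and, Finset.mem_filter,
    Prod.exists]
  constructor
  · rintro (⟨i, y, h⟩ | ⟨i, e, he, h⟩)
    · exact ⟨i, _, Or.inl ⟨y, y.2, rfl⟩, h⟩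
    · exact ⟨i, _, Or.inr ⟨e, he, rfl⟩, h⟩
  · rintro ⟨i, a, ⟨y, hy, ha⟩ | ⟨e, he, ha⟩, h⟩
    · exact Or.inl ⟨i, ⟨y, hy⟩, by rw [← ha]; exact h⟩
    · exact Or.inr ⟨i, e, he, by rw [← ha]; exact h⟩

theorem VB_mem (ρ : ℕ) (T : Fin k → Fin v → Bool) (x : ℕ) :
    x ∈ VB ρ T ↔ ∃ j b, OB2 ρ T j b ∧ WW ρ v * (k * (j : ℕ)) + b = x := by
  unfold VB prs
  simp only [Finset.mem_union, Finset.mem_image, Finset.mem_univ, true_and, Finset.mem_filter,
    Prod.exists]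
  constructor
  · rintro ((⟨j, y, h⟩ | ⟨j, y, h⟩) | ⟨j, e, he, h⟩)
    · exact ⟨j, _, Or.inr ⟨y, y.2, Or.inl rfl⟩, h⟩
    · exact ⟨j, _, Or.inr ⟨y, y.2, Or.inr rfl⟩, h⟩
    · exact ⟨j, _, Or.inl ⟨e, he, rfl⟩, h⟩
  · rintro ⟨j, b, ⟨e, he, hb⟩ | ⟨y, hy, hb | hb⟩, h⟩
    · exact Or.inr ⟨j, e, he, by rw [← hb]; exact h⟩
    · exact Or.inl (Or.inl ⟨j, ⟨y, hy⟩, by rw [← hb]; exact h⟩)
    · exact Or.inl (Or.inr ⟨j, ⟨y, hy⟩, by rw [← hb]; exact h⟩)

theorem arr2_ans {N ρ : ℕ} (S T : Fin k → Fin v → Bool) {xA xB : ℕ} (hxA : xA ∈ VA ρ S)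
    (hxB : xB ∈ VB ρ T) (hA : (VA ρ S).card ≤ N) (hB : (VB ρ T).card ≤ N) (z : ℕ) :
    (∃ l l' : Fin N, arrF N (VA ρ S) xA l + arrF N (VB ρ T) xB l' = z) ↔ ans2 ρ S T z := by
  rw [arrF_ex hxA hA (fun x => ∃ l' : Fin N, x + arrF N (VB ρ T) xB l' = z)]
  unfold ans2
  constructor
  · rintro ⟨x, hx, h⟩
    rw [arrF_ex hxB hB (fun y => x + y = z)] at h
    obtain ⟨y, hy, h⟩ := h
    obtain ⟨i, a, ha, h1⟩ := (VA_mem ρ S x).1 hx
    obtain ⟨j, b, hb, h2⟩ := (VB_mem ρ T y).1 hy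
    exact ⟨i, j, a, b, ha, hb, by rw [← h, ← h1, ← h2]; ring⟩
  · rintro ⟨i, j, a, b, ha, hb, h⟩
    refine ⟨WW ρ v * (i : ℕ) + a, (VA_mem ρ S _).2 ⟨i, a, ha, rfl⟩, ?_⟩
    rw [arrF_ex hxB hB (fun y => WW ρ v * (i : ℕ) + a + y = z)]
    exact ⟨WW ρ v * (k * (j : ℕ)) + b, (VB_mem ρ T _).2 ⟨j, b, hb, rfl⟩, by rw [← h]; ring⟩

end Pool.Agent.N631.SX
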