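import Pool.Agent.R563.XT.Stm

/-!
# Cells made from exclusive ors of answers and from protocols: definitions (helper631)
-/

set_option autoImplicit false

namespace Pool.Agent.N631.SX

open Pool.Agent.R563

/-- A protocol of two players, who know `x` and `y`. After the bits `h` (the last one first) the next
bit is told by the first player if `turn h` is true, and by the second player otherwise. -/
structure Talk (X Y : Type) where
  turn : List Bool → Bool
  fst : List Bool → X → Bool
  snd : List Bool → Y → Bool

/-- the next bit, after the bits `h` -/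
def Talk.next {X Y : Type} (T : Talk X Y) (x : X) (y : Y) (h : List Bool) : Bool :=
  if T.turn h = true then T.fst h x else T.snd h y

/-- the first `m` bits (the last one first) -/
def Talk.run {X Y : Type} (T : Talk X Y) (x : X) (y : Y) : ℕ → List Bool
  | 0 => []
  | m + 1 => T.next x y (T.run x y m) :: T.run x y m

/-- A query algorithm for a memory of `c` cells with contents in `Γ`. -/
inductive CTree (c : ℕ) (Γ : Type) : Type
  | answer (o : Bool) : CTree c Γ
  | probe (σ : Fin c) (next : Γ → CTree c Γ) : CTree c Γ

/-- the answer if the memory is `b` -/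
def CTree.out {c : ℕ} {Γ : Type} (b : Fin c → Γ) : CTree c Γ → Bool
  | CTree.answer o => o
  | CTree.probe σ next => (next (b σ)).out b

/-- the number of cells read if the memory is `b` -/
def CTree.probes {c : ℕ} {Γ : Type} (b : Fin c → Γ) : CTree c Γ → ℕ
  | CTree.answer _ => 0
  | CTree.probe σ next => (next (b σ)).probes b + 1

/-- A data structure for two arrays of `n` integers, with `c` cells. The contents of the cell `σ` are
an arbitrary function `make σ` of `r` bits and of the `d` bits of a protocol of two players who know
one of the arrays each. The bit `l` is the exclusive or of the answers to all queries `z` in `Q σ l`,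
of an arbitrary function `f σ l` of the first array and of an arbitrary function `g σ l` of the second
array. The queries are adaptive. -/
structure CellDS (n c r d : ℕ) (Γ : Type) where
  Q : Fin c → Fin r → Finset ℕ
  f : Fin c → Fin r → (Fin n → ℕ) → Bool
  g : Fin c → Fin r → (Fin n → ℕ) → Bool
  talk : Fin c → Talk (Fin n → ℕ) (Fin n → ℕ)
  make : Fin c → (Fin r → Bool) → List Bool → Γ
  query : ℕ → CTree c Γ

/-- the bit `l` of the cell `σ` -/
noncomputable def CellDS.bit {n c r d : ℕ} {Γ : Type} (D : CellDS n c r d Γ) (A B : Fin n → ℕ)
    (σ : Fin c) (l : Fin r) : Bool :=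
  (XT.parity (D.Q σ l) fun z => ∃ i j, A i + B j = z) ^^ ((D.f σ l A) ^^ (D.g σ l B))

/-- the contents of the cell `σ` -/
noncomputable def CellDS.cell {n c r d : ℕ} {Γ : Type} (D : CellDS n c r d Γ) (A B : Fin n → ℕ)
    (σ : Fin c) : Γ :=
  D.make σ (D.bit A B σ) ((D.talk σ).run A B d)

open Classical in
/-- the number of cells in which answers enter -/
noncomputable def CellDS.space {n c r d : ℕ} {Γ : Type} (D : CellDS n c r d Γ) : ℕ :=
  (Finset.univ.filter fun σ : Fin c => ∃ l, (D.Q σ l).Nonempty).card

open Classical in
/-- For all arrays of `n` integers from `{0, …, n ^ 3}` and all `z`, with probability at least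
`1 / 2 + δ` the random data structure `D` (probabilities `p`) decides whether `z` is the sum of an
element of the first array and an element of the second array, correctly and reading at most `t`
cells. -/
def CellSolves {n c r d : ℕ} {Γ : Type} {Ω : Type} [Fintype Ω] (p : Ω → ℝ)
    (D : Ω → CellDS n c r d Γ) (t : ℕ) (δ : ℝ) : Prop :=
  (∀ ω, 0 ≤ p ω) ∧ ∑ ω, p ω = 1 ∧
    ∀ A B : Fin n → ℕ, (∀ i, A i ≤ n ^ 3) → (∀ i, B i ≤ n ^ 3) → ∀ z : ℕ,
      1 / 2 + δ ≤ ∑ ω with (((D ω).query z).out ((D ω).cell A B) = true ↔ ∃ i j, A i + B j = z) ∧
        ((D ω).query z).probes ((D ω).cell A B) ≤ t, p ω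

end Pool.Agent.N631.SX
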