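import Pool.Agent.N631.SX.Heavy3

/-!
# The number of pairs served by few cells (helper631)
-/

set_option autoImplicit false

namespace Pool.Agent.N631.SX

variable {k q : ℕ}

theorem card_good (W : Submodule (ZMod 2) (Fin k → Fin k → ZMod 2)) {s : ℕ}
    (hW : Module.finrank (ZMod 2) W ≤ s) (G : Finset (Fin k × Fin k))
    (hG : ∀ p ∈ G, ∃ w ∈ W, light q w p.1 p.2 ∧ w p.1 p.2 ≠ 0) : G.card ≤ s * q ^ 2 := by
  classical
  let V : Set (Fin k → Fin k → ZMod 2) := {w | w ∈ W ∧ ∃ p : Fin k × Fin k, light q w p.1 p.2}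
  obtain ⟨b, hbV, hbspan, hbli⟩ := exists_linearIndependent (ZMod 2) V
  have : Fintype b := Fintype.ofFinite b
  have hb : Fintype.card b ≤ s := by
    have h1 := finrank_span_set_eq_card hbli
    have h2 : Submodule.span (ZMod 2) b ≤ W := by
      rw [Submodule.span_le]
      intro w hw
      exact (hbV hw).1
    have h3 := Submodule.finrank_mono h2
    rw [h1, Set.toFinset_card] at h3
    exact h3.trans hW
  have h1 : G ⊆ Finset.univ.biUnion fun v : b =>
      Finset.univ.filter fun p : Fin k × Fin k => v.1 p.1 p.2 ≠ 0 := by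
    intro p hp
    obtain ⟨w, hw, hl, hwp⟩ := hG p hp
    rw [Finset.mem_biUnion]
    by_contra hn
    push Not at hn
    have h2 : w ∈ Submodule.span (ZMod 2) b := by
      rw [hbspan]
      exact Submodule.subset_span ⟨hw, p, hl⟩
    apply hwp
    clear hwp hl hw
    induction h2 using Submodule.span_induction with
    | mem v hv =>
      have h3 := hn ⟨v, hv⟩ (Finset.mem_univ _)
      rw [Finset.mem_filter] at h3
      by_contra h4
      exact h3 ⟨Finset.mem_univ _, h4⟩
    | zero => rfl
    | add v1 v2 _ _ h1 h2 => simp only [Pi.add_apply, h1, h2, add_zero]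
    | smul a v _ h1 => simp only [Pi.smul_apply, h1, smul_zero]
  refine (Finset.card_le_card h1).trans ?_
  refine Finset.card_biUnion_le.trans ?_
  calc ∑ v : b, (Finset.univ.filter fun p : Fin k × Fin k => v.1 p.1 p.2 ≠ 0).card
      ≤ ∑ _v : b, q ^ 2 := by
        refine Finset.sum_le_sum fun v _ => ?_
        obtain ⟨-, p, hp⟩ := hbV v.2
        exact light_card v.1 p.1 p.2 hp _ fun p' hp' => (Finset.mem_filter.1 hp').2
    _ = Fintype.card b * q ^ 2 := by simp
    _ ≤ _ := Nat.mul_le_mul_right _ hb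

end Pool.Agent.N631.SX
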