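import Pool.Agent.R563.XT.Stm

/-!
# Tables of exclusive ors of emptiness answers: definitions (helper631)
-/

set_option autoImplicit false

namespace Pool.Agent.N631.SX

open Pool.Agent.R563

/-- A data structure for a family of `2 k` subsets of a universe with `u` elements, the sets `X i` of
the first half and the sets `Y j` of the second half, with `c` bits. The bit `σ` is the exclusive or
of the answers to the queries in `P σ` (do `X i` and `Y j` intersect?), of an arbitrary function
`f σ` of the first half and of an arbitrary function `g σ` of the second half. The query `(i, j)`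
reads bits adaptively. -/
structure EDS (k u c : ℕ) where
  P : Fin c → Finset (Fin k × Fin k)
  f : Fin c → (Fin k → Finset (Fin u)) → Bool
  g : Fin c → (Fin k → Finset (Fin u)) → Bool
  query : Fin k → Fin k → XT.Tree c Bool

/-- the contents of the bit `σ` -/
noncomputable def EDS.bit {k u c : ℕ} (D : EDS k u c) (X Y : Fin k → Finset (Fin u))
    (σ : Fin c) : Bool :=
  (XT.parity (D.P σ) fun p => (X p.1 ∩ Y p.2).Nonempty) ^^ ((D.f σ X) ^^ (D.g σ Y))

/-- the number of bits in which answers enter -/
def EDS.space {k u c : ℕ} (D : EDS k u c) : ℕ :=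
  (Finset.univ.filter fun σ : Fin c => (D.P σ).Nonempty).card

open Classical in
/-- For all families of total size at most `N` and all `i`, `j`, with probability at least
`99 / 100` the random data structure `D` (probabilities `p`) decides whether `X i` and `Y j`
intersect, correctly and reading at most `t` bits. -/
def ESolves {k u c : ℕ} (N : ℕ) {Ω : Type} [Fintype Ω] (p : Ω → ℝ) (D : Ω → EDS k u c)
    (t : ℕ) : Prop :=
  (∀ ω, 0 ≤ p ω) ∧ ∑ ω, p ω = 1 ∧
    ∀ X Y : Fin k → Finset (Fin u), ∑ i, (X i).card + ∑ j, (Y j).card ≤ N → ∀ i j : Fin k,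
      (99 / 100 : ℝ) ≤ ∑ ω with
        (((D ω).query i j).out ((D ω).bit X Y) = true ↔ (X i ∩ Y j).Nonempty) ∧
        ((D ω).query i j).probes ((D ω).bit X Y) ≤ t, p ω

end Pool.Agent.N631.SX
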