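import Pool.Agent.N631.SX.CDefs
import Pool.Agent.N631.SX.EDefs

/-!
# Cells made from exclusive ors of emptiness answers and from protocols: definitions (helper631)
-/

set_option autoImplicit false

namespace Pool.Agent.N631.SX

open Pool.Agent.R563

/-- A data structure for a family of `2 k` subsets of a universe with `u` elements, the sets `X i` of
the first half and the sets `Y j` of the second half, with `c` cells. The contents of the cell `σ` are
an arbitrary function `make σ` of `r` bits and of the `d` bits of a protocol of two players who know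
one half of the family each. The bit `l` is the exclusive or of the answers to the queries in `P σ l`
(do `X i` and `Y j` intersect?), of an arbitrary function `f σ l` of the first half and of an
arbitrary function `g σ l` of the second half. The query `(i, j)` reads cells adaptively. -/
structure ECell (k u c r d : ℕ) (Γ : Type) where
  P : Fin c → Fin r → Finset (Fin k × Fin k)
  f : Fin c → Fin r → (Fin k → Finset (Fin u)) → Bool
  g : Fin c → Fin r → (Fin k → Finset (Fin u)) → Bool
  talk : Fin c → Talk (Fin k → Finset (Fin u)) (Fin k → Finset (Fin u))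
  make : Fin c → (Fin r → Bool) → List Bool → Γ
  query : Fin k → Fin k → CTree c Γ

/-- the bit `l` of the cell `σ` -/
noncomputable def ECell.bit {k u c r d : ℕ} {Γ : Type} (D : ECell k u c r d Γ)
    (X Y : Fin k → Finset (Fin u)) (σ : Fin c) (l : Fin r) : Bool :=
  (XT.parity (D.P σ l) fun p => (X p.1 ∩ Y p.2).Nonempty) ^^ ((D.f σ l X) ^^ (D.g σ l Y))

/-- the contents of the cell `σ` -/
noncomputable def ECell.cell {k u c r d : ℕ} {Γ : Type} (D : ECell k u c r d Γ)
    (X Y : Fin k → Finset (Fin u)) (σ : Fin c) : Γ :=
  D.make σ (D.bit X Y σ) ((D.talk σ).run X Y d)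

open Classical in
/-- the number of cells in which answers enter -/
noncomputable def ECell.space {k u c r d : ℕ} {Γ : Type} (D : ECell k u c r d Γ) : ℕ :=
  (Finset.univ.filter fun σ : Fin c => ∃ l, (D.P σ l).Nonempty).card

open Classical in
/-- For all families of total size at most `N` and all `i`, `j`, with probability at least
`1 / 2 + δ` the random data structure `D` (probabilities `p`) decides whether `X i` and `Y j`
intersect, correctly and reading at most `t` cells. -/
def ECellSolves {k u c r d : ℕ} {Γ : Type} (N : ℕ) {Ω : Type} [Fintype Ω] (p : Ω → ℝ)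
    (D : Ω → ECell k u c r d Γ) (t : ℕ) (δ : ℝ) : Prop :=
  (∀ ω, 0 ≤ p ω) ∧ ∑ ω, p ω = 1 ∧
    ∀ X Y : Fin k → Finset (Fin u), ∑ i, (X i).card + ∑ j, (Y j).card ≤ N → ∀ i j : Fin k,
      1 / 2 + δ ≤ ∑ ω with
        (((D ω).query i j).out ((D ω).cell X Y) = true ↔ (X i ∩ Y j).Nonempty) ∧
        ((D ω).query i j).probes ((D ω).cell X Y) ≤ t, p ω

end Pool.Agent.N631.SX
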