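import Pool.Agent.N631.SX.CDefs

/-!
# Simulation of cells by bits (helper631)
-/

set_option autoImplicit false

namespace Pool.Agent.N631.SX

open Pool.Agent.R563

/-- the nodes of the protocols -/
abbrev Nd (d : ℕ) := {h : List Bool // h.length < d}

instance finNd (d : ℕ) : Finite (Nd d) := (List.finite_length_lt Bool d).to_subtype

noncomputable instance fintypeNd (d : ℕ) : Fintype (Nd d) := Fintype.ofFinite _

variable {c c' r d : ℕ} {Γ : Type}

/-- reading some bits -/
def rdF (e : Fin r → Fin c') : List (Fin r) → (Fin r → Bool) →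
    ((Fin r → Bool) → XT.Tree c' Bool) → XT.Tree c' Bool
  | [], a, k => k a
  | l :: L, a, k => XT.Tree.probe (e l) (fun b => rdF e L (Function.update a l b) k)

theorem rdF_aux (b : Fin c' → Bool) (e : Fin r → Fin c') (l : Fin r) (L : List (Fin r))
    (a : Fin r → Bool) : (fun l' => if l' ∈ L then b (e l') else Function.update a l (b (e l)) l') =
      fun l' => if l' ∈ l :: L then b (e l') else a l' := by
  funext l'
  by_cases h : l' ∈ L
  · simp [h]
  · by_cases h' : l' = l
    · subst h'
      simp
    · simp [h, h', Function.update_of_ne]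

theorem rdF_out (b : Fin c' → Bool) (e : Fin r → Fin c') (k : (Fin r → Bool) → XT.Tree c' Bool) :
    ∀ (L : List (Fin r)) (a : Fin r → Bool),
      (rdF e L a k).out b = (k fun l => if l ∈ L then b (e l) else a l).out b := by
  intro L
  induction L with
  | nil => intro a; simp [rdF]
  | cons l L ih =>
    intro a
    simp only [rdF, XT.Tree.out]
    rw [ih, rdF_aux]

theorem rdF_probes (b : Fin c' → Bool) (e : Fin r → Fin c')
    (k : (Fin r → Bool) → XT.Tree c' Bool) : ∀ (L : List (Fin r)) (a : Fin r → Bool),
      (rdF e L a k).probes b =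
        L.length + (k fun l => if l ∈ L then b (e l) else a l).probes b := by
  intro L
  induction L with
  | nil => intro a; simp [rdF]
  | cons l L ih =>
    intro a
    simp only [rdF, XT.Tree.probes, List.length_cons]
    rw [ih, rdF_aux]
    omega

/-- running a protocol -/
noncomputable def rdT (e : Nd d → Fin c') : ℕ → List Bool → (List Bool → XT.Tree c' Bool) →
    XT.Tree c' Bool
  | 0, h, k => k h
  | m + 1, h, k => if hh : h.length < d then
      XT.Tree.probe (e ⟨h, hh⟩) (fun b => rdT e m (b :: h) k) else k h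

theorem run_length {X Y : Type} (T : Talk X Y) (x : X) (y : Y) (m : ℕ) :
    (T.run x y m).length = m := by
  induction m with
  | zero => rfl
  | succ m ih => simp [Talk.run, ih]

theorem rdT_out {X Y : Type} (T : Talk X Y) (x : X) (y : Y) (b : Fin c' → Bool)
    (e : Nd d → Fin c') (hb : ∀ h : Nd d, b (e h) = T.next x y h.1)
    (k : List Bool → XT.Tree c' Bool) : ∀ (m j : ℕ), j + m = d →
      (rdT e m (T.run x y j) k).out b = (k (T.run x y d)).out b := by
  intro m
  induction m with
  | zero =>
    intro j hj
    rw [add_zero] at hj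
    rw [hj]
    rfl
  | succ m ih =>
    intro j hj
    have hl : (T.run x y j).length < d := by rw [run_length]; omega
    simp only [rdT]
    rw [dif_pos hl]
    simp only [XT.Tree.out]
    rw [hb]
    exact ih (j + 1) (by omega)

theorem rdT_probes {X Y : Type} (T : Talk X Y) (x : X) (y : Y) (b : Fin c' → Bool)
    (e : Nd d → Fin c') (hb : ∀ h : Nd d, b (e h) = T.next x y h.1)
    (k : List Bool → XT.Tree c' Bool) : ∀ (m j : ℕ), j + m = d →
      (rdT e m (T.run x y j) k).probes b = m + (k (T.run x y d)).probes b := by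
  intro m
  induction m with
  | zero =>
    intro j hj
    rw [add_zero] at hj
    rw [hj, zero_add]
    rfl
  | succ m ih =>
    intro j hj
    have hl : (T.run x y j).length < d := by rw [run_length]; omega
    simp only [rdT]
    rw [dif_pos hl]
    simp only [XT.Tree.probes]
    rw [hb]
    have := ih (j + 1) (by omega)
    simp only [Talk.run] at this
    rw [this]
    omega

/-- the simulation of a query algorithm -/
noncomputable def sim (eF : Fin c → Fin r → Fin c') (eT : Fin c → Nd d → Fin c')
    (make : Fin c → (Fin r → Bool) → List Bool → Γ) : CTree c Γ → XT.Tree c' Bool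
  | CTree.answer o => XT.Tree.answer o
  | CTree.probe σ nx => rdF (eF σ) (List.finRange r) (fun _ => false) fun a =>
      rdT (eT σ) d [] fun h => sim eF eT make (nx (make σ a h))

theorem sim_out {X Y : Type} (T : Fin c → Talk X Y) (x : X) (y : Y) (b : Fin c' → Bool)
    (eF : Fin c → Fin r → Fin c') (eT : Fin c → Nd d → Fin c')
    (make : Fin c → (Fin r → Bool) → List Bool → Γ) (fm : Fin c → Fin r → Bool)
    (h1 : ∀ σ l, b (eF σ l) = fm σ l) (h2 : ∀ σ h, b (eT σ h) = (T σ).next x y h.1)
    (q : CTree c Γ) : (sim eF eT make q).out b =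
      q.out (fun σ => make σ (fm σ) ((T σ).run x y d)) := by
  induction q with
  | answer o => rfl
  | probe σ nx ih =>
    simp only [sim, CTree.out]
    rw [rdF_out]
    have h3 : (fun l => if l ∈ List.finRange r then b (eF σ l) else false) = fm σ := by
      funext l
      rw [if_pos (List.mem_finRange l), h1]
    rw [h3]
    have h4 := rdT_out (T σ) x y b (eT σ) (h2 σ) (fun h => sim eF eT make (nx (make σ (fm σ) h)))
      d 0 (by omega)
    simp only [Talk.run] at h4
    rw [h4]
    exact ih _

theorem sim_probes {X Y : Type} (T : Fin c → Talk X Y) (x : X) (y : Y) (b : Fin c' → Bool)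
    (eF : Fin c → Fin r → Fin c') (eT : Fin c → Nd d → Fin c')
    (make : Fin c → (Fin r → Bool) → List Bool → Γ) (fm : Fin c → Fin r → Bool)
    (h1 : ∀ σ l, b (eF σ l) = fm σ l) (h2 : ∀ σ h, b (eT σ h) = (T σ).next x y h.1)
    (q : CTree c Γ) : (sim eF eT make q).probes b =
      (r + d) * q.probes (fun σ => make σ (fm σ) ((T σ).run x y d)) := by
  induction q with
  | answer o => rfl
  | probe σ nx ih =>
    simp only [sim, CTree.probes]
    rw [rdF_probes]
    have h3 : (fun l => if l ∈ List.finRange r then b (eF σ l) else false) = fm σ := by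
      funext l
      rw [if_pos (List.mem_finRange l), h1]
    rw [h3]
    have h4 := rdT_probes (T σ) x y b (eT σ) (h2 σ)
      (fun h => sim eF eT make (nx (make σ (fm σ) h))) d 0 (by omega)
    simp only [Talk.run] at h4
    rw [h4, ih, List.length_finRange]
    ring

/-! ### the bits of the simulation -/

/-- the indices of the bits -/
abbrev Idx (c r d : ℕ) := Fin c × (Fin r ⊕ Nd d)

/-- numbering of the bits -/
noncomputable def idx (c r d : ℕ) : Idx c r d ≃ Fin (Fintype.card (Idx c r d)) :=
  Fintype.equivFin _

variable {n : ℕ}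

/-- the answers of a bit -/
def simQ (D : CellDS n c r d Γ) : Idx c r d → Finset ℕ
  | (σ, Sum.inl l) => D.Q σ l
  | (_, Sum.inr _) => ∅

/-- the first function of a bit -/
def simf (D : CellDS n c r d Γ) : Idx c r d → (Fin n → ℕ) → Bool
  | (σ, Sum.inl l), A => D.f σ l A
  | (σ, Sum.inr h), A => (D.talk σ).turn h.1 && (D.talk σ).fst h.1 A

/-- the second function of a bit -/
def simg (D : CellDS n c r d Γ) : Idx c r d → (Fin n → ℕ) → Bool
  | (σ, Sum.inl l), B => D.g σ l B
  | (σ, Sum.inr h), B => !(D.talk σ).turn h.1 && (D.talk σ).snd h.1 B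

/-- the structure of bits -/
noncomputable def simDS (D : CellDS n c r d Γ) : XT.XorSumDS n (Fintype.card (Idx c r d)) where
  Q i := simQ D ((idx c r d).symm i)
  f i := simf D ((idx c r d).symm i)
  g i := simg D ((idx c r d).symm i)
  query z := sim (fun σ l => idx c r d (σ, Sum.inl l)) (fun σ h => idx c r d (σ, Sum.inr h))
    D.make (D.query z)

theorem simDS_inl (D : CellDS n c r d Γ) (A B : Fin n → ℕ) (σ : Fin c) (l : Fin r) :
    (simDS D).bit A B (idx c r d (σ, Sum.inl l)) = D.bit A B σ l := by
  unfold XT.XorSumDS.bit simDS CellDS.bit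
  simp only [Equiv.symm_apply_apply, simQ, simf, simg]

theorem simDS_inr (D : CellDS n c r d Γ) (A B : Fin n → ℕ) (σ : Fin c) (h : Nd d) :
    (simDS D).bit A B (idx c r d (σ, Sum.inr h)) = (D.talk σ).next A B h.1 := by
  unfold XT.XorSumDS.bit simDS Talk.next
  simp only [Equiv.symm_apply_apply, simQ, simf, simg, XT.parity, Finset.filter_empty,
    Finset.card_empty]
  cases (D.talk σ).turn h.1 <;> simp

theorem simDS_out (D : CellDS n c r d Γ) (A B : Fin n → ℕ) (z : ℕ) :
    ((simDS D).query z).out ((simDS D).bit A B) = (D.query z).out (D.cell A B) :=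
  sim_out D.talk A B _ _ _ D.make (D.bit A B) (simDS_inl D A B) (simDS_inr D A B) (D.query z)

theorem simDS_probes (D : CellDS n c r d Γ) (A B : Fin n → ℕ) (z : ℕ) :
    ((simDS D).query z).probes ((simDS D).bit A B) = (r + d) * (D.query z).probes (D.cell A B) :=
  sim_probes D.talk A B _ _ _ D.make (D.bit A B) (simDS_inl D A B) (simDS_inr D A B) (D.query z)

theorem simDS_space {s : ℕ} (D : CellDS n c r d Γ) (hs : D.space ≤ s) :
    (simDS D).space ≤ r * s := by
  classical
  have h1 : (simDS D).space ≤
      ((Finset.univ.filter fun σ : Fin c => ∃ l, (D.Q σ l).Nonempty) ×ˢ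
        (Finset.univ : Finset (Fin r))).card := by
    unfold XT.XorSumDS.space
    refine le_trans (Finset.card_le_card ?_) (Finset.card_image_le
      (f := fun p : Fin c × Fin r => idx c r d (p.1, Sum.inl p.2)))
    intro i hi
    have h2 : (simQ D ((idx c r d).symm i)).Nonempty := (Finset.mem_filter.1 hi).2
    obtain ⟨⟨σ, o⟩, rfl⟩ := (idx c r d).surjective i
    rw [Equiv.symm_apply_apply] at h2
    cases o with
    | inl l =>
      exact Finset.mem_image.2 ⟨(σ, l), Finset.mem_product.2 ⟨Finset.mem_filter.2
        ⟨Finset.mem_univ _, l, h2⟩, Finset.mem_univ _⟩, rfl⟩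
    | inr h => simp [simQ] at h2
  refine h1.trans ?_
  rw [Finset.card_product, Finset.card_univ, Fintype.card_fin, mul_comm]
  refine Nat.mul_le_mul_left _ (le_trans (le_of_eq ?_) hs)
  unfold CellDS.space
  congr

end Pool.Agent.N631.SX
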