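import Pool.Agent.N631.SX.EMain
import Pool.Agent.N631.SX.Amp
import Pool.Agent.N631.SX.Sim
import Pool.Agent.N631.SX.ECDefs

/-!
# Emptiness queries: amplification of the advantage and cells (helper631)
-/

set_option autoImplicit false

namespace Pool.Agent.N631.SX

open Pool.Agent.R563 Pool.Agent.W959 Pool.Agent.W959.Ent

open Classical in
/-- the structure is correct with probability `1 / 2 + δ` -/
def EDelta {k u c : ℕ} (N : ℕ) {Ω : Type} [Fintype Ω] (p : Ω → ℝ) (D : Ω → EDS k u c)
    (t : ℕ) (δ : ℝ) : Prop :=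
  (∀ ω, 0 ≤ p ω) ∧ ∑ ω, p ω = 1 ∧
    ∀ X Y : Fin k → Finset (Fin u), ∑ i, (X i).card + ∑ j, (Y j).card ≤ N → ∀ i j : Fin k,
      1 / 2 + δ ≤ ∑ ω with
        (((D ω).query i j).out ((D ω).bit X Y) = true ↔ (X i ∩ Y j).Nonempty) ∧
        ((D ω).query i j).probes ((D ω).bit X Y) ≤ t, p ω

/-- independent copies with a majority vote -/
noncomputable def eampDS {k u c : ℕ} (t r : ℕ) (D : Fin r → EDS k u c) :
    EDS k u (r * c) where
  P σ := (D (finProdFinEquiv.symm σ).1).P (finProdFinEquiv.symm σ).2
  f σ := (D (finProdFinEquiv.symm σ).1).f (finProdFinEquiv.symm σ).2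
  g σ := (D (finProdFinEquiv.symm σ).1).g (finProdFinEquiv.symm σ).2
  query z z' := majT r (List.ofFn fun i => mapT (fun σ => finProdFinEquiv (i, σ))
    (ct t ((D i).query z z'))) 0

theorem eampDS_bit {k u c : ℕ} (t r : ℕ) (D : Fin r → EDS k u c) (A B : Fin k → Finset (Fin u)) (i : Fin r)
    (σ : Fin c) : (eampDS t r D).bit A B (finProdFinEquiv (i, σ)) = (D i).bit A B σ := by
  unfold EDS.bit eampDS
  simp

theorem eampDS_out {k u c : ℕ} (t r : ℕ) (D : Fin r → EDS k u c) (A B : Fin k → Finset (Fin u)) (z z' : Fin k) :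
    ((eampDS t r D).query z z').out ((eampDS t r D).bit A B) =
      decide (r < 2 * ∑ i, if (ct t ((D i).query z z')).out ((D i).bit A B) = true then 1 else 0) := by
  have h1 : (eampDS t r D).query z z' = majT r (List.ofFn fun i => mapT
    (fun σ => finProdFinEquiv (i, σ)) (ct t ((D i).query z z'))) 0 := rfl
  rw [h1, majT_out, List.map_ofFn, List.sum_ofFn, zero_add]
  congr 3
  refine Finset.sum_congr rfl fun i _ => ?_
  simp only [Function.comp_apply, mapT_out, eampDS_bit]

theorem eampDS_probes {k u c : ℕ} (t r : ℕ) (D : Fin r → EDS k u c) (A B : Fin k → Finset (Fin u)) (z z' : Fin k) :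
    ((eampDS t r D).query z z').probes ((eampDS t r D).bit A B) ≤ r * t := by
  have h1 : (eampDS t r D).query z z' = majT r (List.ofFn fun i => mapT
    (fun σ => finProdFinEquiv (i, σ)) (ct t ((D i).query z z'))) 0 := rfl
  rw [h1, majT_probes, List.map_ofFn, List.sum_ofFn]
  calc _ ≤ ∑ _i : Fin r, t := by
        refine Finset.sum_le_sum fun i _ => ?_
        simp only [Function.comp_apply, mapT_probes]
        exact (dep_probes _ _).trans (ct_dep _ _)
    _ = r * t := by simp

theorem eampDS_space {k u c s : ℕ} (t r : ℕ) (D : Fin r → EDS k u c)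
    (hs : ∀ i, (D i).space ≤ s) : (eampDS t r D).space ≤ r * s := by
  classical
  have h1 : (eampDS t r D).space =
      (Finset.univ.filter fun q : Fin r × Fin c => ((D q.1).P q.2).Nonempty).card := by
    unfold EDS.space eampDS
    refine Finset.card_bij (fun σ _ => finProdFinEquiv.symm σ) ?_ ?_ ?_
    · intro σ hσ
      simpa using hσ
    · intro σ _ σ' _ h
      exact finProdFinEquiv.symm.injective h
    · intro q hq
      refine ⟨finProdFinEquiv q, Finset.mem_filter.2 ⟨Finset.mem_univ _, ?_⟩, by simp⟩
      show ((D (finProdFinEquiv.symm (finProdFinEquiv q)).1).P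
        (finProdFinEquiv.symm (finProdFinEquiv q)).2).Nonempty
      rw [Equiv.symm_apply_apply]
      exact (Finset.mem_filter.1 hq).2
  rw [h1, Finset.card_filter, Fintype.sum_prod_type]
  calc _ ≤ ∑ _i : Fin r, s := by
        refine Finset.sum_le_sum fun i _ => ?_
        rw [← Finset.card_filter]
        refine le_trans (le_of_eq ?_) (hs i)
        unfold EDS.space
        congr
    _ = r * s := by simp

theorem eamp_solves {k u c : ℕ} {Ω : Type} [Fintype Ω] (p : Ω → ℝ) (D : Ω → EDS k u c)
    {N t r : ℕ} {δ : ℝ} (hδ : 0 < δ) (hr : 25 / δ ^ 2 ≤ (r : ℝ)) (hD : EDelta N p D t δ) :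
    ESolves N (fun ω : Fin r → Ω => ∏ l, p (ω l)) (fun ω => eampDS t r fun i => D (ω i))
      (r * t) := by
  classical
  obtain ⟨hp, hp1, hcor⟩ := hD
  refine ⟨fun ω => Finset.prod_nonneg fun l _ => hp _, total p hp1 r, ?_⟩
  intro A B hAB z z'
  have h1 := hcor A B hAB z z'
  let bad : Ω → Prop := fun ω => ¬ ((((D ω).query z z').out ((D ω).bit A B) = true ↔
      (A z ∩ B z').Nonempty) ∧ ((D ω).query z z').probes ((D ω).bit A B) ≤ t)
  have hbad : ∑ ω, p ω * ind (bad ω) ≤ 1 / 2 - δ := by
    rw [Finset.sum_filter] at h1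
    have h2 : ∑ ω, p ω * ind (bad ω) + (1 / 2 + δ) ≤ 1 := by
      refine (add_le_add_right h1 _).trans ?_
      rw [← Finset.sum_add_distrib, ← hp1]
      refine Finset.sum_le_sum fun ω _ => ?_
      by_cases h : bad ω
      · rw [ind_true h, if_neg h]
        simp
      · rw [ind_false h, if_pos (not_not.1 h)]
        simp
    linarith
  have h2 := cheb p hp hp1 bad hδ hbad hr
  have h3 := total p hp1 r
  rw [Finset.sum_filter]
  have h4 : ∀ ω : Fin r → Ω, (∏ l, p (ω l)) - (∏ l, p (ω l)) *
      ind ((r : ℝ) ≤ 2 * ∑ i, ind (bad (ω i))) ≤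
      if (((eampDS t r fun i => D (ω i)).query z z').out
        ((eampDS t r fun i => D (ω i)).bit A B) = true ↔ (A z ∩ B z').Nonempty) ∧
        ((eampDS t r fun i => D (ω i)).query z z').probes ((eampDS t r fun i => D (ω i)).bit A B) ≤
          r * t then (∏ l, p (ω l)) else 0 := by
    intro ω
    have hP : 0 ≤ ∏ l, p (ω l) := Finset.prod_nonneg fun l _ => hp _
    by_cases h : (r : ℝ) ≤ 2 * ∑ i, ind (bad (ω i))
    · rw [ind_true h, mul_one, sub_self]
      split_ifs
      · exact hP
      · exact le_rfl
    · rw [ind_false h, mul_zero, sub_zero]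
      rw [if_pos]
      refine ⟨?_, eampDS_probes _ _ _ _ _ _ _⟩
      rw [eampDS_out, decide_eq_true_iff]
      have h := not_le.1 h
      let o : Fin r → Prop := fun i => (ct t ((D (ω i)).query z z')).out ((D (ω i)).bit A B) = true
      have hcast : ((∑ i, if (ct t ((D (ω i)).query z z')).out ((D (ω i)).bit A B) = true then 1
          else 0 : ℕ) : ℝ) = ∑ i, ind (o i) := by
        push_cast
        refine Finset.sum_congr rfl fun i _ => ?_
        rw [ind_eq_ite]
      have hgood : ∀ i, ¬ bad (ω i) → (o i ↔ (A z ∩ B z').Nonempty) := by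
        intro i hi
        have := not_not.1 hi
        simp only [o]
        rw [ct_out _ _ _ this.2]
        exact this.1
      constructor
      · intro hlt
        by_contra hno
        have h5 : ∑ i, ind (o i) ≤ ∑ i, ind (bad (ω i)) := by
          refine Finset.sum_le_sum fun i _ => ?_
          apply ind_mono
          intro hi
          exact Classical.byContradiction fun hb => hno ((hgood i hb).1 hi)
        have h6 : (r : ℝ) < 2 * ∑ i, ind (o i) := by
          rw [← hcast]
          exact_mod_cast hlt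
        linarith
      · intro hyes
        have h5 : (r : ℝ) ≤ ∑ i, ind (bad (ω i)) + ∑ i, ind (o i) := by
          rw [← Finset.sum_add_distrib]
          calc (r : ℝ) = ∑ _i : Fin r, (1 : ℝ) := by simp
            _ ≤ _ := by
              refine Finset.sum_le_sum fun i _ => ?_
              by_cases hb : bad (ω i)
              · rw [ind_true hb]
                have := ind_nonneg (o i)
                linarith
              · rw [ind_false hb, ind_true ((hgood i hb).2 hyes)]
                norm_num
        have h6 : (r : ℝ) < 2 * ∑ i, ind (o i) := by linarith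
        rw [← hcast] at h6
        exact_mod_cast h6
  have h5 := Finset.sum_le_sum fun ω (_ : ω ∈ (Finset.univ : Finset (Fin r → Ω))) => h4 ω
  rw [Finset.sum_sub_distrib, h3] at h5
  linarith


variable {k u c c' r d : ℕ} {Γ : Type}

/-- the answers of a bit -/
def esimQ (D : ECell k u c r d Γ) : Idx c r d → Finset (Fin k × Fin k)
  | (σ, Sum.inl l) => D.P σ l
  | (_, Sum.inr _) => ∅

/-- the first function of a bit -/
def esimf (D : ECell k u c r d Γ) : Idx c r d → (Fin k → Finset (Fin u)) → Bool
  | (σ, Sum.inl l), A => D.f σ l A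
  | (σ, Sum.inr h), A => (D.talk σ).turn h.1 && (D.talk σ).fst h.1 A

/-- the second function of a bit -/
def esimg (D : ECell k u c r d Γ) : Idx c r d → (Fin k → Finset (Fin u)) → Bool
  | (σ, Sum.inl l), B => D.g σ l B
  | (σ, Sum.inr h), B => !(D.talk σ).turn h.1 && (D.talk σ).snd h.1 B

/-- the structure of bits -/
noncomputable def esimDS (D : ECell k u c r d Γ) : EDS k u (Fintype.card (Idx c r d)) where
  P i := esimQ D ((idx c r d).symm i)
  f i := esimf D ((idx c r d).symm i)
  g i := esimg D ((idx c r d).symm i)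
  query z z' := sim (fun σ l => idx c r d (σ, Sum.inl l)) (fun σ h => idx c r d (σ, Sum.inr h))
    D.make (D.query z z')

theorem esimDS_inl (D : ECell k u c r d Γ) (A B : Fin k → Finset (Fin u)) (σ : Fin c) (l : Fin r) :
    (esimDS D).bit A B (idx c r d (σ, Sum.inl l)) = D.bit A B σ l := by
  unfold EDS.bit esimDS ECell.bit
  simp only [Equiv.symm_apply_apply, esimQ, esimf, esimg]

theorem esimDS_inr (D : ECell k u c r d Γ) (A B : Fin k → Finset (Fin u)) (σ : Fin c) (h : Nd d) :
    (esimDS D).bit A B (idx c r d (σ, Sum.inr h)) = (D.talk σ).next A B h.1 := by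
  unfold EDS.bit esimDS Talk.next
  simp only [Equiv.symm_apply_apply, esimQ, esimf, esimg, XT.parity, Finset.filter_empty,
    Finset.card_empty]
  cases (D.talk σ).turn h.1 <;> simp

theorem esimDS_out (D : ECell k u c r d Γ) (A B : Fin k → Finset (Fin u)) (z z' : Fin k) :
    ((esimDS D).query z z').out ((esimDS D).bit A B) = (D.query z z').out (D.cell A B) :=
  sim_out D.talk A B _ _ _ D.make (D.bit A B) (esimDS_inl D A B) (esimDS_inr D A B) (D.query z z')

theorem esimDS_probes (D : ECell k u c r d Γ) (A B : Fin k → Finset (Fin u)) (z z' : Fin k) :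
    ((esimDS D).query z z').probes ((esimDS D).bit A B) = (r + d) * (D.query z z').probes (D.cell A B) :=
  sim_probes D.talk A B _ _ _ D.make (D.bit A B) (esimDS_inl D A B) (esimDS_inr D A B) (D.query z z')

theorem esimDS_space {s : ℕ} (D : ECell k u c r d Γ) (hs : D.space ≤ s) :
    (esimDS D).space ≤ r * s := by
  classical
  have h1 : (esimDS D).space ≤
      ((Finset.univ.filter fun σ : Fin c => ∃ l, (D.P σ l).Nonempty) ×ˢ
        (Finset.univ : Finset (Fin r))).card := by
    unfold EDS.space
    refine le_trans (Finset.card_le_card ?_) (Finset.card_image_le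
      (f := fun p : Fin c × Fin r => idx c r d (p.1, Sum.inl p.2)))
    intro i hi
    have h2 : (esimQ D ((idx c r d).symm i)).Nonempty := (Finset.mem_filter.1 hi).2
    obtain ⟨⟨σ, o⟩, rfl⟩ := (idx c r d).surjective i
    rw [Equiv.symm_apply_apply] at h2
    cases o with
    | inl l =>
      exact Finset.mem_image.2 ⟨(σ, l), Finset.mem_product.2 ⟨Finset.mem_filter.2
        ⟨Finset.mem_univ _, l, h2⟩, Finset.mem_univ _⟩, rfl⟩
    | inr h => simp [esimQ] at h2
  refine h1.trans ?_
  rw [Finset.card_product, Finset.card_univ, Fintype.card_fin, mul_comm]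
  refine Nat.mul_le_mul_left _ (le_trans (le_of_eq ?_) hs)
  unfold ECell.space
  congr


end Pool.Agent.N631.SX
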