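import Pool.Agent.N631.SX.Main
import Pool.Agent.N631.SX.EDefs

/-!
# Tables of exclusive ors of emptiness answers: main theorem (helper631)
-/

set_option autoImplicit false

namespace Pool.Agent.N631.SX

open Pool.Agent.W959 Pool.Agent.W959.Ent Pool.Agent.TH457.EntD Pool.Agent.N631.LX
open Pool.Agent.R563

variable {k q n : ℕ}

/-- the first half of the family -/
noncomputable def famX (i0 : Fin k) (x : AA n k q) : Fin k → Finset (Fin (vv n q)) :=
  fun i => Finset.univ.filter fun e => setS i0 x i e = true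

/-- the second half of the family -/
noncomputable def famY (j0 : Fin k) (y : AA n k q) : Fin k → Finset (Fin (vv n q)) :=
  fun j => Finset.univ.filter fun e => setT j0 y j e = true

theorem fam_meets (i0 j0 : Fin k) (x y : AA n k q) (i j : Fin k) :
    (famX i0 x i ∩ famY j0 y j).Nonempty ↔ meets (setS i0 x) (setT j0 y) i j := by
  unfold famX famY meets Finset.Nonempty
  refine exists_congr fun e => ?_
  simp

theorem card_E (h : E n q → Bool) : (Finset.univ.filter fun e : Fin (vv n q) =>
    h ((num n q).symm e) = true).card = (Finset.univ.filter fun e : E n q => h e = true).card := by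
  refine Finset.card_bij (fun e _ => (num n q).symm e) ?_ ?_ ?_
  · intro e he
    simpa using he
  · intro e _ e' _ hee
    exact (num n q).symm.injective hee
  · intro e he
    exact ⟨num n q e, by simpa using he, by simp⟩

theorem card_half (h : E n q → Bool) (a b c : ℕ)
    (ha : (Finset.univ.filter fun e : Fin n => h (Sum.inl e) = true).card ≤ a)
    (hb : (Finset.univ.filter fun e : Option (Fin q) => h (Sum.inr (Sum.inl e)) = true).card ≤ b)
    (hc : (Finset.univ.filter fun e : Option (Fin q) => h (Sum.inr (Sum.inr e)) = true).card ≤ c) :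
    (Finset.univ.filter fun e : E n q => h e = true).card ≤ a + (b + c) := by
  classical
  rw [Finset.card_filter, Fintype.sum_sum_type, Fintype.sum_sum_type, ← Finset.card_filter,
    ← Finset.card_filter, ← Finset.card_filter]
  omega

theorem card_le_univ' {α : Type} [Fintype α] (P : α → Prop) [DecidablePred P] :
    (Finset.univ.filter P).card ≤ Fintype.card α := Finset.card_le_univ _

theorem sizeX (i0 : Fin k) (x : AA n k q) : ∑ i, (famX i0 x i).card ≤ n + k * (q + 2) := by
  classical
  have h1 : ∀ i, (famX i0 x i).card ≤ (if i = i0 then n else 0) + (q + 2) := by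
    intro i
    unfold famX setS
    rw [card_E (fun e => SA i0 x i e)]
    refine (card_half _ (if i = i0 then n else 0) (q + 1) 1 ?_ ?_ ?_).trans (by omega)
    · by_cases h : i = i0
      · rw [if_pos h]
        have := card_le_univ' (fun e : Fin n => SA i0 x i (Sum.inl e) = true)
        simpa using this
      · rw [if_neg h]
        simp [SA, h]
    · have := card_le_univ' (fun e : Option (Fin q) => SA i0 x i (Sum.inr (Sum.inl e)) = true)
      simpa using this
    · simp only [SA, decide_eq_true_eq]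
      rw [Finset.filter_eq]
      simp
  refine (Finset.sum_le_sum fun i _ => h1 i).trans ?_
  rw [Finset.sum_add_distrib, Finset.sum_ite_eq']
  simp

theorem sizeY (j0 : Fin k) (y : AA n k q) : ∑ j, (famY j0 y j).card ≤ n + k * (q + 2) := by
  classical
  have h1 : ∀ j, (famY j0 y j).card ≤ (if j = j0 then n else 0) + (q + 2) := by
    intro j
    unfold famY setT
    rw [card_E (fun e => TB j0 y j e)]
    refine (card_half _ (if j = j0 then n else 0) 1 (q + 1) ?_ ?_ ?_).trans (by omega)
    · by_cases h : j = j0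
      · rw [if_pos h]
        have := card_le_univ' (fun e : Fin n => TB j0 y j (Sum.inl e) = true)
        simpa using this
      · rw [if_neg h]
        simp [TB, h]
    · simp only [TB, decide_eq_true_eq]
      rw [Finset.filter_eq]
      simp
    · have := card_le_univ' (fun e : Option (Fin q) => TB j0 y j (Sum.inr (Sum.inr e)) = true)
      simpa using this
  refine (Finset.sum_le_sum fun i _ => h1 i).trans ?_
  rw [Finset.sum_add_distrib, Finset.sum_ite_eq']
  simp

theorem pair_iff (p : Fin k × Fin k) (x y : AA n k q) :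
    (famX p.1 x p.1 ∩ famY p.2 y p.2).Nonempty ↔ ¬ conj x.1 y.1 = zero n := by
  rw [fam_meets, meets_iff, zz_self]
  simp

/-- the error of one data structure, summed over all queries -/
theorem e_sum_error {t m s c : ℕ} (ht : 1 ≤ t) (hm : m = 1400 * t) (hn : n = m ^ 2)
    (hqt : q = 100 * t) (D : EDS k (vv n q) c) (hs : D.space ≤ s) :
    ((k : ℝ) ^ 2 - s * (q : ℝ) ^ 2) * (1 / 80) ≤ ∑ p : Fin k × Fin k,
      EE (q := q) (1 / (m : ℝ)) (fun x y => ind (¬ ((ct t (D.query p.1 p.2)).out
        (D.bit (famX p.1 x) (famY p.2 y)) = true ↔ ¬ conj x.1 y.1 = zero n))) := by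
  classical
  have hm' : (2 : ℝ) ≤ m := by
    have : 2 ≤ m := by omega
    exact_mod_cast this
  have hinv0 : 0 ≤ 1 / (m : ℝ) := by positivity
  have hr1 : 0 ≤ 1 - 1 / (m : ℝ) := by
    have : 1 / (m : ℝ) ≤ 1 := by
      rw [div_le_one (by linarith)]
      linarith
    linarith
  let C' : Fin c → Fin k → Fin k → ZMod 2 := fun σ i j => if (i, j) ∈ D.P σ then 1 else 0
  let J : Finset (Fin k → Fin k → ZMod 2) :=
    (Finset.univ.filter fun σ => (D.P σ).Nonempty).image C'
  let W : Submodule (ZMod 2) (Fin k → Fin k → ZMod 2) := Submodule.span (ZMod 2) (J : Set _)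
  have hW : ∀ l, C' l ∈ W := by
    intro l
    by_cases h : (D.P l).Nonempty
    · exact Submodule.subset_span (Finset.mem_coe.2 (Finset.mem_image.2
        ⟨l, Finset.mem_filter.2 ⟨Finset.mem_univ _, h⟩, rfl⟩))
    · rw [Finset.not_nonempty_iff_eq_empty] at h
      have : C' l = 0 := by
        funext i j
        simp [C', h]
      rw [this]
      exact Submodule.zero_mem _
  have hrank : Module.finrank (ZMod 2) W ≤ s := by
    refine (finrank_span_finset_le_card J).trans (Finset.card_image_le.trans ?_)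
    refine le_trans (le_of_eq ?_) hs
    unfold EDS.space
    congr
  let G : Finset (Fin k × Fin k) := Finset.univ.filter fun p =>
    ∃ w ∈ W, light q w p.1 p.2 ∧ w p.1 p.2 ≠ 0
  have hG := card_good W hrank G fun p hp => (Finset.mem_filter.1 hp).2
  have hG' : (G.card : ℝ) ≤ s * (q : ℝ) ^ 2 := by exact_mod_cast hG
  have herr : ∀ p : Fin k × Fin k, p ∉ G → (1 / 80 : ℝ) ≤
      EE (q := q) (1 / (m : ℝ)) (fun x y => ind (¬ ((ct t (D.query p.1 p.2)).out
        (D.bit (famX p.1 x) (famY p.2 y)) = true ↔ ¬ conj x.1 y.1 = zero n))) := by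
    intro p hp
    let f : Fin c → AA n k q → ZMod 2 := fun σ x => b2 (D.f σ (famX p.1 x))
    let g : Fin c → AA n k q → ZMod 2 := fun σ y => b2 (D.g σ (famY p.2 y))
    have hbit : ∀ (x y : AA n k q) (σ : Fin c), D.bit (famX p.1 x) (famY p.2 y) σ =
          decide (bt C' f g p.1 p.2 σ x y = 1) := by
      intro x y σ
      rw [← decide_b2 (D.bit (famX p.1 x) (famY p.2 y) σ)]
      congr 2
      unfold EDS.bit
      rw [b2_xor, b2_xor, b2_parity]
      have h2 : ∑ z ∈ D.P σ, b2 (@decide ((famX p.1 x z.1 ∩ famY p.2 y z.2).Nonempty)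
          (Classical.propDecidable _)) = xc p.1 p.2 (C' σ) x y := by
        rw [← meets_sum, ← Fintype.sum_prod_type' (f := fun i j => C' σ i j *
          b2 (decide (meets (setS p.1 x) (setT p.2 y) i j)))]
        simp only [C', ite_mul, one_mul, zero_mul, Prod.mk.eta]
        rw [← Finset.sum_filter]
        have h3 : Finset.univ.filter (fun z => z ∈ D.P σ) = D.P σ := by
          ext z
          simp
        rw [h3]
        refine Finset.sum_congr rfl fun z _ => ?_
        congr 1
        rw [decide_eq_decide]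
        exact fam_meets _ _ _ _ _ _
      rw [h2]
      simp only [bt, f, g]
      ring
    have h1 := pair_error (n := n) C' f g p.1 p.2 ht hm hn hqt W hW (by
      intro w hw hl
      by_contra h0
      exact hp (Finset.mem_filter.2 ⟨Finset.mem_univ _, w, hw, hl, h0⟩))
      (ct t (D.query p.1 p.2)) (ct_dep _ _)
    have h2 : ∀ x y : AA n k q, D.bit (famX p.1 x) (famY p.2 y) =
        fun l => decide (bt C' f g p.1 p.2 l x y = 1) := fun x y => funext (hbit x y)
    simp only [h2]
    exact h1
  calc ((k : ℝ) ^ 2 - s * (q : ℝ) ^ 2) * (1 / 80) ≤ ((k : ℝ) ^ 2 - G.card) * (1 / 80) := by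
        apply mul_le_mul_of_nonneg_right _ (by norm_num)
        linarith
    _ = ∑ p : Fin k × Fin k, if p ∈ G then (0 : ℝ) else 1 / 80 := by
        rw [Finset.sum_ite]
        have h1 : Finset.univ.filter (fun p => ¬ p ∈ G) = Gᶜ := by
          ext p
          simp
        rw [h1, Finset.sum_const_zero, zero_add, Finset.sum_const, Finset.card_compl,
          nsmul_eq_mul, Fintype.card_prod, Fintype.card_fin]
        rw [Nat.cast_sub (by
          have := Finset.card_le_univ G
          simpa using this)]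
        push_cast
        ring
    _ ≤ _ := by
        refine Finset.sum_le_sum fun p _ => ?_
        by_cases hp : p ∈ G
        · rw [if_pos hp]
          exact EE_nonneg hinv0 hr1 fun x y => ind_nonneg _
        · rw [if_neg hp]
          exact herr p hp

/-- **Main theorem.** -/
theorem e_main (N t : ℕ) (ht : 1 ≤ t) : ∃ k u : ℕ, 400 * t * k ≤ N ∧ u = 1960000 * t ^ 2 + 200 * t + 2 ∧
    ∀ (c s : ℕ) (Ω : Type) [Fintype Ω] (p : Ω → ℝ) (D : Ω → EDS k u c),
      (∀ ω, (D ω).space ≤ s) → ESolves N p D t →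
      (N : ℝ) ^ 2 ≤ 10 ^ 14 * (t : ℝ) ^ 4 * ((s : ℝ) + 1) := by
  classical
  obtain ⟨m, hm⟩ : ∃ m : ℕ, m = 1400 * t := ⟨_, rfl⟩
  obtain ⟨n, hn⟩ : ∃ n : ℕ, n = m ^ 2 := ⟨_, rfl⟩
  obtain ⟨q, hq⟩ : ∃ q : ℕ, q = 100 * t := ⟨_, rfl⟩
  have ht' : (1 : ℝ) ≤ t := by exact_mod_cast ht
  obtain ⟨k, hk⟩ : ∃ k : ℕ, k = N / (4 * (q + 2)) := ⟨_, rfl⟩
  have hN1 : k * (4 * (q + 2)) ≤ N := by rw [hk]; exact Nat.div_mul_le_self _ _
  have hvu : vv n q = 1960000 * t ^ 2 + 200 * t + 2 := by
    unfold vv
    rw [hn, hm, hq]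
    ring
  refine ⟨k, vv n q, ?_, hvu, ?_⟩
  · refine le_trans ?_ hN1
    rw [hq]
    nlinarith
  intro c s Ω _ p D hs hD
  have hs0 : (0 : ℝ) ≤ s := by positivity
  have hn' : (n : ℝ) = 1960000 * (t : ℝ) ^ 2 := by
    rw [hn, hm]
    push_cast
    ring
  by_cases hNn : N < 4 * n
  · have h1 : (N : ℝ) ≤ 4 * n := by exact_mod_cast hNn.le
    rw [hn'] at h1
    calc (N : ℝ) ^ 2 ≤ (4 * (1960000 * (t : ℝ) ^ 2)) ^ 2 :=
          pow_le_pow_left₀ (by positivity) h1 2
      _ = 61465600000000 * (t : ℝ) ^ 4 * 1 := by ring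
      _ ≤ 10 ^ 14 * (t : ℝ) ^ 4 * ((s : ℝ) + 1) := by
          apply mul_le_mul _ (by linarith) (by norm_num) (by positivity)
          exact mul_le_mul_of_nonneg_right (by norm_num) (by positivity)
  · push Not at hNn
    have hqn : q + 2 ≤ n := by
      rw [hn, hm, hq]
      have h3 : (1400 * t) ^ 2 = 1960000 * t ^ 2 := by ring
      have h4 : t ≤ t ^ 2 := by nlinarith
      rw [h3]
      omega
    have hk1 : 1 ≤ k := by
      rw [hk]
      rw [Nat.one_le_div_iff (by omega)]
      omega
    have hsize : ∀ (i0 j0 : Fin k) (x y : AA n k q),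
        ∑ i, (famX i0 x i).card + ∑ j, (famY j0 y j).card ≤ N := by
      intro i0 j0 x y
      have h1 := sizeX i0 x
      have h2 := sizeY j0 y
      have h3 : k * (4 * (q + 2)) = 4 * (k * (q + 2)) := by ring
      omega
    have hN2 : N ≤ (k + 1) * (4 * (q + 2)) := by
      have := Nat.lt_div_mul_add (a := N) (b := 4 * (q + 2)) (by omega)
      rw [← hk] at this
      have h2 : (k + 1) * (4 * (q + 2)) = k * (4 * (q + 2)) + 4 * (q + 2) := by ring
      omega
    have hN2' : (N : ℝ) ≤ ((k : ℝ) + 1) * (4 * ((q : ℝ) + 2)) := by exact_mod_cast hN2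
    obtain ⟨hp, hp1, hcor⟩ := hD
    have hq1 : 1 ≤ q := by omega
    have hm2 : (2 : ℝ) ≤ m := by
      have : 2 ≤ m := by omega
      exact_mod_cast this
    have hinv0 : 0 ≤ 1 / (m : ℝ) := by positivity
    have hr1 : 0 ≤ 1 - 1 / (m : ℝ) := by
      have : 1 / (m : ℝ) ≤ 1 := by
        rw [div_le_one (by linarith)]
        linarith
      linarith
    -- wrong answers
    let wr : Ω → Fin k × Fin k → AA n k q → AA n k q → Prop := fun ω pr x y =>
      ¬ ((ct t ((D ω).query pr.1 pr.2)).out
        ((D ω).bit (famX pr.1 x) (famY pr.2 y)) = true ↔ ¬ conj x.1 y.1 = zero n)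
    have hpt : ∀ (pr : Fin k × Fin k) (x y : AA n k q),
        ∑ ω, p ω * ind (wr ω pr x y) ≤ 1 / 100 := by
      intro pr x y
      have h1 := hcor (famX pr.1 x) (famY pr.2 y) (hsize _ _ _ _) pr.1 pr.2
      have h0 := pair_iff pr x y
      let gd : Ω → Prop := fun ω => (((D ω).query pr.1 pr.2).out
          ((D ω).bit (famX pr.1 x) (famY pr.2 y)) = true ↔
            (famX pr.1 x pr.1 ∩ famY pr.2 y pr.2).Nonempty) ∧
          ((D ω).query pr.1 pr.2).probes ((D ω).bit (famX pr.1 x) (famY pr.2 y)) ≤ t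
      have h1' : (99 / 100 : ℝ) ≤ ∑ ω, p ω * ind (gd ω) := by
        refine h1.trans (le_of_eq ?_)
        rw [Finset.sum_filter]
        refine Finset.sum_congr rfl fun ω _ => ?_
        by_cases hg : gd ω
        · rw [if_pos hg, ind_true hg, mul_one]
        · rw [if_neg hg, ind_false hg, mul_zero]
      have h2 : ∀ ω, p ω * ind (wr ω pr x y) ≤ p ω - p ω * ind (gd ω) := by
        intro ω
        by_cases h : gd ω
        · have h3 : ¬ wr ω pr x y := by
            simp only [wr, not_not]
            rw [ct_out _ _ _ h.2, ← h0]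
            exact h.1
          rw [ind_false h3, ind_true h]
          simp
        · rw [ind_false h, mul_zero, sub_zero]
          exact mul_le_of_le_one_right (hp ω) (ind_le_one _)
      refine (Finset.sum_le_sum fun ω _ => h2 ω).trans ?_
      rw [Finset.sum_sub_distrib, hp1]
      linarith
    have hpair : ∀ pr : Fin k × Fin k, ∑ ω, p ω * EE (q := q) (1 / (m : ℝ))
        (fun x y : AA n k q => ind (wr ω pr x y)) ≤ 1 / 100 := by
      intro pr
      have e1 : ∑ ω, p ω * EE (q := q) (1 / (m : ℝ))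
          (fun x y : AA n k q => ind (wr ω pr x y)) =
          EE (1 / (m : ℝ)) (fun x y => ∑ ω, p ω * ind (wr ω pr x y)) := by
        rw [EE_sum]
        refine Finset.sum_congr rfl fun ω _ => ?_
        rw [EE_mul]
      rw [e1]
      refine (EE_mono hinv0 hr1 fun x y => hpt pr x y).trans ?_
      rw [EE_const hq1]
    have htot : ∑ pr : Fin k × Fin k, ∑ ω, p ω * EE (q := q) (1 / (m : ℝ))
        (fun x y : AA n k q => ind (wr ω pr x y)) ≤ (k : ℝ) ^ 2 * (1 / 100) := by
      refine (Finset.sum_le_sum fun pr _ => hpair pr).trans (le_of_eq ?_)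
      rw [Finset.sum_const, Finset.card_univ, Fintype.card_prod, Fintype.card_fin, nsmul_eq_mul]
      push_cast
      ring
    rw [Finset.sum_comm] at htot
    have hlow : ∀ ω, p ω * (((k : ℝ) ^ 2 - s * (q : ℝ) ^ 2) * (1 / 80)) ≤
        ∑ pr : Fin k × Fin k, p ω * EE (q := q) (1 / (m : ℝ))
        (fun x y : AA n k q => ind (wr ω pr x y)) := by
      intro ω
      rw [← Finset.mul_sum]
      exact mul_le_mul_of_nonneg_left
        (e_sum_error ht hm hn hq (D ω) (hs ω)) (hp ω)
    have hlow2 : ((k : ℝ) ^ 2 - s * (q : ℝ) ^ 2) * (1 / 80) ≤ (k : ℝ) ^ 2 * (1 / 100) := by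
      refine le_trans ?_ htot
      refine le_trans (le_of_eq ?_) (Finset.sum_le_sum fun ω _ => hlow ω)
      rw [← Finset.sum_mul, hp1, one_mul]
    have hk2 : (k : ℝ) ^ 2 ≤ 5 * (s * (q : ℝ) ^ 2) := by linarith
    have hk1' : (1 : ℝ) ≤ k := by exact_mod_cast hk1
    have hq' : (q : ℝ) = 100 * t := by rw [hq]; push_cast; ring
    have hN4 : (N : ℝ) ≤ 816 * (t : ℝ) * k := by
      refine hN2'.trans ?_
      rw [hq']
      have h1 : (k : ℝ) + 1 ≤ 2 * k := by linarith
      have h2 : 4 * (100 * (t : ℝ) + 2) ≤ 408 * t := by linarith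
      calc ((k : ℝ) + 1) * (4 * (100 * (t : ℝ) + 2)) ≤ 2 * k * (408 * t) :=
            mul_le_mul h1 h2 (by positivity) (by positivity)
        _ = _ := by ring
    calc (N : ℝ) ^ 2 ≤ (816 * (t : ℝ) * k) ^ 2 := pow_le_pow_left₀ (by positivity) hN4 2
      _ = 665856 * (t : ℝ) ^ 2 * (k : ℝ) ^ 2 := by ring
      _ ≤ 665856 * (t : ℝ) ^ 2 * (5 * (s * (q : ℝ) ^ 2)) :=
          mul_le_mul_of_nonneg_left hk2 (by positivity)
      _ = 33292800000 * (t : ℝ) ^ 4 * s := by rw [hq']; ring
      _ ≤ 10 ^ 14 * (t : ℝ) ^ 4 * s := by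
          apply mul_le_mul_of_nonneg_right _ hs0
          apply mul_le_mul_of_nonneg_right _ (by positivity)
          norm_num
      _ ≤ _ := mul_le_mul_of_nonneg_left (by linarith) (by positivity)

end Pool.Agent.N631.SX
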