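import Pool.Agent.N631.SX.EAmp

/-!
# Emptiness queries, cells: main theorem (helper631)
-/

set_option autoImplicit false

namespace Pool.Agent.N631.SX

open Pool.Agent.R563

theorem esim_delta {k u c r d N t : ℕ} {Γ : Type} {Ω : Type} [Fintype Ω] (p : Ω → ℝ)
    (D : Ω → ECell k u c r d Γ) {δ : ℝ} (hD : ECellSolves N p D t δ) :
    EDelta N p (fun ω => esimDS (D ω)) ((r + d) * t) δ := by
  classical
  obtain ⟨hp, hp1, hcor⟩ := hD
  refine ⟨hp, hp1, ?_⟩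
  intro X Y hXY i j
  refine (hcor X Y hXY i j).trans ?_
  refine Finset.sum_le_sum_of_subset_of_nonneg ?_ fun ω _ _ => hp ω
  intro ω hω
  rw [Finset.mem_filter] at hω ⊢
  refine ⟨Finset.mem_univ _, ?_, ?_⟩
  · rw [esimDS_out]
    exact hω.2.1
  · rw [esimDS_probes]
    exact Nat.mul_le_mul_left _ hω.2.2

/-- **Main theorem for cells.** -/
theorem e_main3 (N t r d : ℕ) (ht : 1 ≤ t) (hr : 1 ≤ r) (δ : ℝ) (hδ : 0 < δ) (hδ2 : δ ≤ 1 / 2) :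
    ∃ k u : ℕ, 400 * ((r + d) * t) * k ≤ N ∧ δ ^ 4 * (u : ℝ) ≤ 10 ^ 10 * (((r : ℝ) + d) * t) ^ 2 ∧
      ∀ (c s : ℕ) (Γ Ω : Type) [Fintype Ω] (p : Ω → ℝ) (D : Ω → ECell k u c r d Γ),
        (∀ ω, (D ω).space ≤ s) → ECellSolves N p D t δ →
        δ ^ 10 * (N : ℝ) ^ 2 ≤ 10 ^ 22 * (((r : ℝ) + d) * t) ^ 4 * (r * s + 1) := by
  classical
  obtain ⟨R, hR⟩ : ∃ R : ℕ, R = ⌈25 / δ ^ 2⌉₊ := ⟨_, rfl⟩
  have hR1 : 25 / δ ^ 2 ≤ (R : ℝ) := by rw [hR]; exact Nat.le_ceil _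
  have hδ3 : 0 < δ ^ 2 := by positivity
  have hR2 : (R : ℝ) ≤ 26 / δ ^ 2 := by
    have h1 := Nat.ceil_lt_add_one (show (0 : ℝ) ≤ 25 / δ ^ 2 by positivity)
    rw [← hR] at h1
    have h2 : (1 : ℝ) ≤ 1 / δ ^ 2 := by
      rw [le_div_iff₀ hδ3]
      nlinarith
    have h3 : 26 / δ ^ 2 = 25 / δ ^ 2 + 1 / δ ^ 2 := by ring
    linarith
  have hRpos : 1 ≤ R := by
    have : (0 : ℝ) < R := lt_of_lt_of_le (by positivity) hR1
    have : 0 < R := by exact_mod_cast this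
    omega
  have hR4 : δ ^ 2 * (R : ℝ) ≤ 26 := by
    rw [le_div_iff₀ hδ3] at hR2
    linarith
  have hR3 : (1 : ℝ) ≤ R := by exact_mod_cast hRpos
  obtain ⟨T, hT⟩ : ∃ T : ℕ, T = (r + d) * t := ⟨_, rfl⟩
  have hT1 : 1 ≤ T := by rw [hT]; exact Nat.one_le_iff_ne_zero.2 (by positivity)
  have hT1' : (1 : ℝ) ≤ T := by exact_mod_cast hT1
  have hTr : ((r : ℝ) + d) * t = T := by rw [hT]; push_cast; ring
  obtain ⟨k, u, hk, hu, hmain⟩ := e_main N (R * T) (Nat.one_le_iff_ne_zero.2 (by positivity))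
  rw [hTr]
  refine ⟨k, u, ?_, ?_, ?_⟩
  · rw [← hT]
    refine le_trans ?_ hk
    exact Nat.mul_le_mul_right k (Nat.mul_le_mul_left 400 (Nat.le_mul_of_pos_left T (by omega)))
  · have hu2 : (u : ℝ) ≤ 2000000 * ((R : ℝ) * T) ^ 2 := by
      rw [hu]
      push_cast
      have : (1 : ℝ) ≤ (R : ℝ) * T := by nlinarith
      nlinarith
    have h1 : (δ ^ 2 * (R : ℝ)) ^ 2 ≤ 26 ^ 2 := pow_le_pow_left₀ (by positivity) hR4 2
    calc δ ^ 4 * (u : ℝ) ≤ δ ^ 4 * (2000000 * ((R : ℝ) * T) ^ 2) :=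
          mul_le_mul_of_nonneg_left hu2 (by positivity)
      _ = 2000000 * ((δ ^ 2 * (R : ℝ)) ^ 2 * (T : ℝ) ^ 2) := by ring
      _ ≤ 2000000 * (26 ^ 2 * (T : ℝ) ^ 2) :=
          mul_le_mul_of_nonneg_left (mul_le_mul_of_nonneg_right h1 (by positivity)) (by norm_num)
      _ ≤ 10 ^ 10 * (T : ℝ) ^ 2 := by nlinarith [sq_nonneg (T : ℝ)]
  · intro c s Γ Ω _ p D hs hD
    have hs0 : (0 : ℝ) ≤ s := by positivity
    have hr0 : (0 : ℝ) ≤ r := by positivity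
    have hE := esim_delta p D hD
    rw [← hT] at hE
    have hsp : ∀ ω : Fin R → Ω, (eampDS T R fun i => esimDS (D (ω i))).space ≤ R * (r * s) :=
      fun ω => eampDS_space T R (fun i => esimDS (D (ω i)))
        fun i => esimDS_space (D (ω i)) (hs (ω i))
    have hsv : ESolves N (fun ω : Fin R → Ω => ∏ l, p (ω l))
        (fun ω => eampDS T R fun i => esimDS (D (ω i))) (R * T) :=
      eamp_solves p (fun ω => esimDS (D ω)) hδ hR1 hE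
    have h := hmain (R * Fintype.card (Idx c r d)) (R * (r * s)) (Fin R → Ω)
      (fun ω => ∏ l, p (ω l)) (fun ω => eampDS T R fun i => esimDS (D (ω i))) hsp hsv
    push_cast at h
    have h1 : (R : ℝ) * (r * s) + 1 ≤ R * (r * s + 1) := by nlinarith
    have h2 : (N : ℝ) ^ 2 ≤ 10 ^ 14 * (R : ℝ) ^ 5 * ((T : ℝ) ^ 4 * (r * s + 1)) := by
      refine h.trans ?_
      calc 10 ^ 14 * ((R : ℝ) * T) ^ 4 * (R * (r * s) + 1) ≤
            10 ^ 14 * ((R : ℝ) * T) ^ 4 * (R * (r * s + 1)) :=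
            mul_le_mul_of_nonneg_left h1 (by positivity)
        _ = _ := by ring
    have h3 : δ ^ 10 * (R : ℝ) ^ 5 ≤ 26 ^ 5 := by
      calc δ ^ 10 * (R : ℝ) ^ 5 = (δ ^ 2 * R) ^ 5 := by ring
        _ ≤ 26 ^ 5 := pow_le_pow_left₀ (by positivity) hR4 5
    have h4 : (0 : ℝ) ≤ (T : ℝ) ^ 4 * (r * s + 1) := by positivity
    calc δ ^ 10 * (N : ℝ) ^ 2 ≤ δ ^ 10 * (10 ^ 14 * (R : ℝ) ^ 5 * ((T : ℝ) ^ 4 * (r * s + 1))) :=
          mul_le_mul_of_nonneg_left h2 (by positivity)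
      _ = 10 ^ 14 * (δ ^ 10 * (R : ℝ) ^ 5) * ((T : ℝ) ^ 4 * (r * s + 1)) := by ring
      _ ≤ 10 ^ 14 * 26 ^ 5 * ((T : ℝ) ^ 4 * (r * s + 1)) := by
          apply mul_le_mul_of_nonneg_right _ h4
          exact mul_le_mul_of_nonneg_left h3 (by positivity)
      _ ≤ 10 ^ 22 * ((T : ℝ) ^ 4 * (r * s + 1)) := mul_le_mul_of_nonneg_right (by norm_num) h4
      _ = _ := by ring

end Pool.Agent.N631.SX
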