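import Pool.Agent.N631.LX.Mask

/-!
# Exclusive ors of many answers have small discrepancy (helper631)
-/

set_option autoImplicit false

namespace Pool.Agent.N631.SX

open Pool.Agent.N631.LX

variable {k q : ℕ}

/-- the data of one set -/
abbrev C (q : ℕ) := (Option (Fin q) → Bool) × Fin q

/-- the data of a family of sets -/
abbrev U (k q : ℕ) := Fin k → C q

/-- the dense part of the sets -/
def pt (i0 : Fin k) (u : U k q) (i : Fin k) (o : Option (Fin q)) : Bool :=
  if i = i0 ∧ o = none then false else (u i).1 o

/-- the position of the single element -/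
def loc (i0 : Fin k) (u : U k q) (i : Fin k) : Option (Fin q) :=
  if i = i0 then none else some (u i).2

/-- do the two sets meet? -/
def zz (i0 j0 : Fin k) (u w : U k q) (i j : Fin k) : Bool :=
  pt i0 u i (loc j0 w j) || pt j0 w j (loc i0 u i)

theorem zz_swap (i0 j0 : Fin k) (u w : U k q) (i j : Fin k) :
    zz i0 j0 u w i j = zz j0 i0 w u j i := by
  unfold zz
  rw [Bool.or_comm]

theorem zz_self (i0 j0 : Fin k) (u w : U k q) : zz i0 j0 u w i0 j0 = false := by
  simp [zz, pt, loc]

/-- the sign of the exclusive or in the column `j` -/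
noncomputable def col (c : Fin k → Fin k → ZMod 2) (i0 j0 : Fin k) (a : Fin k → Fin q)
    (x : Fin k → Option (Fin q) → Bool) (j : Fin k) (p : C q) : ℝ :=
  ∏ i, chi (c i j * b2 (zz i0 j0 (fun i => (x i, a i)) (fun _ => p) i j))

theorem col_abs (c : Fin k → Fin k → ZMod 2) (i0 j0 : Fin k) (a : Fin k → Fin q)
    (x : Fin k → Option (Fin q) → Bool) (j : Fin k) (p : C q) : |col c i0 j0 a x j p| = 1 := by
  unfold col
  rw [Finset.abs_prod]
  exact Finset.prod_eq_one fun i _ => chi_abs _

theorem ker_col (c : Fin k → Fin k → ZMod 2) (i0 j0 : Fin k) (a : Fin k → Fin q)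
    (x : Fin k → Option (Fin q) → Bool) (w : U k q) :
    chi (∑ i, ∑ j, c i j * b2 (zz i0 j0 (fun i => (x i, a i)) w i j)) =
      ∏ j, col c i0 j0 a x j (w j) := by
  rw [Finset.sum_comm, chi_sum]
  refine Finset.prod_congr rfl fun j _ => ?_
  rw [chi_sum]
  rfl

/-- the relevant combination of the changes in the column `j` -/
def rr (c : Fin k → Fin k → ZMod 2) (i0 : Fin k) (a : Fin k → Fin q) (j : Fin k)
    (o : Option (Fin q)) (x x' : Fin k → Option (Fin q) → Bool) (β : Fin q) : ZMod 2 :=
  ∑ i, if (if i = i0 then none else some (a i)) = o then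
    c i j * (b2 (x i (some β)) + b2 (x' i (some β))) else 0

theorem b2_or (s t : Bool) : b2 (s || t) = b2 s + b2 t + b2 s * b2 t := by
  cases s <;> cases t <;> simp [b2]
  decide

theorem z1 (c s s' t : ZMod 2) : c * (s + t + s * t) + c * (s' + t + s' * t) =
    c * (s + s') * (1 + t) := by
  revert c s s' t
  decide

theorem z3 (c t : ZMod 2) : c * (1 + (1 + t)) = c * (1 + t) + c := by
  revert c t
  decide

theorem b2_not (t : Bool) : b2 (!t) = 1 + b2 t := by
  cases t <;> simp [b2]
  decide

/-- the product of the two signs of a column -/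
theorem col_mul (c : Fin k → Fin k → ZMod 2) {i0 j0 : Fin k} (a : Fin k → Fin q)
    (x x' : Fin k → Option (Fin q) → Bool) {j : Fin k} (hj : j ≠ j0) (y : Option (Fin q) → Bool)
    (β : Fin q) :
    col c i0 j0 a x j (y, β) * col c i0 j0 a x' j (y, β) =
      chi (∑ i, c i j * (b2 (x i (some β)) + b2 (x' i (some β))) *
        (1 + b2 (y (if i = i0 then none else some (a i))))) := by
  unfold col
  rw [← Finset.prod_mul_distrib, chi_sum]
  refine Finset.prod_congr rfl fun i _ => ?_
  rw [← chi_add]
  congr 1
  simp only [zz, pt, loc, hj, if_false, false_and, b2_or, reduceCtorEq, and_false]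
  exact z1 _ _ _ _

theorem col_flip (c : Fin k → Fin k → ZMod 2) (i0 : Fin k) (a : Fin k → Fin q)
    (x x' : Fin k → Option (Fin q) → Bool) (j : Fin k) (o : Option (Fin q)) (β : Fin q)
    (h : rr c i0 a j o x x' β ≠ 0) :
    ∑ y : Option (Fin q) → Bool, chi (∑ i, c i j * (b2 (x i (some β)) + b2 (x' i (some β))) *
        (1 + b2 (y (if i = i0 then none else some (a i))))) = 0 := by
  classical
  have h1 : rr c i0 a j o x x' β = 1 := by
    rcases zmod2_cases (rr c i0 a j o x x' β) with h2 | h2
    · exact absurd h2 h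
    · exact h2
  let Φ : (Option (Fin q) → Bool) → ℝ := fun y =>
    chi (∑ i, c i j * (b2 (x i (some β)) + b2 (x' i (some β))) *
        (1 + b2 (y (if i = i0 then none else some (a i)))))
  let fl : (Option (Fin q) → Bool) → (Option (Fin q) → Bool) :=
    fun y => Function.update y o (!(y o))
  have hfl : Function.Involutive fl := by
    intro y
    funext o'
    simp only [fl]
    by_cases ho : o' = o
    · subst ho
      simp
    · simp [Function.update_of_ne ho]
  have h2 : ∀ y, Φ (fl y) = - Φ y := by
    intro y
    have h3 : (∑ i, c i j * (b2 (x i (some β)) + b2 (x' i (some β))) *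
        (1 + b2 (fl y (if i = i0 then none else some (a i))))) =
        (∑ i, c i j * (b2 (x i (some β)) + b2 (x' i (some β))) *
        (1 + b2 (y (if i = i0 then none else some (a i))))) + rr c i0 a j o x x' β := by
      unfold rr
      rw [← Finset.sum_add_distrib]
      refine Finset.sum_congr rfl fun i _ => ?_
      by_cases ho : (if i = i0 then none else some (a i)) = o
      · rw [if_pos ho, ho]
        simp only [fl, Function.update_self, b2_not]
        exact z3 _ _
      · rw [if_neg ho, add_zero]
        simp only [fl]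
        rw [Function.update_of_ne ho]
    simp only [Φ]
    rw [h3, chi_add, h1, show chi 1 = -1 by simp [chi]]
    ring
  have h4 : ∑ y, Φ (fl y) = ∑ y, Φ y :=
    Fintype.sum_bijective fl hfl.bijective _ _ fun y => rfl
  simp only [h2, Finset.sum_neg_distrib] at h4
  have : ∑ y, Φ y = 0 := by linarith
  exact this

/-- the number of good positions, normalised -/
noncomputable def tt (c : Fin k → Fin k → ZMod 2) (i0 : Fin k) (a : Fin k → Fin q) (j : Fin k)
    (o : Option (Fin q)) (x x' : Fin k → Option (Fin q) → Bool) : ℝ :=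
  ((Finset.univ.filter fun β : Fin q => rr c i0 a j o x x' β = 0).card : ℝ) / q

theorem col_sum (c : Fin k → Fin k → ZMod 2) {i0 j0 : Fin k} (a : Fin k → Fin q)
    (x x' : Fin k → Option (Fin q) → Bool) {j : Fin k} (hj : j ≠ j0) (o : Option (Fin q))
    (hq : 1 ≤ q) :
    |∑ p : C q, col c i0 j0 a x j p * col c i0 j0 a x' j p| ≤
      (Fintype.card (C q) : ℝ) * tt c i0 a j o x x' := by
  classical
  rw [Fintype.sum_prod_type_right]
  refine (Finset.abs_sum_le_sum_abs _ _).trans ?_
  have h1 : ∀ β : Fin q, |∑ y : Option (Fin q) → Bool,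
      col c i0 j0 a x j (y, β) * col c i0 j0 a x' j (y, β)| ≤
      if rr c i0 a j o x x' β = 0 then (Fintype.card (Option (Fin q) → Bool) : ℝ) else 0 := by
    intro β
    by_cases h : rr c i0 a j o x x' β = 0
    · rw [if_pos h]
      refine (Finset.abs_sum_le_sum_abs _ _).trans ?_
      rw [Finset.sum_congr rfl fun y _ => by rw [abs_mul, col_abs, col_abs, mul_one]]
      simp
    · rw [if_neg h]
      rw [Finset.sum_congr rfl fun y _ => col_mul c a x x' hj y β, col_flip c i0 a x x' j o β h,
        abs_zero]
  refine (Finset.sum_le_sum fun β _ => h1 β).trans ?_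
  rw [← Finset.sum_filter, Finset.sum_const, nsmul_eq_mul]
  unfold tt
  rw [Fintype.card_prod, Fintype.card_fin]
  have hq' : (0 : ℝ) < q := by exact_mod_cast hq
  push_cast
  apply le_of_eq
  field_simp

end Pool.Agent.N631.SX
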