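import Pool.Agent.N631.SX.Heavy

/-!
# Exclusive ors of many answers have small discrepancy, part 2 (helper631)
-/

set_option autoImplicit false

namespace Pool.Agent.N631.SX

open Pool.Agent.N631.LX

variable {k q : ℕ}

theorem upd {V : Type} [Fintype V] (i : Fin k) (Ψ : (Fin k → V) → ℝ) :
    ∑ x, ∑ v, Ψ (Function.update x i v) = (Fintype.card V : ℝ) * ∑ x, Ψ x := by
  classical
  rw [← Fintype.sum_prod_type' (f := fun (x : Fin k → V) v => Ψ (Function.update x i v))]
  let fl : ((Fin k → V) × V) → ((Fin k → V) × V) :=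
    fun p => (Function.update p.1 i p.2, p.1 i)
  have hfl : Function.Involutive fl := by
    rintro ⟨x, v⟩
    simp [fl]
  have h1 : ∑ p : (Fin k → V) × V, Ψ (Function.update p.1 i p.2) =
      ∑ p : (Fin k → V) × V, Ψ p.1 :=
    Fintype.sum_bijective fl hfl.bijective _ _ fun p => rfl
  rw [h1, Fintype.sum_prod_type]
  simp only [Finset.sum_const, Finset.card_univ, nsmul_eq_mul]
  rw [Finset.mul_sum]

theorem pow_bd {m : ℕ} (hm : m ≤ q) (hq : 1 ≤ q) :
    ((m : ℝ) / q) ^ q ≤ (2 / 5) ^ (q - m) := by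
  have hq' : (0 : ℝ) < q := by exact_mod_cast hq
  have h1 : ((m : ℝ) / q) = 1 - ((q - m : ℕ) : ℝ) / q := by
    rw [Nat.cast_sub hm]
    field_simp
    ring
  have h2 : ((q - m : ℕ) : ℝ) ≤ q := by exact_mod_cast Nat.sub_le _ _
  have h3 := Real.one_sub_div_pow_le_exp_neg h2
  rw [h1]
  refine h3.trans ?_
  have h4 : Real.exp (-1) ≤ 2 / 5 := by
    have := Real.exp_neg_one_lt_d9
    linarith
  calc Real.exp (-((q - m : ℕ) : ℝ)) = Real.exp (-1) ^ (q - m) := by
        rw [← Real.exp_nat_mul]
        congr 1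
        ring
    _ ≤ _ := pow_le_pow_left₀ (Real.exp_nonneg _) h4 _

/-- `1` or `2 / 5` -/
noncomputable def ph (a : ZMod 2) : ℝ := if a = 0 then 1 else 2 / 5

theorem ph_sum (a : ZMod 2) : ph (b2 false + a) + ph (b2 true + a) = 7 / 5 := by
  unfold ph b2
  rcases zmod2_cases a with rfl | rfl
  · simp
    norm_num
  · have : (1 + 1 : ZMod 2) = 0 := by decide
    simp [this]
    norm_num

theorem tt_pow_le (c : Fin k → Fin k → ZMod 2) (i0 : Fin k) (a : Fin k → Fin q) (j : Fin k)
    (o : Option (Fin q)) (x x' : Fin k → Option (Fin q) → Bool) (hq : 1 ≤ q) :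
    tt c i0 a j o x x' ^ q ≤ ∏ β, ph (rr c i0 a j o x x' β) := by
  classical
  unfold tt
  have h1 : (Finset.univ.filter fun β : Fin q => rr c i0 a j o x x' β = 0).card ≤ q := by
    have := Finset.card_filter_le (Finset.univ : Finset (Fin q))
      (fun β => rr c i0 a j o x x' β = 0)
    simpa using this
  refine (pow_bd h1 hq).trans (le_of_eq ?_)
  have h2 : ∏ β, ph (rr c i0 a j o x x' β) =
      ∏ β ∈ Finset.univ.filter (fun β => ¬ rr c i0 a j o x x' β = 0), (2 / 5 : ℝ) := by
    rw [Finset.prod_filter]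
    refine Finset.prod_congr rfl fun β _ => ?_
    unfold ph
    by_cases h : rr c i0 a j o x x' β = 0
    · simp [h]
    · simp [h]
  rw [h2, Finset.prod_const]
  congr 1
  have h3 := Finset.card_filter_add_card_filter_not (s := (Finset.univ : Finset (Fin q)))
    (fun β => rr c i0 a j o x x' β = 0)
  rw [Finset.card_univ, Fintype.card_fin] at h3
  omega

theorem sum_tt (c : Fin k → Fin k → ZMod 2) (i0 : Fin k) (a : Fin k → Fin q) {i j : Fin k}
    (hc : c i j ≠ 0) (x' : Fin k → Option (Fin q) → Bool) (hq : 1 ≤ q) :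
    ∑ x, tt c i0 a j (if i = i0 then none else some (a i)) x x' ^ q ≤
      (Fintype.card (Fin k → Option (Fin q) → Bool) : ℝ) * (7 / 10) ^ q := by
  classical
  obtain ⟨o, ho⟩ : ∃ o, o = (if i = i0 then none else some (a i)) := ⟨_, rfl⟩
  rw [← ho]
  refine (Finset.sum_le_sum fun x _ => tt_pow_le c i0 a j o x x' hq).trans ?_
  have h1 := upd i (fun x : Fin k → Option (Fin q) → Bool => ∏ β, ph (rr c i0 a j o x x' β))
  have hc1 : c i j = 1 := by
    rcases zmod2_cases (c i j) with h | h
    · exact absurd h hc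
    · exact h
  have h2 : ∀ x : Fin k → Option (Fin q) → Bool, ∑ v : Option (Fin q) → Bool,
      ∏ β, ph (rr c i0 a j o (Function.update x i v) x' β) =
      (Fintype.card (Option (Fin q) → Bool) : ℝ) * (7 / 10) ^ q := by
    intro x
    let R : Fin q → ZMod 2 := fun β => rr c i0 a j o (Function.update x i (fun _ => false)) x' β
    have h3 : ∀ (v : Option (Fin q) → Bool) (β : Fin q),
        rr c i0 a j o (Function.update x i v) x' β = b2 (v (some β)) + R β := by
      intro v β
      simp only [R, rr]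
      rw [← Finset.add_sum_erase _ _ (Finset.mem_univ i),
        ← Finset.add_sum_erase _ _ (Finset.mem_univ i), ← add_assoc]
      congr 1
      · rw [if_pos ho.symm, if_pos ho.symm, hc1]
        simp only [Function.update_self]
        simp only [b2, Bool.false_eq_true, if_false]
        ring
      · refine Finset.sum_congr rfl fun i' hi' => ?_
        have : i' ≠ i := Finset.ne_of_mem_erase hi'
        rw [Function.update_of_ne this, Function.update_of_ne this]
    simp only [h3]
    let ψ : Option (Fin q) → Bool → ℝ := fun o' b =>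
      match o' with
      | none => 1
      | some β => ph (b2 b + R β)
    have h4 : ∀ v : Option (Fin q) → Bool, ∏ β, ph (b2 (v (some β)) + R β) =
        ∏ o', ψ o' (v o') := by
      intro v
      rw [Fintype.prod_option]
      simp [ψ]
    simp only [h4]
    have h5 := Finset.prod_univ_sum (fun _ : Option (Fin q) => (Finset.univ : Finset Bool))
      (fun o' b => ψ o' b)
    rw [Fintype.piFinset_univ] at h5
    rw [← h5, Fintype.prod_option]
    have h6 : ∑ b : Bool, ψ none b = 2 := by simp [ψ]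
    have h7 : ∀ β : Fin q, ∑ b : Bool, ψ (some β) b = 7 / 5 := by
      intro β
      rw [Fintype.sum_bool, add_comm]
      exact ph_sum (R β)
    simp only [h6, h7, Finset.prod_const, Finset.card_univ, Fintype.card_fin]
    rw [Fintype.card_fun, Fintype.card_bool, Fintype.card_option, Fintype.card_fin]
    push_cast
    rw [pow_succ, mul_comm ((2 : ℝ) ^ q) 2, mul_assoc, ← mul_pow]
    norm_num
  simp only [h2] at h1
  rw [Finset.sum_const, Finset.card_univ, nsmul_eq_mul] at h1
  have h3 : (0 : ℝ) < Fintype.card (Option (Fin q) → Bool) := by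
    exact_mod_cast Fintype.card_pos
  have h4 : (Fintype.card (Option (Fin q) → Bool) : ℝ) *
      ∑ x, ∏ β, ph (rr c i0 a j o x x' β) = (Fintype.card (Option (Fin q) → Bool) : ℝ) *
      ((Fintype.card (Fin k → Option (Fin q) → Bool) : ℝ) * (7 / 10) ^ q) := by
    rw [← h1]
    ring
  exact (mul_left_cancel₀ h3.ne' h4).le

theorem amgm (J : Finset (Fin k)) (hJ : J.card = q) (hq : 1 ≤ q) (t : Fin k → ℝ)
    (ht : ∀ j, 0 ≤ t j) : ∏ j ∈ J, t j ≤ (1 / q : ℝ) * ∑ j ∈ J, t j ^ q := by
  have hq' : (0 : ℝ) < q := by exact_mod_cast hq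
  have h := Real.geom_mean_le_arith_mean_weighted J (fun _ => (1 / q : ℝ)) (fun j => t j ^ q)
    (fun _ _ => by positivity) (by
      rw [Finset.sum_const, hJ, nsmul_eq_mul]
      field_simp) (fun j _ => pow_nonneg (ht j) _)
  have h1 : ∀ j ∈ J, (t j ^ q) ^ (1 / q : ℝ) = t j := by
    intro j _
    rw [one_div, Real.pow_rpow_inv_natCast (ht j) (by omega)]
  rw [Finset.prod_congr rfl h1] at h
  rw [Finset.mul_sum]
  exact h

theorem tt_nonneg (c : Fin k → Fin k → ZMod 2) (i0 : Fin k) (a : Fin k → Fin q) (j : Fin k)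
    (o : Option (Fin q)) (x x' : Fin k → Option (Fin q) → Bool) : 0 ≤ tt c i0 a j o x x' := by
  unfold tt
  positivity

/-- the columns which contain an entry -/
noncomputable def cols (c : Fin k → Fin k → ZMod 2) (j0 : Fin k) : Finset (Fin k) :=
  open Classical in Finset.univ.filter fun j => j ≠ j0 ∧ ∃ i, c i j ≠ 0

/-- correlation of the pairs of signs -/
theorem pair_sum (c : Fin k → Fin k → ZMod 2) (i0 j0 : Fin k) (a : Fin k → Fin q) (hq : 1 ≤ q)
    (hc : q ≤ (cols c j0).card) :
    ∑ x, ∑ x', |∑ w : U k q, (∏ j, col c i0 j0 a x j (w j)) * ∏ j, col c i0 j0 a x' j (w j)| ≤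
      (Fintype.card (U k q) : ℝ) * (Fintype.card (Fin k → Option (Fin q) → Bool) : ℝ) ^ 2 *
        (7 / 10) ^ q := by
  classical
  obtain ⟨J, hJc, hJ⟩ := Finset.exists_subset_card_eq hc
  have hrow : ∀ j, ∃ i, j ∈ J → c i j ≠ 0 := by
    intro j
    by_cases hj : j ∈ J
    · obtain ⟨-, i, hi⟩ := (Finset.mem_filter.1 (hJc hj)).2
      exact ⟨i, fun _ => hi⟩
    · exact ⟨j, fun h => absurd h hj⟩
  choose ro hro using hrow
  have hj0 : ∀ j ∈ J, j ≠ j0 := fun j hj => (Finset.mem_filter.1 (hJc hj)).2.1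
  let NC : ℝ := Fintype.card (C q)
  have hNC : 0 ≤ NC := by positivity
  let o : Fin k → Option (Fin q) := fun j => if ro j = i0 then none else some (a (ro j))
  have h1 : ∀ x x', |∑ w : U k q, (∏ j, col c i0 j0 a x j (w j)) *
      ∏ j, col c i0 j0 a x' j (w j)| ≤ NC ^ k * ∏ j ∈ J, tt c i0 a j (o j) x x' := by
    intro x x'
    have h2 : ∑ w : U k q, (∏ j, col c i0 j0 a x j (w j)) * ∏ j, col c i0 j0 a x' j (w j) =
        ∏ j, ∑ p : C q, col c i0 j0 a x j p * col c i0 j0 a x' j p := by
      have h5 := Finset.prod_univ_sum (fun _ : Fin k => (Finset.univ : Finset (C q)))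
        (fun j p => col c i0 j0 a x j p * col c i0 j0 a x' j p)
      rw [Fintype.piFinset_univ] at h5
      rw [h5]
      refine Finset.sum_congr rfl fun w _ => ?_
      rw [Finset.prod_mul_distrib]
    rw [h2, Finset.abs_prod]
    have h3 : ∀ j, |∑ p : C q, col c i0 j0 a x j p * col c i0 j0 a x' j p| ≤
        NC * (if j ∈ J then tt c i0 a j (o j) x x' else 1) := by
      intro j
      by_cases hj : j ∈ J
      · rw [if_pos hj]
        exact col_sum c a x x' (hj0 j hj) (o j) hq
      · rw [if_neg hj, mul_one]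
        refine (Finset.abs_sum_le_sum_abs _ _).trans ?_
        rw [Finset.sum_congr rfl fun y _ => by rw [abs_mul, col_abs, col_abs, mul_one]]
        simp [NC]
    refine (Finset.prod_le_prod (fun j _ => abs_nonneg _) fun j _ => h3 j).trans (le_of_eq ?_)
    rw [Finset.prod_mul_distrib, Finset.prod_const, Finset.card_univ, Fintype.card_fin]
    congr 1
    rw [Finset.prod_ite_mem, Finset.univ_inter]
  have h2 : ∀ x x', ∏ j ∈ J, tt c i0 a j (o j) x x' ≤
      (1 / q : ℝ) * ∑ j ∈ J, tt c i0 a j (o j) x x' ^ q :=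
    fun x x' => amgm J hJ hq _ fun j => tt_nonneg _ _ _ _ _ _ _
  have hcard : (Fintype.card (U k q) : ℝ) = NC ^ k := by
    simp [U, NC, Fintype.card_pi]
  have hq' : (0 : ℝ) < q := by exact_mod_cast hq
  calc ∑ x, ∑ x', |∑ w : U k q, (∏ j, col c i0 j0 a x j (w j)) * ∏ j, col c i0 j0 a x' j (w j)|
      ≤ ∑ x, ∑ x', NC ^ k * ((1 / q : ℝ) * ∑ j ∈ J, tt c i0 a j (o j) x x' ^ q) :=
        Finset.sum_le_sum fun x _ => Finset.sum_le_sum fun x' _ => (h1 x x').trans
          (mul_le_mul_of_nonneg_left (h2 x x') (pow_nonneg hNC _))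
    _ = NC ^ k * ((1 / q : ℝ) * ∑ j ∈ J, ∑ x', ∑ x, tt c i0 a j (o j) x x' ^ q) := by
        simp only [← Finset.mul_sum]
        congr 2
        rw [Finset.sum_comm]
        rw [Finset.sum_congr rfl fun x' _ => Finset.sum_comm]
        rw [Finset.sum_comm]
    _ ≤ NC ^ k * ((1 / q : ℝ) * ∑ _j ∈ J, ∑ _x' : Fin k → Option (Fin q) → Bool,
        (Fintype.card (Fin k → Option (Fin q) → Bool) : ℝ) * (7 / 10) ^ q) := by
        apply mul_le_mul_of_nonneg_left _ (pow_nonneg hNC _)
        apply mul_le_mul_of_nonneg_left _ (by positivity)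
        exact Finset.sum_le_sum fun j hj => Finset.sum_le_sum fun x' _ =>
          sum_tt c i0 a (hro j hj) x' hq
    _ = _ := by
        rw [hcard]
        simp only [Finset.sum_const, Finset.card_univ, nsmul_eq_mul, hJ]
        field_simp

end Pool.Agent.N631.SX
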