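import Pool.Agent.N631.SX.Heavy2

/-!
# Exclusive ors of many answers have small discrepancy, part 3 (helper631)
-/

set_option autoImplicit false

namespace Pool.Agent.N631.SX

open Pool.Agent.N631.LX

variable {k q : ℕ}

/-- Cauchy-Schwarz -/
theorem cs {X W : Type} [Fintype X] [Fintype W] (F : X → ℝ) (G : W → ℝ) (K : X → W → ℝ)
    (hF : ∀ x, |F x| ≤ 1) (hG : ∀ w, |G w| ≤ 1) :
    (∑ x, ∑ w, F x * G w * K x w) ^ 2 ≤
      (Fintype.card W : ℝ) * ∑ x, ∑ x', |∑ w, K x w * K x' w| := by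
  have e1 : ∑ x, ∑ w, F x * G w * K x w = ∑ w, G w * ∑ x, F x * K x w := by
    rw [Finset.sum_comm]
    refine Finset.sum_congr rfl fun w _ => ?_
    rw [Finset.mul_sum]
    refine Finset.sum_congr rfl fun x _ => ?_
    ring
  rw [e1]
  refine (Finset.sum_mul_sq_le_sq_mul_sq Finset.univ G (fun w => ∑ x, F x * K x w)).trans ?_
  have h1 : ∑ w, G w ^ 2 ≤ (Fintype.card W : ℝ) := by
    calc ∑ w, G w ^ 2 ≤ ∑ _w : W, (1 : ℝ) := by
          refine Finset.sum_le_sum fun w _ => ?_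
          have := hG w
          rw [← sq_abs]
          nlinarith [abs_nonneg (G w)]
      _ = _ := by simp
  have h2 : ∑ w, (∑ x, F x * K x w) ^ 2 ≤ ∑ x, ∑ x', |∑ w, K x w * K x' w| := by
    have e2 : ∑ w, (∑ x, F x * K x w) ^ 2 = ∑ x, ∑ x', F x * F x' * ∑ w, K x w * K x' w := by
      have e3 : ∀ w, (∑ x, F x * K x w) ^ 2 = ∑ x, ∑ x', F x * F x' * (K x w * K x' w) := by
        intro w
        rw [sq, Finset.sum_mul_sum]
        refine Finset.sum_congr rfl fun x _ => ?_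
        refine Finset.sum_congr rfl fun x' _ => ?_
        ring
      rw [Finset.sum_congr rfl fun w _ => e3 w, Finset.sum_comm]
      refine Finset.sum_congr rfl fun x _ => ?_
      rw [Finset.sum_comm]
      refine Finset.sum_congr rfl fun x' _ => ?_
      rw [Finset.mul_sum]
    rw [e2]
    refine Finset.sum_le_sum fun x _ => Finset.sum_le_sum fun x' _ => ?_
    refine (le_abs_self _).trans ?_
    rw [abs_mul, abs_mul]
    have h3 : |F x| * |F x'| ≤ 1 := by
      have := hF x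
      have := hF x'
      nlinarith [abs_nonneg (F x), abs_nonneg (F x')]
    exact mul_le_of_le_one_left (abs_nonneg _) h3
  exact mul_le_mul h1 h2 (Finset.sum_nonneg fun w _ => sq_nonneg _) (by positivity)

theorem heavy1 (c : Fin k → Fin k → ZMod 2) (i0 j0 : Fin k) (a : Fin k → Fin q) (hq : 1 ≤ q)
    (hc : q ≤ (cols c j0).card) {ε : ℝ} (hε : 0 ≤ ε) (hε2 : (7 / 10 : ℝ) ^ q ≤ ε ^ 2)
    (F : (Fin k → Option (Fin q) → Bool) → ℝ) (G : U k q → ℝ) (hF : ∀ x, |F x| ≤ 1)
    (hG : ∀ w, |G w| ≤ 1) :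
    |∑ x, ∑ w : U k q, F x * G w *
      chi (∑ i, ∑ j, c i j * b2 (zz i0 j0 (fun i => (x i, a i)) w i j))| ≤
      (Fintype.card (Fin k → Option (Fin q) → Bool) : ℝ) * (Fintype.card (U k q) : ℝ) * ε := by
  simp only [ker_col]
  have h1 := cs F G (fun x (w : U k q) => ∏ j, col c i0 j0 a x j (w j)) hF hG
  have h2 := pair_sum c i0 j0 a hq hc
  apply abs_le_of_sq_le_sq _ (by positivity)
  refine h1.trans ?_
  refine (mul_le_mul_of_nonneg_left h2 (by positivity)).trans ?_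
  have h3 := mul_le_mul_of_nonneg_left hε2
    (show (0 : ℝ) ≤ ((Fintype.card (Fin k → Option (Fin q) → Bool) : ℝ) *
      (Fintype.card (U k q) : ℝ)) ^ 2 by positivity)
  calc _ = ((Fintype.card (Fin k → Option (Fin q) → Bool) : ℝ) *
      (Fintype.card (U k q) : ℝ)) ^ 2 * (7 / 10) ^ q := by ring
    _ ≤ _ := h3
    _ = _ := by ring

theorem sum_U (Ψ : U k q → ℝ) :
    ∑ u, Ψ u = ∑ a : Fin k → Fin q, ∑ x : Fin k → Option (Fin q) → Bool,
      Ψ (fun i => (x i, a i)) := by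
  rw [← Fintype.sum_prod_type_right' (f := fun (x : Fin k → Option (Fin q) → Bool)
    (a : Fin k → Fin q) => Ψ (fun i => (x i, a i)))]
  refine Fintype.sum_bijective (fun u : U k q => ((fun i => (u i).1, fun i => (u i).2) :
    (Fin k → Option (Fin q) → Bool) × (Fin k → Fin q))) ?_ _ _ fun u => rfl
  constructor
  · intro u v huv
    funext i
    have h1 := congrFun (congrArg Prod.fst huv) i
    have h2 := congrFun (congrArg Prod.snd huv) i
    exact Prod.ext h1 h2
  · rintro ⟨x, a⟩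
    exact ⟨fun i => (x i, a i), rfl⟩

theorem heavy_cols (c : Fin k → Fin k → ZMod 2) (i0 j0 : Fin k) (hq : 1 ≤ q)
    (hc : q ≤ (cols c j0).card) {ε : ℝ} (hε : 0 ≤ ε) (hε2 : (7 / 10 : ℝ) ^ q ≤ ε ^ 2)
    (F G : U k q → ℝ) (hF : ∀ x, |F x| ≤ 1) (hG : ∀ w, |G w| ≤ 1) :
    |∑ u, ∑ w, F u * G w * chi (∑ i, ∑ j, c i j * b2 (zz i0 j0 u w i j))| ≤
      (Fintype.card (U k q) : ℝ) ^ 2 * ε := by
  rw [sum_U]
  refine (Finset.abs_sum_le_sum_abs _ _).trans ?_
  refine (Finset.sum_le_sum fun a _ => heavy1 c i0 j0 a hq hc hε hε2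
    (fun x => F (fun i => (x i, a i))) G (fun x => hF _) hG).trans ?_
  rw [Finset.sum_const, Finset.card_univ, nsmul_eq_mul]
  have h1 : (Fintype.card (U k q) : ℝ) = (Fintype.card (Fin k → Fin q) : ℝ) *
      (Fintype.card (Fin k → Option (Fin q) → Bool) : ℝ) := by
    have h2 : Fintype.card (U k q) = Fintype.card (Fin k → Fin q) *
        Fintype.card (Fin k → Option (Fin q) → Bool) := by
      simp only [U, C, Fintype.card_pi, Fintype.card_prod, Finset.prod_const, Finset.card_univ,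
        Fintype.card_fin]
      rw [mul_pow, mul_comm]
    exact_mod_cast h2
  rw [h1]
  apply le_of_eq
  ring

/-- the rows which contain an entry -/
noncomputable def rows (c : Fin k → Fin k → ZMod 2) (i0 : Fin k) : Finset (Fin k) :=
  cols (fun j i => c i j) i0

theorem heavy_rows (c : Fin k → Fin k → ZMod 2) (i0 j0 : Fin k) (hq : 1 ≤ q)
    (hc : q ≤ (rows c i0).card) {ε : ℝ} (hε : 0 ≤ ε) (hε2 : (7 / 10 : ℝ) ^ q ≤ ε ^ 2)
    (F G : U k q → ℝ) (hF : ∀ x, |F x| ≤ 1) (hG : ∀ w, |G w| ≤ 1) :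
    |∑ u, ∑ w, F u * G w * chi (∑ i, ∑ j, c i j * b2 (zz i0 j0 u w i j))| ≤
      (Fintype.card (U k q) : ℝ) ^ 2 * ε := by
  have h := heavy_cols (fun j i => c i j) j0 i0 hq hc hε hε2 G F hG hF
  rw [Finset.sum_comm]
  have e : ∀ u w : U k q, F u * G w * chi (∑ i, ∑ j, c i j * b2 (zz i0 j0 u w i j)) =
      G w * F u * chi (∑ j, ∑ i, c i j * b2 (zz j0 i0 w u j i)) := by
    intro u w
    rw [mul_comm (F u), Finset.sum_comm]
    simp only [zz_swap i0 j0 u w]
  simp only [e]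
  exact h

/-- few rows and columns contain entries -/
def light (q : ℕ) (c : Fin k → Fin k → ZMod 2) (i0 j0 : Fin k) : Prop :=
  (rows c i0).card < q ∧ (cols c j0).card < q

theorem heavy (c : Fin k → Fin k → ZMod 2) (i0 j0 : Fin k) (hq : 1 ≤ q)
    (hc : ¬ light q c i0 j0) {ε : ℝ} (hε : 0 ≤ ε) (hε2 : (7 / 10 : ℝ) ^ q ≤ ε ^ 2)
    (F G : U k q → ℝ) (hF : ∀ x, |F x| ≤ 1) (hG : ∀ w, |G w| ≤ 1) :
    |∑ u, ∑ w, F u * G w * chi (∑ i, ∑ j, c i j * b2 (zz i0 j0 u w i j))| ≤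
      (Fintype.card (U k q) : ℝ) ^ 2 * ε := by
  by_cases h : (rows c i0).card < q
  · have h2 : q ≤ (cols c j0).card := by
      by_contra h3
      exact hc ⟨h, by omega⟩
    exact heavy_cols c i0 j0 hq h2 hε hε2 F G hF hG
  · exact heavy_rows c i0 j0 hq (by omega) hε hε2 F G hF hG

/-- the number of the entries -/
theorem light_card (c : Fin k → Fin k → ZMod 2) (i0 j0 : Fin k) (hc : light q c i0 j0)
    (S : Finset (Fin k × Fin k)) (hS : ∀ p ∈ S, c p.1 p.2 ≠ 0) : S.card ≤ q ^ 2 := by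
  classical
  have h1 : S ⊆ (insert i0 (rows c i0)) ×ˢ (insert j0 (cols c j0)) := by
    intro p hp
    have h2 := hS p hp
    rw [Finset.mem_product, Finset.mem_insert, Finset.mem_insert]
    constructor
    · by_cases h : p.1 = i0
      · exact Or.inl h
      · exact Or.inr (Finset.mem_filter.2 ⟨Finset.mem_univ _, h, p.2, h2⟩)
    · by_cases h : p.2 = j0
      · exact Or.inl h
      · exact Or.inr (Finset.mem_filter.2 ⟨Finset.mem_univ _, h, p.1, h2⟩)
  refine (Finset.card_le_card h1).trans ?_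
  rw [Finset.card_product, sq]
  have h3 := Finset.card_insert_le i0 (rows c i0)
  have h4 := Finset.card_insert_le j0 (cols c j0)
  exact Nat.mul_le_mul (by have := hc.1; omega) (by have := hc.2; omega)

end Pool.Agent.N631.SX
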