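import Pool.Agent.N631.SX.Tree
import Pool.Agent.N631.SX.Count
import Pool.Agent.N631.SX.Arr
import Pool.Agent.N631.LX.Main

/-!
# Tables of exclusive ors of answers for 3SUM-Indexing: main theorem (helper631)
-/

set_option autoImplicit false

namespace Pool.Agent.N631.SX

open Pool.Agent.W959 Pool.Agent.W959.Ent Pool.Agent.TH457.EntD Pool.Agent.N631.LX
open Pool.Agent.R563

variable {k q n : ℕ}

/-- the universe -/
abbrev E (n q : ℕ) := Fin n ⊕ (Option (Fin q) ⊕ Option (Fin q))

/-- the sets of the first side -/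
def SA (i0 : Fin k) (x : AA n k q) (i : Fin k) : E n q → Bool
  | Sum.inl e => decide (i = i0) && x.1 e
  | Sum.inr (Sum.inl o) => pt i0 x.2 i o
  | Sum.inr (Sum.inr o) => decide (loc i0 x.2 i = o)

/-- the sets of the second side -/
def TB (j0 : Fin k) (y : AA n k q) (j : Fin k) : E n q → Bool
  | Sum.inl e => decide (j = j0) && y.1 e
  | Sum.inr (Sum.inl o) => decide (loc j0 y.2 j = o)
  | Sum.inr (Sum.inr o) => pt j0 y.2 j o

/-- the size of the universe -/
def vv (n q : ℕ) : ℕ := n + ((q + 1) + (q + 1))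

/-- numbering of the universe -/
noncomputable def num (n q : ℕ) : E n q ≃ Fin (vv n q) :=
  Fintype.equivFinOfCardEq (by simp [vv])

/-- the sets of the first side, as sets of numbers -/
noncomputable def setS (i0 : Fin k) (x : AA n k q) : Fin k → Fin (vv n q) → Bool :=
  fun i e => SA i0 x i ((num n q).symm e)

/-- the sets of the second side, as sets of numbers -/
noncomputable def setT (j0 : Fin k) (y : AA n k q) : Fin k → Fin (vv n q) → Bool :=
  fun j e => TB j0 y j ((num n q).symm e)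

theorem meets_iff (i0 j0 : Fin k) (x y : AA n k q) (i j : Fin k) :
    meets (setS i0 x) (setT j0 y) i j ↔
      (i = i0 ∧ j = j0 ∧ conj x.1 y.1 ≠ zero n) ∨ zz i0 j0 x.2 y.2 i j = true := by
  unfold meets setS setT
  have h1 : (∃ e : Fin (vv n q), SA i0 x i ((num n q).symm e) = true ∧
      TB j0 y j ((num n q).symm e) = true) ↔ ∃ e : E n q, SA i0 x i e = true ∧
      TB j0 y j e = true := by
    constructor
    · rintro ⟨e, he⟩
      exact ⟨_, he⟩
    · rintro ⟨e, he⟩
      exact ⟨num n q e, by simpa using he⟩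
  rw [h1, Sum.exists, Sum.exists]
  have h2 : (∃ e : Fin n, SA i0 x i (Sum.inl e) = true ∧ TB j0 y j (Sum.inl e) = true) ↔
      (i = i0 ∧ j = j0 ∧ conj x.1 y.1 ≠ zero n) := by
    simp only [SA, TB, Bool.and_eq_true, decide_eq_true_eq]
    constructor
    · rintro ⟨e, ⟨h1, h2⟩, h3, h4⟩
      refine ⟨h1, h3, fun h => ?_⟩
      have := congrFun h e
      simp [conj, zero, h2, h4] at this
    · rintro ⟨h1, h2, h3⟩
      by_contra hn
      apply h3
      funext e
      by_contra h4
      apply hn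
      simp only [conj, zero, Bool.not_eq_false, Bool.and_eq_true] at h4
      exact ⟨e, ⟨h1, h4.1⟩, h2, h4.2⟩
  have h3 : (∃ o : Option (Fin q), SA i0 x i (Sum.inr (Sum.inl o)) = true ∧
      TB j0 y j (Sum.inr (Sum.inl o)) = true) ↔ pt i0 x.2 i (loc j0 y.2 j) = true := by
    simp only [SA, TB, decide_eq_true_eq]
    constructor
    · rintro ⟨o, h, h'⟩
      rwa [h']
    · intro h
      exact ⟨_, h, rfl⟩
  have h4 : (∃ o : Option (Fin q), SA i0 x i (Sum.inr (Sum.inr o)) = true ∧
      TB j0 y j (Sum.inr (Sum.inr o)) = true) ↔ pt j0 y.2 j (loc i0 x.2 i) = true := by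
    simp only [SA, TB, decide_eq_true_eq]
    constructor
    · rintro ⟨o, h, h'⟩
      rwa [h]
    · intro h
      exact ⟨_, rfl, h⟩
  rw [h2, h3, h4]
  unfold zz
  rw [Bool.or_eq_true]

open Classical in
theorem meets_sum (i0 j0 : Fin k) (c : Fin k → Fin k → ZMod 2) (x y : AA n k q) :
    (∑ i, ∑ j, c i j * b2 (decide (meets (setS i0 x) (setT j0 y) i j))) = xc i0 j0 c x y := by
  have h1 : ∀ i j, b2 (decide (meets (setS i0 x) (setT j0 y) i j)) =
      (if i = i0 ∧ j = j0 then b2 (decide (conj x.1 y.1 ≠ zero n)) else 0) +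
        b2 (zz i0 j0 x.2 y.2 i j) := by
    intro i j
    by_cases h : i = i0 ∧ j = j0
    · obtain ⟨rfl, rfl⟩ := h
      rw [zz_self]
      simp only [and_self, if_true]
      rw [show b2 false = 0 by simp [b2], add_zero]
      congr 1
      rw [decide_eq_decide, meets_iff, zz_self]
      simp
    · rw [if_neg h, zero_add]
      by_cases hz : zz i0 j0 x.2 y.2 i j = true
      · rw [hz]
        have : meets (setS i0 x) (setT j0 y) i j := (meets_iff i0 j0 x y i j).2 (Or.inr hz)
        simp [this]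
      · have : ¬ meets (setS i0 x) (setT j0 y) i j := by
          rw [meets_iff]
          rintro (⟨h1, h2, -⟩ | h1)
          · exact h ⟨h1, h2⟩
          · exact hz h1
        rw [Bool.not_eq_true] at hz
        rw [hz]
        simp [this]
  simp only [h1, mul_add, Finset.sum_add_distrib]
  unfold xc
  congr 1
  rw [Finset.sum_eq_single i0, Finset.sum_eq_single j0]
  · simp
  · intro j _ hj
    simp [hj]
  · intro h
    exact absurd (Finset.mem_univ _) h
  · intro i _ hi
    simp [hi]
  · intro h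
    exact absurd (Finset.mem_univ _) h

/-! ### cutting trees -/

/-- the tree, cut at the depth `m` -/
def ct {c : ℕ} : ℕ → XT.Tree c Bool → XT.Tree c Bool
  | _, XT.Tree.answer o => XT.Tree.answer o
  | 0, XT.Tree.probe _ _ => XT.Tree.answer false
  | m + 1, XT.Tree.probe σ nx => XT.Tree.probe σ (fun b => ct m (nx b))

theorem ct_dep {c : ℕ} : ∀ (T : XT.Tree c Bool) (m : ℕ), dep (ct m T) ≤ m := by
  intro T
  induction T with
  | answer o => intro m; cases m <;> simp [ct, dep]
  | probe σ nx ih =>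
    intro m
    cases m with
    | zero => simp [ct, dep]
    | succ m =>
      simp only [ct, dep]
      have h1 := ih false m
      have h2 := ih true m
      omega

theorem ct_out {c : ℕ} (b : Fin c → Bool) : ∀ (T : XT.Tree c Bool) (m : ℕ),
    T.probes b ≤ m → (ct m T).out b = T.out b := by
  intro T
  induction T with
  | answer o => intro m _; cases m <;> simp [ct]
  | probe σ nx ih =>
    intro m hm
    simp only [XT.Tree.probes] at hm
    cases m with
    | zero => omega
    | succ m =>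
      simp only [ct, XT.Tree.out]
      exact ih (b σ) m (by omega)

/-! ### the bits -/

open Classical in
theorem b2_parity {α : Type} (Q : Finset α) (P : α → Prop) :
    b2 (XT.parity Q P) = ∑ z ∈ Q, b2 (decide (P z)) := by
  unfold XT.parity
  rw [b2_odd, Finset.card_eq_sum_ones, Finset.sum_filter]
  push_cast
  refine Finset.sum_congr rfl fun z _ => ?_
  by_cases h : P z
  · simp [h, b2]
  · simp [h, b2]

variable {N : ℕ}

/-- the first array -/
noncomputable def arrA (N : ℕ) (i0 : Fin k) (x : AA n k q) : Fin N → ℕ :=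
  arr N (valA (setS i0 x)) (i0, none)

/-- the second array -/
noncomputable def arrB (N : ℕ) (hv : 1 ≤ vv n q) (j0 : Fin k) (y : AA n k q) : Fin N → ℕ :=
  arr N (valB (setT j0 y)) (j0, Sum.inl ⟨0, by omega⟩)

/-- the position of the query -/
def pos (n q k : ℕ) (p : Fin k × Fin k) : ℕ :=
  7 * vv n q * ((p.1 : ℕ) + k * (p.2 : ℕ)) + (3 * vv n q - 1)

theorem pos_iff (hv : 2 ≤ vv n q) (hN : k * (3 * vv n q) ≤ N) (p : Fin k × Fin k)
    (x y : AA n k q) :
    (∃ l l' : Fin N, arrA N p.1 x l + arrB N (by omega) p.2 y l' = pos n q k p) ↔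
      ¬ conj x.1 y.1 = zero n := by
  unfold arrA arrB pos
  rw [arr_ans hv hN, ans_mid hv, meets_iff, zz_self]
  simp

/-- the error of one data structure, summed over all queries -/
theorem sum_error {t m s c : ℕ} (ht : 1 ≤ t) (hm : m = 1400 * t) (hn : n = m ^ 2)
    (hqt : q = 100 * t) (hv : 2 ≤ vv n q) (hN : k * (3 * vv n q) ≤ N) (D : XT.XorSumDS N c)
    (hs : D.space ≤ s) :
    ((k : ℝ) ^ 2 - s * (q : ℝ) ^ 2) * (1 / 80) ≤ ∑ p : Fin k × Fin k,
      EE (q := q) (1 / (m : ℝ)) (fun x y => ind (¬ ((ct t (D.query (pos n q k p))).out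
        (D.bit (arrA N p.1 x) (arrB N (by omega) p.2 y)) = true ↔
          ¬ conj x.1 y.1 = zero n))) := by
  classical
  have hm' : (2 : ℝ) ≤ m := by
    have : 2 ≤ m := by omega
    exact_mod_cast this
  have hinv0 : 0 ≤ 1 / (m : ℝ) := by positivity
  have hr1 : 0 ≤ 1 - 1 / (m : ℝ) := by
    have : 1 / (m : ℝ) ≤ 1 := by
      rw [div_le_one (by linarith)]
      linarith
    linarith
  choose cz fz gz hz using fun z => decomp (k := k) (v := vv n q) hv z
  let C' : Fin c → Fin k → Fin k → ZMod 2 := fun σ i j => ∑ z ∈ D.Q σ, cz z i j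
  let J : Finset (Fin k → Fin k → ZMod 2) :=
    (Finset.univ.filter fun σ => (D.Q σ).Nonempty).image C'
  let W : Submodule (ZMod 2) (Fin k → Fin k → ZMod 2) := Submodule.span (ZMod 2) (J : Set _)
  have hW : ∀ l, C' l ∈ W := by
    intro l
    by_cases h : (D.Q l).Nonempty
    · exact Submodule.subset_span (Finset.mem_coe.2 (Finset.mem_image.2
        ⟨l, Finset.mem_filter.2 ⟨Finset.mem_univ _, h⟩, rfl⟩))
    · rw [Finset.not_nonempty_iff_eq_empty] at h
      have : C' l = 0 := by
        funext i j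
        simp [C', h]
      rw [this]
      exact Submodule.zero_mem _
  have hrank : Module.finrank (ZMod 2) W ≤ s := by
    refine (finrank_span_finset_le_card J).trans (Finset.card_image_le.trans ?_)
    refine le_trans (le_of_eq ?_) hs
    unfold XT.XorSumDS.space
    congr
  let G : Finset (Fin k × Fin k) := Finset.univ.filter fun p =>
    ∃ w ∈ W, light q w p.1 p.2 ∧ w p.1 p.2 ≠ 0
  have hG := card_good W hrank G fun p hp => (Finset.mem_filter.1 hp).2
  have hG' : (G.card : ℝ) ≤ s * (q : ℝ) ^ 2 := by exact_mod_cast hG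
  have herr : ∀ p : Fin k × Fin k, p ∉ G → (1 / 80 : ℝ) ≤
      EE (q := q) (1 / (m : ℝ)) (fun x y => ind (¬ ((ct t (D.query (pos n q k p))).out
        (D.bit (arrA N p.1 x) (arrB N (by omega) p.2 y)) = true ↔
          ¬ conj x.1 y.1 = zero n))) := by
    intro p hp
    let f : Fin c → AA n k q → ZMod 2 := fun σ x =>
      b2 (D.f σ (arrA N p.1 x)) + ∑ z ∈ D.Q σ, fz z (setS p.1 x)
    let g : Fin c → AA n k q → ZMod 2 := fun σ y =>
      b2 (D.g σ (arrB N (by omega) p.2 y)) + ∑ z ∈ D.Q σ, gz z (setT p.2 y)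
    have hbit : ∀ (x y : AA n k q) (σ : Fin c),
        D.bit (arrA N p.1 x) (arrB N (by omega) p.2 y) σ =
          decide (bt C' f g p.1 p.2 σ x y = 1) := by
      intro x y σ
      rw [← decide_b2 (D.bit (arrA N p.1 x) (arrB N (by omega) p.2 y) σ)]
      congr 2
      unfold XT.XorSumDS.bit
      rw [b2_xor, b2_xor, b2_parity]
      have h1 : ∀ z, b2 (@decide (∃ i j : Fin N, arrA N p.1 x i + arrB N (by omega) p.2 y j = z)
          (Classical.propDecidable _)) =
          (∑ i, ∑ j, cz z i j * b2 (decide (meets (setS p.1 x) (setT p.2 y) i j))) +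
            fz z (setS p.1 x) + gz z (setT p.2 y) := by
        intro z
        rw [← hz z]
        congr 1
        rw [decide_eq_decide]
        exact arr_ans hv hN _ _ _ _ z
      rw [Finset.sum_congr rfl fun z _ => h1 z]
      simp only [Finset.sum_add_distrib]
      have h2 : ∑ z ∈ D.Q σ, ∑ i, ∑ j, cz z i j *
          b2 (decide (meets (setS p.1 x) (setT p.2 y) i j)) = xc p.1 p.2 (C' σ) x y := by
        rw [← meets_sum]
        rw [Finset.sum_comm]
        refine Finset.sum_congr rfl fun i _ => ?_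
        rw [Finset.sum_comm]
        refine Finset.sum_congr rfl fun j _ => ?_
        rw [← Finset.sum_mul]
      rw [h2]
      simp only [bt, f, g]
      ring
    have h1 := pair_error (n := n) C' f g p.1 p.2 ht hm hn hqt W hW (by
      intro w hw hl
      by_contra h0
      exact hp (Finset.mem_filter.2 ⟨Finset.mem_univ _, w, hw, hl, h0⟩))
      (ct t (D.query (pos n q k p))) (ct_dep _ _)
    have h2 : ∀ x y : AA n k q, D.bit (arrA N p.1 x) (arrB N (by omega) p.2 y) =
        fun l => decide (bt C' f g p.1 p.2 l x y = 1) := fun x y => funext (hbit x y)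
    simp only [h2]
    exact h1
  calc ((k : ℝ) ^ 2 - s * (q : ℝ) ^ 2) * (1 / 80) ≤ ((k : ℝ) ^ 2 - G.card) * (1 / 80) := by
        apply mul_le_mul_of_nonneg_right _ (by norm_num)
        linarith
    _ = ∑ p : Fin k × Fin k, if p ∈ G then (0 : ℝ) else 1 / 80 := by
        rw [Finset.sum_ite]
        have h1 : Finset.univ.filter (fun p => ¬ p ∈ G) = Gᶜ := by
          ext p
          simp
        rw [h1, Finset.sum_const_zero, zero_add, Finset.sum_const, Finset.card_compl,
          nsmul_eq_mul, Fintype.card_prod, Fintype.card_fin]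
        rw [Nat.cast_sub (by
          have := Finset.card_le_univ G
          simpa using this)]
        push_cast
        ring
    _ ≤ _ := by
        refine Finset.sum_le_sum fun p _ => ?_
        by_cases hp : p ∈ G
        · rw [if_pos hp]
          exact EE_nonneg hinv0 hr1 fun x y => ind_nonneg _
        · rw [if_neg hp]
          exact herr p hp

/-! ### bounds for the arrays -/

theorem arr_le {ι : Type} [Fintype ι] (val : ι → ℕ) (p0 : ι) (M : ℕ) (h : ∀ p, val p ≤ M)
    (l : Fin N) : arr N val p0 l ≤ M := by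
  unfold arr
  split_ifs
  · exact h _
  · exact h _

theorem cube_le {v : ℕ} (hv : 2 ≤ v) (hk : 1 ≤ k) (hN : k * (3 * v) ≤ N) :
    7 * v * (k * k) ≤ N ^ 3 := by
  have h1 : (k * (3 * v)) ^ 3 ≤ N ^ 3 := Nat.pow_le_pow_left hN 3
  have h2 : 7 * v * (k * k) ≤ (k * (3 * v)) ^ 3 := by
    have h3 : (k * (3 * v)) ^ 3 = 27 * v * (k * k) * (k * v ^ 2) := by ring
    rw [h3]
    have h4 : 1 ≤ k * v ^ 2 := Nat.one_le_iff_ne_zero.2 (by positivity)
    calc 7 * v * (k * k) ≤ 27 * v * (k * k) :=
          Nat.mul_le_mul_right _ (Nat.mul_le_mul_right _ (by norm_num))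
      _ = 27 * v * (k * k) * 1 := by ring
      _ ≤ _ := Nat.mul_le_mul_left _ h4
  exact h2.trans h1

theorem valA_le {v : ℕ} (hv : 2 ≤ v) (S : Fin k → Fin v → Bool)
    (p : Fin k × Option (Fin v)) : valA S p ≤ 7 * v * (k * k) := by
  obtain ⟨i, o⟩ := p
  have hi := i.2
  have h1 : 7 * v * (i : ℕ) + 7 * v ≤ 7 * v * (k * k) := by
    calc 7 * v * (i : ℕ) + 7 * v = 7 * v * ((i : ℕ) + 1) := by ring
      _ ≤ 7 * v * (k * k) := Nat.mul_le_mul_left _ (by nlinarith)
  unfold valA
  cases o with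
  | none => simp only; omega
  | some e =>
    have := e.2
    simp only
    split_ifs <;> omega

theorem valB_le {v : ℕ} (hv : 2 ≤ v) (T : Fin k → Fin v → Bool)
    (p : Fin k × (Fin v ⊕ Fin (2 * v))) : valB T p ≤ 7 * v * (k * k) := by
  obtain ⟨j, o⟩ := p
  have hj := j.2
  have h1 : 7 * v * (k * (j : ℕ)) + 7 * v ≤ 7 * v * (k * k) := by
    calc 7 * v * (k * (j : ℕ)) + 7 * v = 7 * v * (k * (j : ℕ) + 1) := by ring
      _ ≤ 7 * v * (k * k) := Nat.mul_le_mul_left _ (by nlinarith)
  unfold valB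
  cases o with
  | inl e =>
    have := e.2
    simp only
    split_ifs <;> omega
  | inr y =>
    have := y.2
    simp only
    split_ifs <;> omega

/-- **Main theorem.** -/
theorem main (N t c s : ℕ) (ht : 1 ≤ t) (Ω : Type) [Fintype Ω] (p : Ω → ℝ)
    (D : Ω → XT.XorSumDS N c) (hs : ∀ ω, (D ω).space ≤ s)
    (hD : XT.SumSolves p D t (49 / 100)) :
    (N : ℝ) ^ 2 ≤ 10 ^ 19 * (t : ℝ) ^ 6 * ((s : ℝ) + 1) := by
  classical
  obtain ⟨m, hm⟩ : ∃ m : ℕ, m = 1400 * t := ⟨_, rfl⟩
  obtain ⟨n, hn⟩ : ∃ n : ℕ, n = m ^ 2 := ⟨_, rfl⟩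
  obtain ⟨q, hq⟩ : ∃ q : ℕ, q = 100 * t := ⟨_, rfl⟩
  have ht' : (1 : ℝ) ≤ t := by exact_mod_cast ht
  have hv : 2 ≤ vv n q := by unfold vv; omega
  have hvb : vv n q ≤ 2000000 * t ^ 2 := by
    unfold vv
    rw [hn, hm, hq]
    have h1 : t ≤ t ^ 2 := by nlinarith
    have h2 : 1 ≤ t ^ 2 := Nat.one_le_pow _ _ ht
    have h3 : (1400 * t) ^ 2 = 1960000 * t ^ 2 := by ring
    rw [h3]
    omega
  have hvb' : (vv n q : ℝ) ≤ 2000000 * (t : ℝ) ^ 2 := by exact_mod_cast hvb
  obtain ⟨k, hk⟩ : ∃ k : ℕ, k = N / (3 * vv n q) := ⟨_, rfl⟩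
  have hN : k * (3 * vv n q) ≤ N := by rw [hk]; exact Nat.div_mul_le_self _ _
  have hN2 : N ≤ (k + 1) * (3 * vv n q) := by
    have := Nat.lt_div_mul_add (a := N) (b := 3 * vv n q) (by omega)
    rw [← hk] at this
    have h2 : (k + 1) * (3 * vv n q) = k * (3 * vv n q) + 3 * vv n q := by ring
    omega
  have hN2' : (N : ℝ) ≤ ((k : ℝ) + 1) * (3 * vv n q) := by exact_mod_cast hN2
  have hN3 : (N : ℝ) ≤ ((k : ℝ) + 1) * (6000000 * (t : ℝ) ^ 2) := by
    refine hN2'.trans (mul_le_mul_of_nonneg_left ?_ (by positivity))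
    linarith
  have hs0 : (0 : ℝ) ≤ s := by positivity
  rcases Nat.eq_zero_or_pos k with h0 | hk1
  · rw [h0] at hN3
    push_cast at hN3
    rw [zero_add, one_mul] at hN3
    calc (N : ℝ) ^ 2 ≤ (6000000 * (t : ℝ) ^ 2) ^ 2 := pow_le_pow_left₀ (by positivity) hN3 2
      _ = 36000000000000 * (t : ℝ) ^ 4 := by ring
      _ ≤ 10 ^ 19 * (t : ℝ) ^ 6 * 1 := by
          rw [mul_one]
          exact mul_le_mul (by norm_num) (pow_le_pow_right₀ ht' (by norm_num)) (by positivity)
            (by positivity)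
      _ ≤ _ := mul_le_mul_of_nonneg_left (by linarith) (by positivity)
  · obtain ⟨hp, hp1, hcor⟩ := hD
    have hq1 : 1 ≤ q := by omega
    have hm2 : (2 : ℝ) ≤ m := by
      have : 2 ≤ m := by omega
      exact_mod_cast this
    have hinv0 : 0 ≤ 1 / (m : ℝ) := by positivity
    have hr1 : 0 ≤ 1 - 1 / (m : ℝ) := by
      have : 1 / (m : ℝ) ≤ 1 := by
        rw [div_le_one (by linarith)]
        linarith
      linarith
    have hAle : ∀ (i0 : Fin k) (x : AA n k q) (l : Fin N), arrA N i0 x l ≤ N ^ 3 :=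
      fun i0 x l => arr_le _ _ _ (fun p => (valA_le hv _ p).trans (cube_le hv hk1 hN)) l
    have hBle : ∀ (j0 : Fin k) (y : AA n k q) (l : Fin N),
        arrB N (by omega) j0 y l ≤ N ^ 3 :=
      fun j0 y l => arr_le _ _ _ (fun p => (valB_le hv _ p).trans (cube_le hv hk1 hN)) l
    -- wrong answers
    let wr : Ω → Fin k × Fin k → AA n k q → AA n k q → Prop := fun ω pr x y =>
      ¬ ((ct t ((D ω).query (pos n q k pr))).out
        ((D ω).bit (arrA N pr.1 x) (arrB N (by omega) pr.2 y)) = true ↔ ¬ conj x.1 y.1 = zero n)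
    have hpt : ∀ (pr : Fin k × Fin k) (x y : AA n k q),
        ∑ ω, p ω * ind (wr ω pr x y) ≤ 1 / 100 := by
      intro pr x y
      have h1 := hcor (arrA N pr.1 x) (arrB N (by omega) pr.2 y) (hAle _ _) (hBle _ _)
        (pos n q k pr)
      have h0 := pos_iff (N := N) hv hN pr x y
      let gd : Ω → Prop := fun ω => (((D ω).query (pos n q k pr)).out
          ((D ω).bit (arrA N pr.1 x) (arrB N (by omega) pr.2 y)) = true ↔
            ∃ l l' : Fin N, arrA N pr.1 x l + arrB N (by omega) pr.2 y l' = pos n q k pr) ∧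
          ((D ω).query (pos n q k pr)).probes
          ((D ω).bit (arrA N pr.1 x) (arrB N (by omega) pr.2 y)) ≤ t
      have h1' : (1 / 2 + 49 / 100 : ℝ) ≤ ∑ ω, p ω * ind (gd ω) := by
        refine h1.trans (le_of_eq ?_)
        rw [Finset.sum_filter]
        refine Finset.sum_congr rfl fun ω _ => ?_
        by_cases hg : gd ω
        · rw [if_pos hg, ind_true hg, mul_one]
        · rw [if_neg hg, ind_false hg, mul_zero]
      have h2 : ∀ ω, p ω * ind (wr ω pr x y) ≤ p ω - p ω * ind (gd ω) := by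
        intro ω
        by_cases h : gd ω
        · have h3 : ¬ wr ω pr x y := by
            simp only [wr, not_not]
            rw [ct_out _ _ _ h.2, ← h0]
            exact h.1
          rw [ind_false h3, ind_true h]
          simp
        · rw [ind_false h, mul_zero, sub_zero]
          exact mul_le_of_le_one_right (hp ω) (ind_le_one _)
      refine (Finset.sum_le_sum fun ω _ => h2 ω).trans ?_
      rw [Finset.sum_sub_distrib, hp1]
      linarith
    have hpair : ∀ pr : Fin k × Fin k, ∑ ω, p ω * EE (q := q) (1 / (m : ℝ))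
        (fun x y : AA n k q => ind (wr ω pr x y)) ≤ 1 / 100 := by
      intro pr
      have e1 : ∑ ω, p ω * EE (q := q) (1 / (m : ℝ))
          (fun x y : AA n k q => ind (wr ω pr x y)) =
          EE (1 / (m : ℝ)) (fun x y => ∑ ω, p ω * ind (wr ω pr x y)) := by
        rw [EE_sum]
        refine Finset.sum_congr rfl fun ω _ => ?_
        rw [EE_mul]
      rw [e1]
      refine (EE_mono hinv0 hr1 fun x y => hpt pr x y).trans ?_
      rw [EE_const hq1]
    have htot : ∑ pr : Fin k × Fin k, ∑ ω, p ω * EE (q := q) (1 / (m : ℝ))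
        (fun x y : AA n k q => ind (wr ω pr x y)) ≤ (k : ℝ) ^ 2 * (1 / 100) := by
      refine (Finset.sum_le_sum fun pr _ => hpair pr).trans (le_of_eq ?_)
      rw [Finset.sum_const, Finset.card_univ, Fintype.card_prod, Fintype.card_fin, nsmul_eq_mul]
      push_cast
      ring
    rw [Finset.sum_comm] at htot
    have hlow : ∀ ω, p ω * (((k : ℝ) ^ 2 - s * (q : ℝ) ^ 2) * (1 / 80)) ≤
        ∑ pr : Fin k × Fin k, p ω * EE (q := q) (1 / (m : ℝ))
        (fun x y : AA n k q => ind (wr ω pr x y)) := by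
      intro ω
      rw [← Finset.mul_sum]
      exact mul_le_mul_of_nonneg_left
        (sum_error ht hm hn hq hv hN (D ω) (hs ω)) (hp ω)
    have hlow2 : ((k : ℝ) ^ 2 - s * (q : ℝ) ^ 2) * (1 / 80) ≤ (k : ℝ) ^ 2 * (1 / 100) := by
      refine le_trans ?_ htot
      refine le_trans (le_of_eq ?_) (Finset.sum_le_sum fun ω _ => hlow ω)
      rw [← Finset.sum_mul, hp1, one_mul]
    have hk2 : (k : ℝ) ^ 2 ≤ 5 * (s * (q : ℝ) ^ 2) := by linarith
    have hk1' : (1 : ℝ) ≤ k := by exact_mod_cast hk1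
    have hN4 : (N : ℝ) ≤ 12000000 * (t : ℝ) ^ 2 * k := by
      refine hN3.trans ?_
      have : (k : ℝ) + 1 ≤ 2 * k := by linarith
      calc ((k : ℝ) + 1) * (6000000 * (t : ℝ) ^ 2) ≤ 2 * k * (6000000 * (t : ℝ) ^ 2) :=
            mul_le_mul_of_nonneg_right this (by positivity)
        _ = _ := by ring
    have hq' : (q : ℝ) = 100 * t := by rw [hq]; push_cast; ring
    calc (N : ℝ) ^ 2 ≤ (12000000 * (t : ℝ) ^ 2 * k) ^ 2 := pow_le_pow_left₀ (by positivity) hN4 2
      _ = 144000000000000 * (t : ℝ) ^ 4 * (k : ℝ) ^ 2 := by ring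
      _ ≤ 144000000000000 * (t : ℝ) ^ 4 * (5 * (s * (q : ℝ) ^ 2)) :=
          mul_le_mul_of_nonneg_left hk2 (by positivity)
      _ = 7200000000000000000 * (t : ℝ) ^ 6 * s := by rw [hq']; ring
      _ ≤ 10 ^ 19 * (t : ℝ) ^ 6 * s := by
          apply mul_le_mul_of_nonneg_right _ hs0
          apply mul_le_mul_of_nonneg_right _ (by positivity)
          norm_num
      _ ≤ _ := mul_le_mul_of_nonneg_left (by linarith) (by positivity)

end Pool.Agent.N631.SX
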