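import Pool.Agent.N631.SX.EMain
import Pool.Agent.N631.SX.Arr2
import Pool.Agent.N631.SX.Amp

/-!
# Tables of exclusive ors of answers for 3SUM-Indexing: exponent four (helper631)
-/

set_option autoImplicit false

namespace Pool.Agent.N631.SX

open Pool.Agent.W959 Pool.Agent.W959.Ent Pool.Agent.TH457.EntD Pool.Agent.N631.LX
open Pool.Agent.R563

variable {k q n : ℕ} {N : ℕ}

/-- the first array -/
noncomputable def arrA2 (N ρ : ℕ) (i0 : Fin k) (x : AA n k q) : Fin N → ℕ :=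
  arrF N (VA ρ (setS i0 x)) (WW ρ (vv n q) * (i0 : ℕ) + 0 * ρ)

/-- the second array -/
noncomputable def arrB2 (N ρ : ℕ) (j0 : Fin k) (y : AA n k q) : Fin N → ℕ :=
  arrF N (VB ρ (setT j0 y)) (WW ρ (vv n q) * (k * (j0 : ℕ)) + (2 * vv n q - 1 + 0))

/-- the position of the query -/
def pos2 (n q k ρ : ℕ) (p : Fin k × Fin k) : ℕ :=
  WW ρ (vv n q) * ((p.1 : ℕ) + k * (p.2 : ℕ)) + (ρ * ρ + 2 * vv n q - 1)

theorem x0A {ρ : ℕ} (hρ : 1 ≤ ρ) (i0 : Fin k) (x : AA n k q) :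
    WW ρ (vv n q) * (i0 : ℕ) + 0 * ρ ∈ VA ρ (setS i0 x) :=
  (VA_mem ρ _ _).2 ⟨i0, 0 * ρ, Or.inl ⟨0, by omega, rfl⟩, rfl⟩

theorem x0B {ρ : ℕ} (hρ : 1 ≤ ρ) (j0 : Fin k) (y : AA n k q) :
    WW ρ (vv n q) * (k * (j0 : ℕ)) + (2 * vv n q - 1 + 0) ∈ VB ρ (setT j0 y) :=
  (VB_mem ρ _ _).2 ⟨j0, 2 * vv n q - 1 + 0, Or.inr ⟨0, by omega, Or.inl rfl⟩, rfl⟩

theorem prsX (i0 : Fin k) (x : AA n k q) : (prs (setS i0 x)).card ≤ n + k * (q + 2) := by
  rw [prs_card]
  exact sizeX i0 x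

theorem prsY (j0 : Fin k) (y : AA n k q) : (prs (setT j0 y)).card ≤ n + k * (q + 2) := by
  rw [prs_card]
  exact sizeY j0 y

theorem arr2_iff {ρ : ℕ} (hρ : 1 ≤ ρ) (hN : 2 * (k * ρ) + (n + k * (q + 2)) ≤ N) (i0 j0 : Fin k)
    (x y : AA n k q) (z : ℕ) :
    (∃ l l' : Fin N, arrA2 N ρ i0 x l + arrB2 N ρ j0 y l' = z) ↔
      ans2 ρ (setS i0 x) (setT j0 y) z := by
  refine arr2_ans _ _ (x0A hρ i0 x) (x0B hρ j0 y) ?_ ?_ z
  · have h1 := VA_card ρ (setS i0 x)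
    have h2 := prsX i0 x
    omega
  · have h1 := VB_card ρ (setT j0 y)
    have h2 := prsY j0 y
    omega

theorem pos2_iff {ρ : ℕ} (hρ : 1 ≤ ρ) (hv : 2 ≤ vv n q)
    (hN : 2 * (k * ρ) + (n + k * (q + 2)) ≤ N) (p : Fin k × Fin k) (x y : AA n k q) :
    (∃ l l' : Fin N, arrA2 N ρ p.1 x l + arrB2 N ρ p.2 y l' = pos2 n q k ρ p) ↔
      ¬ conj x.1 y.1 = zero n := by
  rw [arr2_iff hρ hN]
  unfold pos2
  rw [ans2_mid hρ hv, meets_iff, zz_self]
  simp

/-- the error of one data structure, summed over all queries -/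
theorem sum_error2 {t m s c ρ : ℕ} (ht : 1 ≤ t) (hm : m = 1400 * t) (hn : n = m ^ 2)
    (hqt : q = 100 * t) (hρ : 1 ≤ ρ) (hρv : vv n q ≤ ρ * ρ) (hv : 2 ≤ vv n q)
    (hN : 2 * (k * ρ) + (n + k * (q + 2)) ≤ N) (D : XT.XorSumDS N c)
    (hs : D.space ≤ s) :
    ((k : ℝ) ^ 2 - s * (q : ℝ) ^ 2) * (1 / 80) ≤ ∑ p : Fin k × Fin k,
      EE (q := q) (1 / (m : ℝ)) (fun x y => ind (¬ ((ct t (D.query (pos2 n q k ρ p))).out
        (D.bit (arrA2 N ρ p.1 x) (arrB2 N ρ p.2 y)) = true ↔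
          ¬ conj x.1 y.1 = zero n))) := by
  classical
  have hm' : (2 : ℝ) ≤ m := by
    have : 2 ≤ m := by omega
    exact_mod_cast this
  have hinv0 : 0 ≤ 1 / (m : ℝ) := by positivity
  have hr1 : 0 ≤ 1 - 1 / (m : ℝ) := by
    have : 1 / (m : ℝ) ≤ 1 := by
      rw [div_le_one (by linarith)]
      linarith
    linarith
  choose cz fz gz hz using fun z => decomp2 (k := k) (v := vv n q) hρ hρv hv z
  let C' : Fin c → Fin k → Fin k → ZMod 2 := fun σ i j => ∑ z ∈ D.Q σ, cz z i j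
  let J : Finset (Fin k → Fin k → ZMod 2) :=
    (Finset.univ.filter fun σ => (D.Q σ).Nonempty).image C'
  let W : Submodule (ZMod 2) (Fin k → Fin k → ZMod 2) := Submodule.span (ZMod 2) (J : Set _)
  have hW : ∀ l, C' l ∈ W := by
    intro l
    by_cases h : (D.Q l).Nonempty
    · exact Submodule.subset_span (Finset.mem_coe.2 (Finset.mem_image.2
        ⟨l, Finset.mem_filter.2 ⟨Finset.mem_univ _, h⟩, rfl⟩))
    · rw [Finset.not_nonempty_iff_eq_empty] at h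
      have : C' l = 0 := by
        funext i j
        simp [C', h]
      rw [this]
      exact Submodule.zero_mem _
  have hrank : Module.finrank (ZMod 2) W ≤ s := by
    refine (finrank_span_finset_le_card J).trans (Finset.card_image_le.trans ?_)
    refine le_trans (le_of_eq ?_) hs
    unfold XT.XorSumDS.space
    congr
  let G : Finset (Fin k × Fin k) := Finset.univ.filter fun p =>
    ∃ w ∈ W, light q w p.1 p.2 ∧ w p.1 p.2 ≠ 0
  have hG := card_good W hrank G fun p hp => (Finset.mem_filter.1 hp).2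
  have hG' : (G.card : ℝ) ≤ s * (q : ℝ) ^ 2 := by exact_mod_cast hG
  have herr : ∀ p : Fin k × Fin k, p ∉ G → (1 / 80 : ℝ) ≤
      EE (q := q) (1 / (m : ℝ)) (fun x y => ind (¬ ((ct t (D.query (pos2 n q k ρ p))).out
        (D.bit (arrA2 N ρ p.1 x) (arrB2 N ρ p.2 y)) = true ↔
          ¬ conj x.1 y.1 = zero n))) := by
    intro p hp
    let f : Fin c → AA n k q → ZMod 2 := fun σ x =>
      b2 (D.f σ (arrA2 N ρ p.1 x)) + ∑ z ∈ D.Q σ, fz z (setS p.1 x)
    let g : Fin c → AA n k q → ZMod 2 := fun σ y =>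
      b2 (D.g σ (arrB2 N ρ p.2 y)) + ∑ z ∈ D.Q σ, gz z (setT p.2 y)
    have hbit : ∀ (x y : AA n k q) (σ : Fin c),
        D.bit (arrA2 N ρ p.1 x) (arrB2 N ρ p.2 y) σ =
          decide (bt C' f g p.1 p.2 σ x y = 1) := by
      intro x y σ
      rw [← decide_b2 (D.bit (arrA2 N ρ p.1 x) (arrB2 N ρ p.2 y) σ)]
      congr 2
      unfold XT.XorSumDS.bit
      rw [b2_xor, b2_xor, b2_parity]
      have h1 : ∀ z, b2 (@decide (∃ i j : Fin N, arrA2 N ρ p.1 x i + arrB2 N ρ p.2 y j = z)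
          (Classical.propDecidable _)) =
          (∑ i, ∑ j, cz z i j * b2 (decide (meets (setS p.1 x) (setT p.2 y) i j))) +
            fz z (setS p.1 x) + gz z (setT p.2 y) := by
        intro z
        rw [← hz z]
        congr 1
        rw [decide_eq_decide]
        exact arr2_iff hρ hN _ _ _ _ z
      rw [Finset.sum_congr rfl fun z _ => h1 z]
      simp only [Finset.sum_add_distrib]
      have h2 : ∑ z ∈ D.Q σ, ∑ i, ∑ j, cz z i j *
          b2 (decide (meets (setS p.1 x) (setT p.2 y) i j)) = xc p.1 p.2 (C' σ) x y := by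
        rw [← meets_sum]
        rw [Finset.sum_comm]
        refine Finset.sum_congr rfl fun i _ => ?_
        rw [Finset.sum_comm]
        refine Finset.sum_congr rfl fun j _ => ?_
        rw [← Finset.sum_mul]
      rw [h2]
      simp only [bt, f, g]
      ring
    have h1 := pair_error (n := n) C' f g p.1 p.2 ht hm hn hqt W hW (by
      intro w hw hl
      by_contra h0
      exact hp (Finset.mem_filter.2 ⟨Finset.mem_univ _, w, hw, hl, h0⟩))
      (ct t (D.query (pos2 n q k ρ p))) (ct_dep _ _)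
    have h2 : ∀ x y : AA n k q, D.bit (arrA2 N ρ p.1 x) (arrB2 N ρ p.2 y) =
        fun l => decide (bt C' f g p.1 p.2 l x y = 1) := fun x y => funext (hbit x y)
    simp only [h2]
    exact h1
  calc ((k : ℝ) ^ 2 - s * (q : ℝ) ^ 2) * (1 / 80) ≤ ((k : ℝ) ^ 2 - G.card) * (1 / 80) := by
        apply mul_le_mul_of_nonneg_right _ (by norm_num)
        linarith
    _ = ∑ p : Fin k × Fin k, if p ∈ G then (0 : ℝ) else 1 / 80 := by
        rw [Finset.sum_ite]
        have h1 : Finset.univ.filter (fun p => ¬ p ∈ G) = Gᶜ := by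
          ext p
          simp
        rw [h1, Finset.sum_const_zero, zero_add, Finset.sum_const, Finset.card_compl,
          nsmul_eq_mul, Fintype.card_prod, Fintype.card_fin]
        rw [Nat.cast_sub (by
          have := Finset.card_le_univ G
          simpa using this)]
        push_cast
        ring
    _ ≤ _ := by
        refine Finset.sum_le_sum fun p _ => ?_
        by_cases hp : p ∈ G
        · rw [if_pos hp]
          exact EE_nonneg hinv0 hr1 fun x y => ind_nonneg _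
        · rw [if_neg hp]
          exact herr p hp

/-! ### bounds for the arrays -/

theorem VA_le {ρ v : ℕ} (hρ : 1 ≤ ρ) (hv : 2 ≤ v) (S : Fin k → Fin v → Bool) {x : ℕ}
    (hx : x ∈ VA ρ S) : x ≤ WW ρ v * (k * k) := by
  obtain ⟨i, a, ha, rfl⟩ := (VA_mem ρ S x).1 hx
  have hi := i.2
  have h1 := OA2_lt ha
  have h2 : a < WW ρ v := by
    unfold WW
    omega
  have h3 : WW ρ v * (i : ℕ) + WW ρ v ≤ WW ρ v * (k * k) := by
    calc WW ρ v * (i : ℕ) + WW ρ v = WW ρ v * ((i : ℕ) + 1) := by ring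
      _ ≤ WW ρ v * (k * k) := Nat.mul_le_mul_left _ (by nlinarith)
  omega

theorem VB_le {ρ v : ℕ} (hρ : 1 ≤ ρ) (hv : 2 ≤ v) (T : Fin k → Fin v → Bool) {x : ℕ}
    (hx : x ∈ VB ρ T) : x ≤ WW ρ v * (k * k) := by
  obtain ⟨j, b, hb, rfl⟩ := (VB_mem ρ T x).1 hx
  have hj := j.2
  have h1 := OB2_lt (by omega) hb
  have h2 : b < WW ρ v := by
    have := Nat.le_mul_self ρ
    unfold WW
    omega
  have h3 : WW ρ v * (k * (j : ℕ)) + WW ρ v ≤ WW ρ v * (k * k) := by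
    calc WW ρ v * (k * (j : ℕ)) + WW ρ v = WW ρ v * (k * (j : ℕ) + 1) := by ring
      _ ≤ WW ρ v * (k * k) := Nat.mul_le_mul_left _ (by nlinarith)
  omega

theorem cube2_le {ρ v : ℕ} (hρ : 1 ≤ ρ) (hρv : v ≤ ρ * ρ) (hk : 1 ≤ k)
    (hN : 2 * (k * ρ) ≤ N) : WW ρ v * (k * k) ≤ N ^ 3 := by
  have h0 : 1 ≤ k * ρ := Nat.one_le_iff_ne_zero.2 (by positivity)
  have h1 : (2 * (k * ρ)) ^ 2 ≤ N ^ 2 := Nat.pow_le_pow_left hN 2
  have h2 : WW ρ v ≤ 8 * (ρ * ρ) := by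
    unfold WW
    omega
  calc WW ρ v * (k * k) ≤ 8 * (ρ * ρ) * (k * k) := Nat.mul_le_mul_right _ h2
    _ = 2 * (2 * (k * ρ)) ^ 2 := by ring
    _ ≤ N * N ^ 2 := Nat.mul_le_mul (by omega) h1
    _ = N ^ 3 := by ring

/-- **Main theorem, exponent four.** -/
theorem main2 (N t c s : ℕ) (ht : 1 ≤ t) (Ω : Type) [Fintype Ω] (p : Ω → ℝ)
    (D : Ω → XT.XorSumDS N c) (hs : ∀ ω, (D ω).space ≤ s)
    (hD : XT.SumSolves p D t (49 / 100)) :
    (N : ℝ) ^ 2 ≤ 10 ^ 14 * (t : ℝ) ^ 4 * ((s : ℝ) + 1) := by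
  classical
  obtain ⟨m, hm⟩ : ∃ m : ℕ, m = 1400 * t := ⟨_, rfl⟩
  obtain ⟨n, hn⟩ : ∃ n : ℕ, n = m ^ 2 := ⟨_, rfl⟩
  obtain ⟨q, hq⟩ : ∃ q : ℕ, q = 100 * t := ⟨_, rfl⟩
  obtain ⟨ρ, hρ⟩ : ∃ ρ : ℕ, ρ = 1401 * t := ⟨_, rfl⟩
  have ht' : (1 : ℝ) ≤ t := by exact_mod_cast ht
  have hρ1 : 1 ≤ ρ := by omega
  have htt : t ≤ t ^ 2 := by nlinarith
  have htt1 : 1 ≤ t ^ 2 := Nat.one_le_pow _ _ ht
  have hn2 : n = 1960000 * t ^ 2 := by rw [hn, hm]; ring
  have hv : 2 ≤ vv n q := by unfold vv; omega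
  have hρv : vv n q ≤ ρ * ρ := by
    have h3 : ρ * ρ = 1962801 * t ^ 2 := by rw [hρ]; ring
    rw [h3]
    unfold vv
    rw [hn2, hq]
    omega
  have hs0 : (0 : ℝ) ≤ s := by positivity
  have hn' : (n : ℝ) = 1960000 * (t : ℝ) ^ 2 := by
    rw [hn2]
    push_cast
    ring
  by_cases hNn : N < 2 * n
  · have h1 : (N : ℝ) ≤ 2 * n := by exact_mod_cast hNn.le
    rw [hn'] at h1
    calc (N : ℝ) ^ 2 ≤ (2 * (1960000 * (t : ℝ) ^ 2)) ^ 2 :=
          pow_le_pow_left₀ (by positivity) h1 2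
      _ = 15366400000000 * (t : ℝ) ^ 4 * 1 := by ring
      _ ≤ 10 ^ 14 * (t : ℝ) ^ 4 * ((s : ℝ) + 1) := by
          apply mul_le_mul _ (by linarith) (by norm_num) (by positivity)
          exact mul_le_mul_of_nonneg_right (by norm_num) (by positivity)
  · push Not at hNn
    obtain ⟨k, hk⟩ : ∃ k : ℕ, k = N / (5808 * t) := ⟨_, rfl⟩
    have hkN : k * (5808 * t) ≤ N := by rw [hk]; exact Nat.div_mul_le_self _ _
    have hk1 : 1 ≤ k := by
      rw [hk, Nat.one_le_div_iff (by omega)]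
      omega
    have hN : 2 * (k * ρ) + (n + k * (q + 2)) ≤ N := by
      have h1 : 2 * (k * ρ) + k * (q + 2) ≤ k * (2904 * t) := by
        calc 2 * (k * ρ) + k * (q + 2) = k * (2 * ρ + (q + 2)) := by ring
          _ ≤ k * (2904 * t) := Nat.mul_le_mul_left _ (by omega)
      have h2 : k * (5808 * t) = 2 * (k * (2904 * t)) := by ring
      omega
    have hN2 : N ≤ (k + 1) * (5808 * t) := by
      have := Nat.lt_div_mul_add (a := N) (b := 5808 * t) (by omega)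
      rw [← hk] at this
      have h2 : (k + 1) * (5808 * t) = k * (5808 * t) + 5808 * t := by ring
      omega
    have hN2' : (N : ℝ) ≤ ((k : ℝ) + 1) * (5808 * t) := by exact_mod_cast hN2
    obtain ⟨hp, hp1, hcor⟩ := hD
    have hq1 : 1 ≤ q := by omega
    have hm2 : (2 : ℝ) ≤ m := by
      have : 2 ≤ m := by omega
      exact_mod_cast this
    have hinv0 : 0 ≤ 1 / (m : ℝ) := by positivity
    have hr1 : 0 ≤ 1 - 1 / (m : ℝ) := by
      have : 1 / (m : ℝ) ≤ 1 := by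
        rw [div_le_one (by linarith)]
        linarith
      linarith
    have hcube : WW ρ (vv n q) * (k * k) ≤ N ^ 3 := cube2_le hρ1 hρv hk1 (by omega)
    have hAle : ∀ (i0 : Fin k) (x : AA n k q) (l : Fin N), arrA2 N ρ i0 x l ≤ N ^ 3 :=
      fun i0 x l => (VA_le hρ1 hv _ (arrF_mem (x0A hρ1 i0 x) l)).trans hcube
    have hBle : ∀ (j0 : Fin k) (y : AA n k q) (l : Fin N), arrB2 N ρ j0 y l ≤ N ^ 3 :=
      fun j0 y l => (VB_le hρ1 hv _ (arrF_mem (x0B hρ1 j0 y) l)).trans hcube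
    -- wrong answers
    let wr : Ω → Fin k × Fin k → AA n k q → AA n k q → Prop := fun ω pr x y =>
      ¬ ((ct t ((D ω).query (pos2 n q k ρ pr))).out
        ((D ω).bit (arrA2 N ρ pr.1 x) (arrB2 N ρ pr.2 y)) = true ↔ ¬ conj x.1 y.1 = zero n)
    have hpt : ∀ (pr : Fin k × Fin k) (x y : AA n k q),
        ∑ ω, p ω * ind (wr ω pr x y) ≤ 1 / 100 := by
      intro pr x y
      have h1 := hcor (arrA2 N ρ pr.1 x) (arrB2 N ρ pr.2 y) (hAle _ _) (hBle _ _)
        (pos2 n q k ρ pr)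
      have h0 := pos2_iff (N := N) hρ1 hv hN pr x y
      let gd : Ω → Prop := fun ω => (((D ω).query (pos2 n q k ρ pr)).out
          ((D ω).bit (arrA2 N ρ pr.1 x) (arrB2 N ρ pr.2 y)) = true ↔
            ∃ l l' : Fin N, arrA2 N ρ pr.1 x l + arrB2 N ρ pr.2 y l' = pos2 n q k ρ pr) ∧
          ((D ω).query (pos2 n q k ρ pr)).probes
          ((D ω).bit (arrA2 N ρ pr.1 x) (arrB2 N ρ pr.2 y)) ≤ t
      have h1' : (1 / 2 + 49 / 100 : ℝ) ≤ ∑ ω, p ω * ind (gd ω) := by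
        refine h1.trans (le_of_eq ?_)
        rw [Finset.sum_filter]
        refine Finset.sum_congr rfl fun ω _ => ?_
        by_cases hg : gd ω
        · rw [if_pos hg, ind_true hg, mul_one]
        · rw [if_neg hg, ind_false hg, mul_zero]
      have h2 : ∀ ω, p ω * ind (wr ω pr x y) ≤ p ω - p ω * ind (gd ω) := by
        intro ω
        by_cases h : gd ω
        · have h3 : ¬ wr ω pr x y := by
            simp only [wr, not_not]
            rw [ct_out _ _ _ h.2, ← h0]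
            exact h.1
          rw [ind_false h3, ind_true h]
          simp
        · rw [ind_false h, mul_zero, sub_zero]
          exact mul_le_of_le_one_right (hp ω) (ind_le_one _)
      refine (Finset.sum_le_sum fun ω _ => h2 ω).trans ?_
      rw [Finset.sum_sub_distrib, hp1]
      linarith
    have hpair : ∀ pr : Fin k × Fin k, ∑ ω, p ω * EE (q := q) (1 / (m : ℝ))
        (fun x y : AA n k q => ind (wr ω pr x y)) ≤ 1 / 100 := by
      intro pr
      have e1 : ∑ ω, p ω * EE (q := q) (1 / (m : ℝ))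
          (fun x y : AA n k q => ind (wr ω pr x y)) =
          EE (1 / (m : ℝ)) (fun x y => ∑ ω, p ω * ind (wr ω pr x y)) := by
        rw [EE_sum]
        refine Finset.sum_congr rfl fun ω _ => ?_
        rw [EE_mul]
      rw [e1]
      refine (EE_mono hinv0 hr1 fun x y => hpt pr x y).trans ?_
      rw [EE_const hq1]
    have htot : ∑ pr : Fin k × Fin k, ∑ ω, p ω * EE (q := q) (1 / (m : ℝ))
        (fun x y : AA n k q => ind (wr ω pr x y)) ≤ (k : ℝ) ^ 2 * (1 / 100) := by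
      refine (Finset.sum_le_sum fun pr _ => hpair pr).trans (le_of_eq ?_)
      rw [Finset.sum_const, Finset.card_univ, Fintype.card_prod, Fintype.card_fin, nsmul_eq_mul]
      push_cast
      ring
    rw [Finset.sum_comm] at htot
    have hlow : ∀ ω, p ω * (((k : ℝ) ^ 2 - s * (q : ℝ) ^ 2) * (1 / 80)) ≤
        ∑ pr : Fin k × Fin k, p ω * EE (q := q) (1 / (m : ℝ))
        (fun x y : AA n k q => ind (wr ω pr x y)) := by
      intro ω
      rw [← Finset.mul_sum]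
      exact mul_le_mul_of_nonneg_left
        (sum_error2 ht hm hn hq hρ1 hρv hv hN (D ω) (hs ω)) (hp ω)
    have hlow2 : ((k : ℝ) ^ 2 - s * (q : ℝ) ^ 2) * (1 / 80) ≤ (k : ℝ) ^ 2 * (1 / 100) := by
      refine le_trans ?_ htot
      refine le_trans (le_of_eq ?_) (Finset.sum_le_sum fun ω _ => hlow ω)
      rw [← Finset.sum_mul, hp1, one_mul]
    have hk2 : (k : ℝ) ^ 2 ≤ 5 * (s * (q : ℝ) ^ 2) := by linarith
    have hk1' : (1 : ℝ) ≤ k := by exact_mod_cast hk1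
    have hN4 : (N : ℝ) ≤ 11616 * (t : ℝ) * k := by
      refine hN2'.trans ?_
      have : (k : ℝ) + 1 ≤ 2 * k := by linarith
      calc ((k : ℝ) + 1) * (5808 * (t : ℝ)) ≤ 2 * k * (5808 * (t : ℝ)) :=
            mul_le_mul_of_nonneg_right this (by positivity)
        _ = _ := by ring
    have hq' : (q : ℝ) = 100 * t := by rw [hq]; push_cast; ring
    calc (N : ℝ) ^ 2 ≤ (11616 * (t : ℝ) * k) ^ 2 := pow_le_pow_left₀ (by positivity) hN4 2
      _ = 134931456 * (t : ℝ) ^ 2 * (k : ℝ) ^ 2 := by ring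
      _ ≤ 134931456 * (t : ℝ) ^ 2 * (5 * (s * (q : ℝ) ^ 2)) :=
          mul_le_mul_of_nonneg_left hk2 (by positivity)
      _ = 6746572800000 * (t : ℝ) ^ 4 * s := by rw [hq']; ring
      _ ≤ 10 ^ 14 * (t : ℝ) ^ 4 * s := by
          apply mul_le_mul_of_nonneg_right _ hs0
          apply mul_le_mul_of_nonneg_right _ (by positivity)
          norm_num
      _ ≤ _ := mul_le_mul_of_nonneg_left (by linarith) (by positivity)

/-- **Main theorem, exponent four, any advantage.** -/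
theorem main2_delta (N t c s : ℕ) (ht : 1 ≤ t) (δ : ℝ) (hδ : 0 < δ) (hδ2 : δ ≤ 1 / 2)
    (Ω : Type) [Fintype Ω] (p : Ω → ℝ) (D : Ω → XT.XorSumDS N c) (hs : ∀ ω, (D ω).space ≤ s)
    (hD : XT.SumSolves p D t δ) :
    δ ^ 10 * (N : ℝ) ^ 2 ≤ 10 ^ 22 * (t : ℝ) ^ 4 * ((s : ℝ) + 1) := by
  obtain ⟨r, hr⟩ : ∃ r : ℕ, r = ⌈25 / δ ^ 2⌉₊ := ⟨_, rfl⟩
  have hr1 : 25 / δ ^ 2 ≤ (r : ℝ) := by rw [hr]; exact Nat.le_ceil _
  have hδ3 : 0 < δ ^ 2 := by positivity
  have hr2 : (r : ℝ) ≤ 26 / δ ^ 2 := by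
    have h1 := Nat.ceil_lt_add_one (show (0 : ℝ) ≤ 25 / δ ^ 2 by positivity)
    rw [← hr] at h1
    have h2 : (1 : ℝ) ≤ 1 / δ ^ 2 := by
      rw [le_div_iff₀ hδ3]
      nlinarith
    have h3 : 26 / δ ^ 2 = 25 / δ ^ 2 + 1 / δ ^ 2 := by ring
    linarith
  have hrpos : 1 ≤ r := by
    have : (0 : ℝ) < r := lt_of_lt_of_le (by positivity) hr1
    have : 0 < r := by exact_mod_cast this
    omega
  have h := main2 N (r * t) (r * c) (r * s) (Nat.one_le_iff_ne_zero.2 (by positivity))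
    (Fin r → Ω) (fun ω => ∏ l, p (ω l)) (fun ω => ampDS t r fun i => D (ω i))
    (fun ω => ampDS_space t r _ fun i => hs _) (amp_solves p D hδ hr1 hD)
  push_cast at h
  have hr3 : (1 : ℝ) ≤ r := by exact_mod_cast hrpos
  have hs0 : (0 : ℝ) ≤ s := by positivity
  have h1 : (r : ℝ) * s + 1 ≤ r * (s + 1) := by nlinarith
  have h2 : (N : ℝ) ^ 2 ≤ 10 ^ 14 * (r : ℝ) ^ 5 * ((t : ℝ) ^ 4 * (s + 1)) := by
    refine h.trans ?_
    calc 10 ^ 14 * ((r : ℝ) * t) ^ 4 * (r * s + 1) ≤ 10 ^ 14 * ((r : ℝ) * t) ^ 4 * (r * (s + 1)) :=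
          mul_le_mul_of_nonneg_left h1 (by positivity)
      _ = _ := by ring
  have h3 : δ ^ 10 * (r : ℝ) ^ 5 ≤ 26 ^ 5 := by
    calc δ ^ 10 * (r : ℝ) ^ 5 = (δ ^ 2 * r) ^ 5 := by ring
      _ ≤ 26 ^ 5 := by
          apply pow_le_pow_left₀ (by positivity)
          rw [le_div_iff₀ hδ3] at hr2
          linarith
  have h4 : (0 : ℝ) ≤ (t : ℝ) ^ 4 * (s + 1) := by positivity
  calc δ ^ 10 * (N : ℝ) ^ 2 ≤ δ ^ 10 * (10 ^ 14 * (r : ℝ) ^ 5 * ((t : ℝ) ^ 4 * (s + 1))) :=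
        mul_le_mul_of_nonneg_left h2 (by positivity)
    _ = 10 ^ 14 * (δ ^ 10 * (r : ℝ) ^ 5) * ((t : ℝ) ^ 4 * (s + 1)) := by ring
    _ ≤ 10 ^ 14 * 26 ^ 5 * ((t : ℝ) ^ 4 * (s + 1)) := by
        apply mul_le_mul_of_nonneg_right _ h4
        exact mul_le_mul_of_nonneg_left h3 (by positivity)
    _ ≤ 10 ^ 22 * ((t : ℝ) ^ 4 * (s + 1)) := mul_le_mul_of_nonneg_right (by norm_num) h4
    _ = _ := by ring

end Pool.Agent.N631.SX
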