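import Pool.Agent.N631.SX.Main2
import Pool.Agent.N631.SX.Sim

/-!
# Cells for 3SUM-Indexing: main theorem (helper631)
-/

set_option autoImplicit false

namespace Pool.Agent.N631.SX

open Pool.Agent.R563

/-- **Main theorem for cells.** -/
theorem main3 (N t c s r d : ℕ) (Γ : Type) (ht : 1 ≤ t) (hr : 1 ≤ r) (δ : ℝ) (hδ : 0 < δ)
    (hδ2 : δ ≤ 1 / 2) (Ω : Type) [Fintype Ω] (p : Ω → ℝ) (D : Ω → CellDS N c r d Γ)
    (hs : ∀ ω, (D ω).space ≤ s) (hD : CellSolves p D t δ) :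
    δ ^ 10 * (N : ℝ) ^ 2 ≤ 10 ^ 22 * (((r : ℝ) + d) * t) ^ 4 * (r * s + 1) := by
  classical
  obtain ⟨hp, hp1, hcor⟩ := hD
  have h := main2_delta N ((r + d) * t) _ (r * s) (Nat.one_le_iff_ne_zero.2 (by positivity)) δ hδ hδ2
    Ω p (fun ω => simDS (D ω)) (fun ω => simDS_space (D ω) (hs ω)) ⟨hp, hp1, by
      intro A B hA hB z
      refine (hcor A B hA hB z).trans ?_
      refine Finset.sum_le_sum_of_subset_of_nonneg ?_ fun ω _ _ => hp ω
      intro ω hω
      rw [Finset.mem_filter] at hω ⊢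
      refine ⟨Finset.mem_univ _, ?_, ?_⟩
      · rw [simDS_out]
        exact hω.2.1
      · rw [simDS_probes]
        exact Nat.mul_le_mul_left _ hω.2.2⟩
  push_cast at h
  exact h

end Pool.Agent.N631.SX
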