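import Pool.Agent.N631.SX.Heavy3
import Pool.Agent.N631.LX.Path

/-!
# The corruption bound for a path of a decision tree, exclusive ors of answers (helper631)
-/

set_option autoImplicit false

namespace Pool.Agent.N631.SX

open Pool.Agent.W959 Pool.Agent.W959.Ent Pool.Agent.TH457.EntD Pool.Agent.N631.LX

variable {k q n : ℕ}

/-- the data of one side -/
abbrev AA (n k q : ℕ) := (Fin n → Bool) × U k q

/-- the expectation over the hard distribution -/
noncomputable def EE (r : ℝ) (h : AA n k q → AA n k q → ℝ) : ℝ :=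
  ((Fintype.card (U k q) : ℝ)⁻¹) ^ 2 * ∑ u : U k q, ∑ w : U k q,
    ex2 r n fun X Y => h (X, u) (Y, w)

section lin

variable {r : ℝ}

theorem EE_add (f g : AA n k q → AA n k q → ℝ) :
    EE r (fun x y => f x y + g x y) = EE r f + EE r g := by
  simp only [EE, ex2_add, Finset.sum_add_distrib, mul_add]

theorem EE_mul (c : ℝ) (f : AA n k q → AA n k q → ℝ) :
    EE r (fun x y => c * f x y) = c * EE r f := by
  simp only [EE, ex2_mul, ← Finset.mul_sum]
  ring

theorem EE_sum {ι : Type} (s : Finset ι) (f : ι → AA n k q → AA n k q → ℝ) :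
    EE r (fun x y => ∑ i ∈ s, f i x y) = ∑ i ∈ s, EE r (f i) := by
  simp only [EE, ex2_sum, ← Finset.mul_sum]
  congr 1
  rw [Finset.sum_congr rfl fun u _ => Finset.sum_comm, Finset.sum_comm]

theorem EE_mono (h0 : 0 ≤ r) (h1 : 0 ≤ 1 - r) {f g : AA n k q → AA n k q → ℝ}
    (h : ∀ x y, f x y ≤ g x y) : EE r f ≤ EE r g := by
  apply mul_le_mul_of_nonneg_left _ (by positivity)
  exact Finset.sum_le_sum fun u _ => Finset.sum_le_sum fun w _ => ex2_mono h0 h1 n fun X Y => h _ _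

theorem card_pos (hq : 1 ≤ q) : (0 : ℝ) < Fintype.card (U k q) := by
  haveI : Nonempty (Fin q) := ⟨⟨0, by omega⟩⟩
  exact_mod_cast Fintype.card_pos

theorem EE_const (hq : 1 ≤ q) (c : ℝ) : EE (n := n) (k := k) (q := q) r (fun _ _ => c) = c := by
  have h := card_pos (k := k) hq
  simp only [EE, ex2_const, Finset.sum_const, Finset.card_univ, nsmul_eq_mul]
  field_simp

theorem EE_nonneg (h0 : 0 ≤ r) (h1 : 0 ≤ 1 - r) {f : AA n k q → AA n k q → ℝ}
    (h : ∀ x y, 0 ≤ f x y) : 0 ≤ EE r f := by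
  apply mul_nonneg (by positivity)
  exact Finset.sum_nonneg fun u _ => Finset.sum_nonneg fun w _ => ex2_nonneg h0 h1 n fun X Y => h _ _

end lin

/-- the exclusive or of the answers -/
noncomputable def xc (i0 j0 : Fin k) (c : Fin k → Fin k → ZMod 2) (x y : AA n k q) : ZMod 2 :=
  c i0 j0 * b2 (decide (conj x.1 y.1 ≠ zero n)) +
    ∑ i, ∑ j, c i j * b2 (zz i0 j0 x.2 y.2 i j)

theorem xc_add (i0 j0 : Fin k) (c c' : Fin k → Fin k → ZMod 2) (x y : AA n k q) :
    xc i0 j0 (c + c') x y = xc i0 j0 c x y + xc i0 j0 c' x y := by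
  simp only [xc, Pi.add_apply, add_mul, Finset.sum_add_distrib]
  ring

theorem xc_smul (i0 j0 : Fin k) (a : ZMod 2) (c : Fin k → Fin k → ZMod 2) (x y : AA n k q) :
    xc i0 j0 (fun i j => a * c i j) x y = a * xc i0 j0 c x y := by
  simp only [xc, mul_add, Finset.mul_sum, mul_assoc]

theorem xc_zero (i0 j0 : Fin k) (x y : AA n k q) : xc i0 j0 (fun _ _ => 0) x y = 0 := by
  simp [xc]

theorem xc_sum {ι : Type} (i0 j0 : Fin k) (s : Finset ι) (c : ι → Fin k → Fin k → ZMod 2)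
    (x y : AA n k q) :
    xc i0 j0 (fun i j => ∑ l ∈ s, c l i j) x y = ∑ l ∈ s, xc i0 j0 (c l) x y := by
  classical
  induction s using Finset.induction_on with
  | empty => simp [xc_zero]
  | insert a s ha ih =>
    simp only [Finset.sum_insert ha]
    rw [← ih, ← xc_add]
    rfl

section path

variable {d : ℕ} (c : Fin d → Fin k → Fin k → ZMod 2) (f g : Fin d → AA n k q → ZMod 2)
  (i0 j0 : Fin k)

/-- the value of bit number `l` of the path, plus its value on the path -/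
noncomputable def bt (l : Fin d) (x y : AA n k q) : ZMod 2 := f l x + g l y + xc i0 j0 (c l) x y

/-- a linear combination of the coefficients -/
def cL (L : Fin d → ZMod 2) : Fin k → Fin k → ZMod 2 :=
  fun i j => ∑ l, L l * c l i j

/-- a linear combination of the bits -/
noncomputable def aL (L : Fin d → ZMod 2) (x y : AA n k q) : ZMod 2 :=
  ∑ l, L l * bt c f g i0 j0 l x y

theorem aL_eq (L : Fin d → ZMod 2) (x y : AA n k q) :
    aL c f g i0 j0 L x y = ∑ l, L l * f l x + ∑ l, L l * g l y + xc i0 j0 (cL c L) x y := by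
  unfold aL bt cL
  rw [xc_sum]
  simp only [xc_smul]
  rw [← Finset.sum_add_distrib, ← Finset.sum_add_distrib]
  refine Finset.sum_congr rfl fun l _ => ?_
  ring

theorem heavy_bound {r ε : ℝ} (h0 : 0 ≤ r) (h1 : 0 ≤ 1 - r) (hε : 0 ≤ ε) (hq : 1 ≤ q)
    (hε2 : (7 / 10 : ℝ) ^ q ≤ ε ^ 2) (Φ : (Fin n → Bool) → (Fin n → Bool) → ℝ)
    (hΦ : ∀ X Y, |Φ X Y| ≤ 1) (L : Fin d → ZMod 2) (hL : ¬ light q (cL c L) i0 j0) :
    |EE r (fun x y => chi (aL c f g i0 j0 L x y) * Φ x.1 y.1)| ≤ ε := by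
  have hN := card_pos (k := k) hq
  have e1 : EE r (fun x y => chi (aL c f g i0 j0 L x y) * Φ x.1 y.1) =
      ex2 r n fun X Y => ((Fintype.card (U k q) : ℝ)⁻¹) ^ 2 * ∑ u : U k q, ∑ w : U k q,
        chi (aL c f g i0 j0 L (X, u) (Y, w)) * Φ X Y := by
    unfold EE
    rw [ex2_mul, ex2_sum]
    congr 1
    refine Finset.sum_congr rfl fun u _ => ?_
    rw [ex2_sum]
  have h2 : ∀ X Y : Fin n → Bool, |((Fintype.card (U k q) : ℝ)⁻¹) ^ 2 *
      ∑ u : U k q, ∑ w : U k q, chi (aL c f g i0 j0 L (X, u) (Y, w)) * Φ X Y| ≤ ε := by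
    intro X Y
    have h3 := heavy (cL c L) i0 j0 hq hL hε hε2 (fun u => chi (∑ l, L l * f l (X, u)))
      (fun w => chi (∑ l, L l * g l (Y, w))) (fun u => (chi_abs _).le) (fun w => (chi_abs _).le)
    have e2 : ∀ u w : U k q, chi (aL c f g i0 j0 L (X, u) (Y, w)) * Φ X Y =
        (chi (cL c L i0 j0 * b2 (decide (conj X Y ≠ zero n))) * Φ X Y) *
        (chi (∑ l, L l * f l (X, u)) * chi (∑ l, L l * g l (Y, w)) *
          chi (∑ i, ∑ j, cL c L i j * b2 (zz i0 j0 u w i j))) := by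
      intro u w
      rw [aL_eq, chi_add, chi_add]
      unfold xc
      rw [chi_add]
      ring
    simp only [e2, ← Finset.mul_sum]
    rw [abs_mul, abs_mul, abs_mul, chi_abs, one_mul, abs_of_nonneg (by positivity :
      (0 : ℝ) ≤ ((Fintype.card (U k q) : ℝ)⁻¹) ^ 2)]
    calc _ ≤ ((Fintype.card (U k q) : ℝ)⁻¹) ^ 2 * (1 * ((Fintype.card (U k q) : ℝ) ^ 2 * ε)) := by
          apply mul_le_mul_of_nonneg_left _ (by positivity)
          exact mul_le_mul (hΦ X Y) h3 (abs_nonneg _) (by norm_num)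
      _ = ε := by field_simp
  rw [e1]
  rw [abs_le]
  constructor
  · have := ex2_mono h0 h1 n (f := fun _ _ => -ε) (g := fun X Y =>
      ((Fintype.card (U k q) : ℝ)⁻¹) ^ 2 *
      ∑ u : U k q, ∑ w : U k q, chi (aL c f g i0 j0 L (X, u) (Y, w)) * Φ X Y)
      (fun X Y => (abs_le.1 (h2 X Y)).1)
    rwa [ex2_const] at this
  · have := ex2_mono h0 h1 n (g := fun _ _ => ε) (f := fun X Y =>
      ((Fintype.card (U k q) : ℝ)⁻¹) ^ 2 *
      ∑ u : U k q, ∑ w : U k q, chi (aL c f g i0 j0 L (X, u) (Y, w)) * Φ X Y)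
      (fun X Y => (abs_le.1 (h2 X Y)).2)
    rwa [ex2_const] at this

/-- elimination of the heavy combinations -/
theorem split {r ε : ℝ}
    (S : Submodule (ZMod 2) (Fin d → ZMod 2)) (Φ : AA n k q → AA n k q → ℝ) (hε : 0 ≤ ε)
    (h : ∀ L, L ∉ S → |EE r (fun x y => chi (aL c f g i0 j0 L x y) * Φ x y)| ≤ ε) :
    ∃ θ : ℝ, 0 ≤ θ ∧ θ ≤ 1 ∧
      (open Classical in θ = ((Finset.univ.filter (· ∈ S)).card : ℝ) / 2 ^ d) ∧
      |EE r (fun x y => ind (∀ l, bt c f g i0 j0 l x y = 0) * Φ x y) -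
        θ * EE r (fun x y => ind (∀ L ∈ S, aL c f g i0 j0 L x y = 0) * Φ x y)| ≤ ε := by
  classical
  have h2 : (0 : ℝ) < 2 ^ d := by positivity
  have hcard : Fintype.card (Fin d → ZMod 2) = 2 ^ d := by simp [ZMod.card]
  have hle : ((Finset.univ.filter (· ∈ S)).card : ℝ) ≤ 2 ^ d := by
    have := Finset.card_filter_le (Finset.univ : Finset (Fin d → ZMod 2)) (· ∈ S)
    rw [Finset.card_univ, hcard] at this
    exact_mod_cast this
  refine ⟨((Finset.univ.filter (· ∈ S)).card : ℝ) / 2 ^ d, by positivity,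
    (div_le_one h2).2 hle, rfl, ?_⟩
  have e1 : (2 : ℝ) ^ d * EE r (fun x y => ind (∀ l, bt c f g i0 j0 l x y = 0) * Φ x y) =
      ∑ L, EE r (fun x y => chi (aL c f g i0 j0 L x y) * Φ x y) := by
    rw [← EE_mul, ← EE_sum]
    congr 1
    funext x y
    rw [← mul_assoc, ind_zero_eq, Finset.sum_mul]
    rfl
  have e2 : ((Finset.univ.filter (· ∈ S)).card : ℝ) *
      EE r (fun x y => ind (∀ L ∈ S, aL c f g i0 j0 L x y = 0) * Φ x y) =
      ∑ L ∈ Finset.univ.filter (· ∈ S),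
        EE r (fun x y => chi (aL c f g i0 j0 L x y) * Φ x y) := by
    rw [← EE_mul, ← EE_sum]
    congr 1
    funext x y
    rw [← mul_assoc]
    have := chi_submodule S (fun l => bt c f g i0 j0 l x y)
    unfold aL
    rw [← this, Finset.sum_mul]
  have e3 : (2 : ℝ) ^ d * (EE r (fun x y => ind (∀ l, bt c f g i0 j0 l x y = 0) * Φ x y) -
        ((Finset.univ.filter (· ∈ S)).card : ℝ) / 2 ^ d *
          EE r (fun x y => ind (∀ L ∈ S, aL c f g i0 j0 L x y = 0) * Φ x y)) =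
      ∑ L ∈ Finset.univ.filter (fun L => ¬ L ∈ S),
        EE r (fun x y => chi (aL c f g i0 j0 L x y) * Φ x y) := by
    rw [mul_sub, e1, ← mul_assoc, mul_div_cancel₀ _ h2.ne', e2,
      ← Finset.sum_filter_add_sum_filter_not Finset.univ (· ∈ S)]
    ring
  have e4 : |(2 : ℝ) ^ d * (EE r (fun x y => ind (∀ l, bt c f g i0 j0 l x y = 0) * Φ x y) -
        ((Finset.univ.filter (· ∈ S)).card : ℝ) / 2 ^ d *
          EE r (fun x y => ind (∀ L ∈ S, aL c f g i0 j0 L x y = 0) * Φ x y))| ≤ 2 ^ d * ε := by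
    rw [e3]
    refine (Finset.abs_sum_le_sum_abs _ _).trans ?_
    refine (Finset.sum_le_sum (g := fun _ => ε) fun L hL => h L (Finset.mem_filter.1 hL).2).trans ?_
    rw [Finset.sum_const, nsmul_eq_mul]
    apply mul_le_mul_of_nonneg_right _ hε
    have := Finset.card_filter_le (Finset.univ : Finset (Fin d → ZMod 2)) (fun L => ¬ L ∈ S)
    rw [Finset.card_univ, hcard] at this
    exact_mod_cast this
  rw [abs_mul, abs_of_pos h2] at e4
  exact le_of_mul_le_mul_left e4 h2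

/-- **The corruption bound for a path.** -/
theorem path {m : ℕ} (hm : 10 ≤ m) (hq : 1 ≤ q)
    (hgood : ∀ L : Fin d → ZMod 2, light q (cL c L) i0 j0 → cL c L i0 j0 = 0)
    {α β ε : ℝ} (hα : 0 ≤ α) (hβ : 0 ≤ β) (hε : 0 ≤ ε) (hε2 : (7 / 10 : ℝ) ^ q ≤ ε ^ 2)
    (hP : ∀ P : ℝ, 0 ≤ P → P ^ (1 / (1 + 1 / (m : ℝ))) ≤ α * P + β) :
    EE (1 / (m : ℝ)) (fun x y => ind (∀ l, bt c f g i0 j0 l x y = 0) *
        ind (conj x.1 y.1 = zero n)) ≤
      (1 - 1 / (22 * (m : ℝ) ^ 2)) ^ n *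
        (α * (EE (1 / (m : ℝ)) (fun x y => ind (∀ l, bt c f g i0 j0 l x y = 0)) + ε) +
          β * 2 ^ d) + ε := by
  classical
  have hm' : (10 : ℝ) ≤ m := by exact_mod_cast hm
  have hm0 : (0 : ℝ) < m := by linarith
  have hinv : 1 / (m : ℝ) ≤ 1 / 10 := by
    apply one_div_le_one_div_of_le <;> linarith
  have hinv0 : 0 ≤ 1 / (m : ℝ) := by positivity
  have hr1 : 0 ≤ 1 - 1 / (m : ℝ) := by linarith
  have hg0 : 0 ≤ 1 - 1 / (22 * (m : ℝ) ^ 2) := by
    have : 1 / (22 * (m : ℝ) ^ 2) ≤ 1 := by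
      rw [div_le_one (by positivity)]
      nlinarith
    linarith
  have hγ : 0 ≤ (1 - 1 / (22 * (m : ℝ) ^ 2)) ^ n := pow_nonneg hg0 _
  let UU : Set (Fin d → ZMod 2) := {L | light q (cL c L) i0 j0}
  let S : Submodule (ZMod 2) (Fin d → ZMod 2) := Submodule.span (ZMod 2) UU
  have hS : ∀ L, L ∉ S → ¬ light q (cL c L) i0 j0 := by
    intro L hL hn
    exact hL (Submodule.subset_span hn)
  obtain ⟨θ, hθ0, hθ1, hθ, h1⟩ := split c f g i0 j0 (r := 1 / (m : ℝ)) S
    (fun x y => ind (conj x.1 y.1 = zero n)) hε (fun L hL =>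
      heavy_bound c f g i0 j0 hinv0 hr1 hε hq hε2 (fun X Y => ind (conj X Y = zero n))
        (fun X Y => by rw [abs_of_nonneg (ind_nonneg _)]; exact ind_le_one _) L (hS L hL))
  obtain ⟨θ', -, -, hθ', h2⟩ := split c f g i0 j0 (r := 1 / (m : ℝ)) S
    (fun _ _ => 1) hε (fun L hL =>
      heavy_bound c f g i0 j0 hinv0 hr1 hε hq hε2 (fun X Y => 1)
        (fun X Y => by simp) L (hS L hL))
  rw [← hθ'.trans hθ.symm] at h1 hθ0 hθ1
  simp only [mul_one] at h2
  -- generators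
  obtain ⟨b, hbU, hbspan, hbli⟩ := exists_linearIndependent (ZMod 2) UU
  haveI : Fintype b := Fintype.ofFinite b
  have hbcard : Fintype.card b ≤ d := by
    have := hbli.fintype_card_le_finrank
    simpa using this
  let e := Fintype.equivFin b
  let a' : AA n k q → AA n k q → Fin (Fintype.card b) → ZMod 2 :=
    fun x y l => aL c f g i0 j0 (e.symm l).1 x y
  have hev : ∀ x y, (∀ L ∈ S, aL c f g i0 j0 L x y = 0) ↔ a' x y = 0 := by
    intro x y
    constructor
    · intro h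
      funext l
      exact h _ (Submodule.subset_span (hbU (e.symm l).2))
    · intro h L hL
      have hL' : L ∈ Submodule.span (ZMod 2) b := by
        rw [hbspan]
        exact hL
      induction hL' using Submodule.span_induction with
      | mem L' hL' =>
        have := congrFun h (e ⟨L', hL'⟩)
        simpa [a'] using this
      | zero => simp [aL]
      | add L1 L2 hL1 hL2 ih1 ih2 =>
        have i1 := ih1 (by rw [hbspan] at hL1; exact hL1)
        have i2 := ih2 (by rw [hbspan] at hL2; exact hL2)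
        unfold aL at i1 i2 ⊢
        simp only [Pi.add_apply, add_mul, Finset.sum_add_distrib, i1, i2, add_zero]
      | smul z L1 hL1 ih1 =>
        have i1 := ih1 (by rw [hbspan] at hL1; exact hL1)
        unfold aL at i1 ⊢
        simp only [Pi.smul_apply, smul_eq_mul, mul_assoc, ← Finset.mul_sum, i1, mul_zero]
  have hc0 : ∀ l : Fin (Fintype.card b), cL c (e.symm l).1 i0 j0 = 0 :=
    fun l => hgood _ (hbU (e.symm l).2)
  -- corruption
  have h3 : EE (1 / (m : ℝ)) (fun x y => ind (∀ L ∈ S, aL c f g i0 j0 L x y = 0) *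
      ind (conj x.1 y.1 = zero n)) ≤ (1 - 1 / (22 * (m : ℝ) ^ 2)) ^ n *
      (α * EE (1 / (m : ℝ)) (fun x y => ind (∀ L ∈ S, aL c f g i0 j0 L x y = 0)) +
        β * 2 ^ d) := by
    have h4 : ∀ u w : U k q,
        ex2 (1 / (m : ℝ)) n (fun X Y => ind (∀ L ∈ S, aL c f g i0 j0 L (X, u) (Y, w) = 0) *
          ind (conj X Y = zero n)) ≤ (1 - 1 / (22 * (m : ℝ) ^ 2)) ^ n *
        (α * ex2 (1 / (m : ℝ)) n (fun X Y =>
          ind (∀ L ∈ S, aL c f g i0 j0 L (X, u) (Y, w) = 0)) + β * 2 ^ d) := by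
      intro u w
      have h5 := corrupt hm (d := Fintype.card b) (v := n)
        (fun X Y => a' (X, u) (Y, w)) (fun _ => false)
        (by
          intro x x0 y y0 _ _
          funext l
          simp only [a', Pi.add_apply]
          rw [aL_eq, aL_eq, aL_eq, aL_eq]
          simp only [xc, hc0 l, zero_mul, zero_add]
          rw [z2c (∑ l', (e.symm l).1 l' * f l' (x, u))
            (∑ l', (e.symm l).1 l' * g l' (y, w))
            (∑ l', (e.symm l).1 l' * f l' (x0, u))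
            (∑ l', (e.symm l).1 l' * g l' (y0, w))]
          generalize (∑ i, ∑ j, cL c (e.symm l).1 i j * b2 (zz i0 j0 u w i j)) = z
          have : z = z + z + z := by
            revert z
            decide
          rw [show ∀ p q r s : ZMod 2, p + s + (r + q) + (r + s) + z =
            p + s + (r + q) + (r + s) + (z + z + z) by intro p q r s; rw [← this]]
          ring) (by simp) hβ hα hP
      have e5 : ∀ X Y : Fin n → Bool,
          ind (∀ L ∈ S, aL c f g i0 j0 L (X, u) (Y, w) = 0) =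
          ind (a' (X, u) (Y, w) = 0) := by
        intro X Y
        congr 1
        exact propext (hev _ _)
      simp only [e5, ind_and]
      refine h5.trans ?_
      apply mul_le_mul_of_nonneg_left _ hγ
      have h6 : β * 2 ^ Fintype.card b ≤ β * 2 ^ d :=
        mul_le_mul_of_nonneg_left (pow_le_pow_right₀ (by norm_num) hbcard) hβ
      linarith
    have h7 : EE (1 / (m : ℝ)) (fun x y => ind (∀ L ∈ S, aL c f g i0 j0 L x y = 0) *
      ind (conj x.1 y.1 = zero n)) ≤ ((Fintype.card (U k q) : ℝ)⁻¹) ^ 2 *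
        ∑ u : U k q, ∑ w : U k q, (1 - 1 / (22 * (m : ℝ) ^ 2)) ^ n *
        (α * ex2 (1 / (m : ℝ)) n (fun X Y =>
          ind (∀ L ∈ S, aL c f g i0 j0 L (X, u) (Y, w) = 0)) + β * 2 ^ d) := by
      apply mul_le_mul_of_nonneg_left _ (by positivity)
      exact Finset.sum_le_sum fun u _ => Finset.sum_le_sum fun w _ => h4 u w
    refine h7.trans (le_of_eq ?_)
    unfold EE
    simp only [← Finset.mul_sum, Finset.sum_add_distrib, Finset.sum_const, Finset.card_univ,
      nsmul_eq_mul]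
    have hN := card_pos (k := k) hq
    field_simp
  have h4 := (abs_le.1 h1).2
  have h5 := (abs_le.1 h2).1
  have h6 : θ' * EE (1 / (m : ℝ)) (fun x y => ind (∀ L ∈ S, aL c f g i0 j0 L x y = 0) *
      ind (conj x.1 y.1 = zero n)) ≤ (1 - 1 / (22 * (m : ℝ) ^ 2)) ^ n *
      (α * (θ' * EE (1 / (m : ℝ)) (fun x y => ind (∀ L ∈ S, aL c f g i0 j0 L x y = 0))) +
        β * 2 ^ d) := by
    calc _ ≤ θ' * ((1 - 1 / (22 * (m : ℝ) ^ 2)) ^ n *
      (α * EE (1 / (m : ℝ)) (fun x y => ind (∀ L ∈ S, aL c f g i0 j0 L x y = 0)) +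
        β * 2 ^ d)) := mul_le_mul_of_nonneg_left h3 hθ0
      _ = (1 - 1 / (22 * (m : ℝ) ^ 2)) ^ n *
      (α * (θ' * EE (1 / (m : ℝ)) (fun x y => ind (∀ L ∈ S, aL c f g i0 j0 L x y = 0))) +
        θ' * (β * 2 ^ d)) := by ring
      _ ≤ _ := by
        apply mul_le_mul_of_nonneg_left _ hγ
        have : θ' * (β * 2 ^ d) ≤ 1 * (β * 2 ^ d) :=
          mul_le_mul_of_nonneg_right hθ1 (by positivity)
        linarith
  have h7 : (1 - 1 / (22 * (m : ℝ) ^ 2)) ^ n *
      (α * (θ' * EE (1 / (m : ℝ)) (fun x y => ind (∀ L ∈ S, aL c f g i0 j0 L x y = 0))) +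
        β * 2 ^ d) ≤ (1 - 1 / (22 * (m : ℝ) ^ 2)) ^ n *
        (α * (EE (1 / (m : ℝ)) (fun x y => ind (∀ l, bt c f g i0 j0 l x y = 0)) + ε) +
          β * 2 ^ d) := by
    apply mul_le_mul_of_nonneg_left _ hγ
    have := mul_le_mul_of_nonneg_left (a := α) (by linarith : θ' * EE (1 / (m : ℝ))
      (fun x y => ind (∀ L ∈ S, aL c f g i0 j0 L x y = 0)) ≤
      EE (1 / (m : ℝ)) (fun x y => ind (∀ l, bt c f g i0 j0 l x y = 0)) + ε) hα
    linarith
  linarith

end path

end Pool.Agent.N631.SX
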