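import Pool.Agent.N631.SX.CDefs

/-!
# Reachability oracles made from exclusive ors of answers and protocols: definitions (helper631)
-/

set_option autoImplicit false

namespace Pool.Agent.N631.SX

open Pool.Agent.R563

/-- there is a directed path from `x` to `y` in the graph with the set `E` of arcs -/
def Reach {n : ℕ} (E : Finset (Fin n × Fin n)) (x y : Fin n) : Prop :=
  Relation.ReflTransGen (fun a b => (a, b) ∈ E) x y

/-- the arcs with a tail less than `n / 2` -/
def lowE {n : ℕ} (E : Finset (Fin n × Fin n)) : Finset (Fin n × Fin n) :=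
  E.filter fun e => 2 * (e.1 : ℕ) < n

/-- the arcs with a tail at least `n / 2` -/
def highE {n : ℕ} (E : Finset (Fin n × Fin n)) : Finset (Fin n × Fin n) :=
  E.filter fun e => ¬ 2 * (e.1 : ℕ) < n

/-- A reachability oracle for directed graphs with the vertices `0, …, n - 1`, with `c` cells. The
contents of the cell `σ` are an arbitrary function `make σ` of `r` bits and of the `d` bits of a
protocol of two players who know the arcs with a tail less than `n / 2` and the other arcs. The bit `l`
is the exclusive or of the answers to the queries in `P σ l` (is there a path from `x` to `y`?), of an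
arbitrary function `f σ l` of the arcs with a tail less than `n / 2` and of an arbitrary function
`g σ l` of the other arcs. The query `(x, y)` reads cells adaptively. -/
structure RCell (n c r d : ℕ) (Γ : Type) where
  P : Fin c → Fin r → Finset (Fin n × Fin n)
  f : Fin c → Fin r → Finset (Fin n × Fin n) → Bool
  g : Fin c → Fin r → Finset (Fin n × Fin n) → Bool
  talk : Fin c → Talk (Finset (Fin n × Fin n)) (Finset (Fin n × Fin n))
  make : Fin c → (Fin r → Bool) → List Bool → Γ
  query : Fin n → Fin n → CTree c Γ

/-- the bit `l` of the cell `σ` -/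
noncomputable def RCell.bit {n c r d : ℕ} {Γ : Type} (D : RCell n c r d Γ)
    (E : Finset (Fin n × Fin n)) (σ : Fin c) (l : Fin r) : Bool :=
  (XT.parity (D.P σ l) fun p => Reach E p.1 p.2) ^^ ((D.f σ l (lowE E)) ^^ (D.g σ l (highE E)))

/-- the contents of the cell `σ` -/
noncomputable def RCell.cell {n c r d : ℕ} {Γ : Type} (D : RCell n c r d Γ)
    (E : Finset (Fin n × Fin n)) (σ : Fin c) : Γ :=
  D.make σ (D.bit E σ) ((D.talk σ).run (lowE E) (highE E) d)

open Classical in
/-- the number of cells in which answers enter -/
noncomputable def RCell.space {n c r d : ℕ} {Γ : Type} (D : RCell n c r d Γ) : ℕ :=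
  (Finset.univ.filter fun σ : Fin c => ∃ l, (D.P σ l).Nonempty).card

open Classical in
/-- For all directed graphs with `n` vertices and at most `n` arcs and all vertices `x`, `y`, with
probability at least `1 / 2 + δ` the random oracle `D` (probabilities `p`) decides whether there is a
path from `x` to `y`, correctly and reading at most `t` cells. -/
def RSolves {n c r d : ℕ} {Γ : Type} {Ω : Type} [Fintype Ω] (p : Ω → ℝ)
    (D : Ω → RCell n c r d Γ) (t : ℕ) (δ : ℝ) : Prop :=
  (∀ ω, 0 ≤ p ω) ∧ ∑ ω, p ω = 1 ∧
    ∀ E : Finset (Fin n × Fin n), E.card ≤ n → ∀ x y : Fin n,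
      1 / 2 + δ ≤ ∑ ω with (((D ω).query x y).out ((D ω).cell E) = true ↔ Reach E x y) ∧
        ((D ω).query x y).probes ((D ω).cell E) ≤ t, p ω

end Pool.Agent.N631.SX
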