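import Pool.Agent.N631.SX.EMain3
import Pool.Agent.N631.SX.RDefs

/-!
# Reachability oracles: reduction (helper631)
-/

set_option autoImplicit false

namespace Pool.Agent.N631.SX

open Pool.Agent.R563 Pool.Agent.N631.LX

section graph

variable {n u k b0 : ℕ} (h : 2 * k ≤ n ∧ n ≤ 2 * b0 ∧ b0 + u + k ≤ n)

include h

/-- the sources -/
def vS (i : Fin k) : Fin n := ⟨i, by have := i.2; omega⟩

/-- the elements -/
def vM (e : Fin u) : Fin n := ⟨b0 + e, by have := e.2; omega⟩

/-- the targets -/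
def vT (j : Fin k) : Fin n := ⟨b0 + u + j, by have := j.2; omega⟩

/-- the arcs of the first side -/
def GX (X : Fin k → Finset (Fin u)) : Finset (Fin n × Fin n) :=
  ((Finset.univ : Finset (Fin k × Fin u)).filter fun q => q.2 ∈ X q.1).image
    fun q => (vS h q.1, vM h q.2)

/-- the arcs of the second side -/
def GY (Y : Fin k → Finset (Fin u)) : Finset (Fin n × Fin n) :=
  ((Finset.univ : Finset (Fin k × Fin u)).filter fun q => q.2 ∈ Y q.1).image
    fun q => (vM h q.2, vT h q.1)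

theorem mem_GX {X : Fin k → Finset (Fin u)} {a : Fin n × Fin n} :
    a ∈ GX h X ↔ ∃ (i : Fin k) (e : Fin u), e ∈ X i ∧ a = (vS h i, vM h e) := by
  unfold GX
  rw [Finset.mem_image]
  constructor
  · rintro ⟨⟨i, e⟩, h1, rfl⟩
    rw [Finset.mem_filter] at h1
    exact ⟨i, e, h1.2, rfl⟩
  · rintro ⟨i, e, h1, rfl⟩
    exact ⟨(i, e), by rw [Finset.mem_filter]; exact ⟨Finset.mem_univ _, h1⟩, rfl⟩

theorem mem_GY {Y : Fin k → Finset (Fin u)} {a : Fin n × Fin n} :
    a ∈ GY h Y ↔ ∃ (j : Fin k) (e : Fin u), e ∈ Y j ∧ a = (vM h e, vT h j) := by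
  unfold GY
  rw [Finset.mem_image]
  constructor
  · rintro ⟨⟨i, e⟩, h1, rfl⟩
    rw [Finset.mem_filter] at h1
    exact ⟨i, e, h1.2, rfl⟩
  · rintro ⟨i, e, h1, rfl⟩
    exact ⟨(i, e), by rw [Finset.mem_filter]; exact ⟨Finset.mem_univ _, h1⟩, rfl⟩

theorem vSM (i : Fin k) (e : Fin u) : vS h i ≠ vM h e := by
  intro h1
  have := congrArg Fin.val h1
  simp only [vS, vM] at this
  have := i.2
  omega

theorem vST (i j : Fin k) : vS h i ≠ vT h j := by
  intro h1
  have := congrArg Fin.val h1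
  simp only [vS, vT] at this
  have := i.2
  omega

theorem vMT (e : Fin u) (j : Fin k) : vM h e ≠ vT h j := by
  intro h1
  have := congrArg Fin.val h1
  simp only [vM, vT] at this
  have := e.2
  omega

theorem vS_inj {i i' : Fin k} (h1 : vS h i = vS h i') : i = i' := by
  have := congrArg Fin.val h1
  simp only [vS] at this
  exact Fin.ext this

theorem vM_inj {i i' : Fin u} (h1 : vM h i = vM h i') : i = i' := by
  have := congrArg Fin.val h1
  simp only [vM] at this
  exact Fin.ext (by omega)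

theorem vT_inj {i i' : Fin k} (h1 : vT h i = vT h i') : i = i' := by
  have := congrArg Fin.val h1
  simp only [vT] at this
  exact Fin.ext (by omega)

theorem low_eq (X Y : Fin k → Finset (Fin u)) :
    lowE (GX h X ∪ GY h Y) = GX h X := by
  unfold lowE
  ext a
  rw [Finset.mem_filter, Finset.mem_union]
  constructor
  · rintro ⟨h1 | h1, h2⟩
    · exact h1
    · exfalso
      obtain ⟨j, e, _, rfl⟩ := (mem_GY h).1 h1
      simp only [vM] at h2
      omega
  · intro h1
    refine ⟨Or.inl h1, ?_⟩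
    obtain ⟨i, e, _, rfl⟩ := (mem_GX h).1 h1
    simp only [vS]
    have := i.2
    omega

theorem high_eq (X Y : Fin k → Finset (Fin u)) :
    highE (GX h X ∪ GY h Y) = GY h Y := by
  unfold highE
  ext a
  rw [Finset.mem_filter, Finset.mem_union]
  constructor
  · rintro ⟨h1 | h1, h2⟩
    · exfalso
      obtain ⟨i, e, _, rfl⟩ := (mem_GX h).1 h1
      simp only [vS] at h2
      have := i.2
      omega
    · exact h1
  · intro h1
    refine ⟨Or.inr h1, ?_⟩
    obtain ⟨j, e, _, rfl⟩ := (mem_GY h).1 h1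
    simp only [vM]
    omega

omit h in
theorem card_prs (X : Fin k → Finset (Fin u)) :
    ((Finset.univ : Finset (Fin k × Fin u)).filter fun q => q.2 ∈ X q.1).card =
      ∑ i, (X i).card := by
  rw [Finset.card_filter, Fintype.sum_prod_type]
  refine Finset.sum_congr rfl fun i _ => ?_
  rw [← Finset.card_filter]
  congr 1
  ext e
  simp

theorem card_G (X Y : Fin k → Finset (Fin u)) :
    (GX h X ∪ GY h Y).card ≤ ∑ i, (X i).card + ∑ j, (Y j).card := by
  refine (Finset.card_union_le _ _).trans (Nat.add_le_add ?_ ?_)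
  · rw [← card_prs]
    exact Finset.card_image_le
  · rw [← card_prs]
    exact Finset.card_image_le

theorem reach_iff (X Y : Fin k → Finset (Fin u)) (a b : Fin n) :
    Reach (GX h X ∪ GY h Y) a b ↔
      (a = b ∨ (a, b) ∈ GX h X) ∨ (a, b) ∈ GY h Y ∨
        ∃ i j, a = vS h i ∧ b = vT h j ∧ (X i ∩ Y j).Nonempty := by
  constructor
  · intro hr
    induction hr with
    | refl => exact Or.inl (Or.inl rfl)
    | tail _ hstep ih =>
      rename_i b c _
      rcases Finset.mem_union.1 hstep with hc | hc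
      · obtain ⟨i', e', hX, he⟩ := (mem_GX h).1 hc
        rw [Prod.mk.injEq] at he
        obtain ⟨rfl, rfl⟩ := he
        rcases ih with (rfl | ih) | ih | ⟨i, j, rfl, ih, _⟩
        · exact Or.inl (Or.inr hc)
        · obtain ⟨i, e, _, he⟩ := (mem_GX h).1 ih
          rw [Prod.mk.injEq] at he
          exact absurd he.2 (vSM h _ _)
        · obtain ⟨i, e, _, he⟩ := (mem_GY h).1 ih
          rw [Prod.mk.injEq] at he
          exact absurd he.2 (vST h _ _)
        · exact absurd ih (vST h _ _)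
      · obtain ⟨j', e', hY, he⟩ := (mem_GY h).1 hc
        rw [Prod.mk.injEq] at he
        obtain ⟨rfl, rfl⟩ := he
        rcases ih with (rfl | ih) | ih | ⟨i, j, rfl, ih, _⟩
        · exact Or.inr (Or.inl hc)
        · obtain ⟨i, e, hX, he⟩ := (mem_GX h).1 ih
          rw [Prod.mk.injEq] at he
          have h2 := vM_inj h he.2
          subst h2
          exact Or.inr (Or.inr ⟨i, j', he.1, rfl, ⟨_, Finset.mem_inter.2 ⟨hX, hY⟩⟩⟩)
        · obtain ⟨i, e, _, he⟩ := (mem_GY h).1 ih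
          rw [Prod.mk.injEq] at he
          exact absurd he.2 (vMT h _ _)
        · exact absurd ih (vMT h _ _)
  · rintro ((rfl | h1) | h1 | ⟨i, j, rfl, rfl, ⟨e, he⟩⟩)
    · exact Relation.ReflTransGen.refl
    · exact Relation.ReflTransGen.single (Finset.mem_union_left _ h1)
    · exact Relation.ReflTransGen.single (Finset.mem_union_right _ h1)
    · rw [Finset.mem_inter] at he
      exact Relation.ReflTransGen.tail (Relation.ReflTransGen.single
        (Finset.mem_union_left _ ((mem_GX h).2 ⟨i, e, he.1, rfl⟩)))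
        (Finset.mem_union_right _ ((mem_GY h).2 ⟨j, e, he.2, rfl⟩))

open Classical in
/-- the part of an answer which says whether two sets intersect -/
noncomputable def mt (X Y : Fin k → Finset (Fin u)) (q : Fin n × Fin n) : ZMod 2 :=
  ∑ p : Fin k × Fin k, if q = (vS h p.1, vT h p.2) then
    b2 (decide ((X p.1 ∩ Y p.2).Nonempty)) else 0

theorem mt_eq (X Y : Fin k → Finset (Fin u)) (i j : Fin k) :
    mt h X Y (vS h i, vT h j) = b2 (decide ((X i ∩ Y j).Nonempty)) := by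
  classical
  unfold mt
  rw [Finset.sum_eq_single (i, j)]
  · rw [if_pos rfl]
  · rintro ⟨i', j'⟩ _ hne
    rw [if_neg]
    intro h1
    rw [Prod.mk.injEq] at h1
    exact hne (by rw [vS_inj h h1.1, vT_inj h h1.2])
  · intro h1
    exact absurd (Finset.mem_univ _) h1

theorem mt_ne (X Y : Fin k → Finset (Fin u)) (q : Fin n × Fin n)
    (hq : ∀ i j, q ≠ (vS h i, vT h j)) : mt h X Y q = 0 := by
  classical
  unfold mt
  refine Finset.sum_eq_zero fun p _ => ?_
  rw [if_neg (hq _ _)]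

open Classical in
theorem reach_b2 (X Y : Fin k → Finset (Fin u)) (q : Fin n × Fin n) :
    b2 (decide (Reach (GX h X ∪ GY h Y) q.1 q.2)) =
      mt h X Y q + b2 (decide (q.1 = q.2 ∨ q ∈ GX h X)) +
        b2 (decide (q ∈ GY h Y)) := by
  obtain ⟨a, b⟩ := q
  simp only [reach_iff h X Y a b]
  by_cases h3 : ∃ i j, a = vS h i ∧ b = vT h j
  · obtain ⟨i, j, rfl, rfl⟩ := h3
    rw [mt_eq]
    have h4 : ¬ (vS h i = vT h j ∨
        (vS h i, vT h j) ∈ GX h X) := by
      rintro (h5 | h5)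
      · exact vST h _ _ h5
      · obtain ⟨i', e', _, he⟩ := (mem_GX h).1 h5
        rw [Prod.mk.injEq] at he
        exact vMT h _ _ he.2.symm
    have h5 : ¬ (vS h i, vT h j) ∈ GY h Y := by
      intro h5
      obtain ⟨i', e', _, he⟩ := (mem_GY h).1 h5
      rw [Prod.mk.injEq] at he
      exact vSM h _ _ he.1
    have h6 : (∃ i_1 j_1, vS h i = vS h i_1 ∧ vT h j = vT h j_1 ∧
        (X i_1 ∩ Y j_1).Nonempty) ↔ (X i ∩ Y j).Nonempty := by
      constructor
      · rintro ⟨i', j', h7, h8, h9⟩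
        rw [vS_inj h h7, vT_inj h h8]
        exact h9
      · intro h7
        exact ⟨i, j, rfl, rfl, h7⟩
    simp only [h4, h5, h6, false_or, decide_false]
    simp [b2]
  · rw [mt_ne h X Y _ (by
      intro i j h4
      rw [Prod.mk.injEq] at h4
      exact h3 ⟨i, j, h4.1, h4.2⟩), zero_add]
    have h6 : ¬ ∃ i j, a = vS h i ∧ b = vT h j ∧ (X i ∩ Y j).Nonempty := by
      rintro ⟨i, j, h7, h8, -⟩
      exact h3 ⟨i, j, h7, h8⟩
    by_cases h5 : (a, b) ∈ GY h Y
    · have h4 : ¬ (a = b ∨ (a, b) ∈ GX h X) := by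
        obtain ⟨j', e', _, he⟩ := (mem_GY h).1 h5
        rw [Prod.mk.injEq] at he
        rintro (h4 | h4)
        · rw [he.1, he.2] at h4
          exact vMT h _ _ h4
        · obtain ⟨i'', e'', _, he'⟩ := (mem_GX h).1 h4
          rw [Prod.mk.injEq] at he'
          rw [he'.1] at he
          exact vSM h _ _ he.1
      simp [h4, h5, b2]
    · simp only [h5, h6, or_false, decide_false]
      simp [b2]

theorem reach_b2' (X Y : Fin k → Finset (Fin u)) (z : Fin n × Fin n) :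
    b2 (@decide (Reach (GX h X ∪ GY h Y) z.1 z.2) (Classical.propDecidable _)) = mt h X Y z +
        b2 (@decide (z.1 = z.2 ∨ z ∈ GX h X) (Classical.propDecidable _)) +
        b2 (@decide (z ∈ GY h Y) (Classical.propDecidable _)) := by
  have h1 := reach_b2 h X Y z
  have e : ∀ (P : Prop) (i1 i2 : Decidable P), @decide P i1 = @decide P i2 := by
    intro P i1 i2
    congr
  rw [e _ _ (Classical.propDecidable (Reach (GX h X ∪ GY h Y) z.1 z.2)),
    e _ _ (Classical.propDecidable (z.1 = z.2 ∨ z ∈ GX h X)),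
    e _ _ (Classical.propDecidable (z ∈ GY h Y))] at h1
  exact h1

end graph

/-! ### the reduction -/

theorem run_map {X Y X' Y' : Type} (T : Talk X Y) (T' : Talk X' Y') (x : X) (y : Y) (x' : X')
    (y' : Y') (h : ∀ l, T'.next x' y' l = T.next x y l) (m : ℕ) :
    T'.run x' y' m = T.run x y m := by
  induction m with
  | zero => rfl
  | succ m ih => simp only [Talk.run, ih, h]

variable {n u k b0 c r d : ℕ} {Γ : Type}

open Classical in
/-- the structure for families of sets -/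
noncomputable def redDS (h : 2 * k ≤ n ∧ n ≤ 2 * b0 ∧ b0 + u + k ≤ n)
    (D : RCell n c r d Γ) : ECell k u c r d Γ where
  P σ l := Finset.univ.filter fun p : Fin k × Fin k =>
    (vS h p.1, vT h p.2) ∈ D.P σ l
  f σ l X := (D.f σ l (GX h X)) ^^
    (XT.parity (D.P σ l) fun q => q.1 = q.2 ∨ q ∈ GX h X)
  g σ l Y := (D.g σ l (GY h Y)) ^^ (XT.parity (D.P σ l) fun q => q ∈ GY h Y)
  talk σ := ⟨(D.talk σ).turn, fun l X => (D.talk σ).fst l (GX h X),
    fun l Y => (D.talk σ).snd l (GY h Y)⟩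
  make := D.make
  query i j := D.query (vS h i) (vT h j)

theorem red_bit (h : 2 * k ≤ n ∧ n ≤ 2 * b0 ∧ b0 + u + k ≤ n)
    (D : RCell n c r d Γ) (X Y : Fin k → Finset (Fin u)) (σ : Fin c) (l : Fin r) :
    (redDS h D).bit X Y σ l = D.bit (GX h X ∪ GY h Y) σ l := by
  classical
  rw [← decide_b2 ((redDS h D).bit X Y σ l),
    ← decide_b2 (D.bit (GX h X ∪ GY h Y) σ l)]
  congr 2
  unfold ECell.bit RCell.bit
  simp only [b2_xor, redDS, b2_parity]
  rw [low_eq, high_eq]
  have h1 : ∑ z ∈ D.P σ l, b2 (@decide (Reach (GX h X ∪ GY h Y) z.1 z.2)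
      (Classical.propDecidable _)) = ∑ z ∈ D.P σ l, (mt h X Y z +
        b2 (@decide (z.1 = z.2 ∨ z ∈ GX h X) (Classical.propDecidable _)) +
        b2 (@decide (z ∈ GY h Y) (Classical.propDecidable _))) := by
    refine Finset.sum_congr rfl fun z _ => ?_
    rw [reach_b2' h X Y z]
  rw [h1]
  have h2 : ∑ z ∈ D.P σ l, mt h X Y z = ∑ p ∈ Finset.univ.filter (fun p : Fin k × Fin k =>
      (vS h p.1, vT h p.2) ∈ D.P σ l),
      b2 (@decide ((X p.1 ∩ Y p.2).Nonempty) (Classical.propDecidable _)) := by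
    unfold mt
    rw [Finset.sum_comm, Finset.sum_filter]
    refine Finset.sum_congr rfl fun p _ => ?_
    rw [Finset.sum_ite_eq']
    congr
  simp only [Finset.sum_add_distrib]
  rw [h2]
  ring

theorem red_cell (h : 2 * k ≤ n ∧ n ≤ 2 * b0 ∧ b0 + u + k ≤ n)
    (D : RCell n c r d Γ) (X Y : Fin k → Finset (Fin u)) :
    (redDS h D).cell X Y = D.cell (GX h X ∪ GY h Y) := by
  funext σ
  unfold ECell.cell RCell.cell
  have h1 : (redDS h D).bit X Y σ = D.bit (GX h X ∪ GY h Y) σ :=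
    funext fun l => red_bit h D X Y σ l
  rw [h1, low_eq, high_eq]
  have h2 : ((redDS h D).talk σ).run X Y d =
      (D.talk σ).run (GX h X) (GY h Y) d :=
    run_map (D.talk σ) ((redDS h D).talk σ) (GX h X) (GY h Y) X Y (fun l => rfl) d
  rw [h2]
  rfl

theorem red_space {s : ℕ} (h : 2 * k ≤ n ∧ n ≤ 2 * b0 ∧ b0 + u + k ≤ n)
    (D : RCell n c r d Γ) (hs : D.space ≤ s) : (redDS h D).space ≤ s := by
  classical
  refine le_trans (Finset.card_le_card ?_) hs
  intro σ hσ
  rw [Finset.mem_filter] at hσ ⊢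
  refine ⟨Finset.mem_univ _, ?_⟩
  obtain ⟨-, l, p, hp⟩ := hσ
  exact ⟨l, _, (Finset.mem_filter.1 hp).2⟩

theorem red_solves {t : ℕ} {δ : ℝ} (h : 2 * k ≤ n ∧ n ≤ 2 * b0 ∧ b0 + u + k ≤ n)
    {Ω : Type} [Fintype Ω] (p : Ω → ℝ) (D : Ω → RCell n c r d Γ) (hD : RSolves p D t δ) :
    ECellSolves n p (fun ω => redDS h (D ω)) t δ := by
  classical
  obtain ⟨hp, hp1, hcor⟩ := hD
  refine ⟨hp, hp1, ?_⟩
  intro X Y hXY i j
  refine (hcor (GX h X ∪ GY h Y) ((card_G h X Y).trans hXY)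
    (vS h i) (vT h j)).trans ?_
  refine Finset.sum_le_sum_of_subset_of_nonneg ?_ fun ω _ _ => hp ω
  intro ω hω
  rw [Finset.mem_filter] at hω ⊢
  have h1 : Reach (GX h X ∪ GY h Y) (vS h i) (vT h j) ↔
      (X i ∩ Y j).Nonempty := by
    rw [reach_iff]
    constructor
    · rintro ((h5 | h5) | h5 | ⟨i', j', h7, h8, h9⟩)
      · exact absurd h5 (vST h _ _)
      · obtain ⟨i', e', _, he⟩ := (mem_GX h).1 h5
        rw [Prod.mk.injEq] at he
        exact absurd he.2.symm (vMT h _ _)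
      · obtain ⟨i', e', _, he⟩ := (mem_GY h).1 h5
        rw [Prod.mk.injEq] at he
        exact absurd he.1 (vSM h _ _)
      · rw [vS_inj h h7, vT_inj h h8]
        exact h9
    · intro h7
      exact Or.inr (Or.inr ⟨i, j, rfl, rfl, h7⟩)
  refine ⟨Finset.mem_univ _, ?_, ?_⟩
  · rw [red_cell, ← h1]
    exact hω.2.1
  · rw [red_cell]
    exact hω.2.2

/-- **Main theorem.** -/
theorem r_main (n t r d : ℕ) (ht : 1 ≤ t) (hr : 1 ≤ r) (δ : ℝ) (hδ : 0 < δ) (hδ2 : δ ≤ 1 / 2)
    (c s : ℕ) (Γ Ω : Type) [Fintype Ω] (p : Ω → ℝ) (D : Ω → RCell n c r d Γ)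
    (hs : ∀ ω, (D ω).space ≤ s) (hD : RSolves p D t δ) :
    δ ^ 10 * (n : ℝ) ^ 2 ≤ 10 ^ 22 * (((r : ℝ) + d) * t) ^ 4 * (r * s + 1) := by
  obtain ⟨k, u, hk, hu, hmain⟩ := e_main3 n t r d ht hr δ hδ hδ2
  have hT1 : 1 ≤ (r + d) * t := Nat.one_le_iff_ne_zero.2 (by positivity)
  have hT1' : (1 : ℝ) ≤ ((r : ℝ) + d) * t := by exact_mod_cast hT1
  have hrs : (1 : ℝ) ≤ r * s + 1 := by
    have : (0 : ℝ) ≤ (r : ℝ) * s := by positivity
    linarith
  have hδ1 : δ ≤ 1 := by linarith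
  by_cases hc : n < 4 * u + 3
  · have h1 : (n : ℝ) ≤ 4 * u + 3 := by exact_mod_cast hc.le
    have h2 : δ ^ 4 * (n : ℝ) ≤ 5 * 10 ^ 10 * (((r : ℝ) + d) * t) ^ 2 := by
      have h3 : δ ^ 4 ≤ 1 := pow_le_one₀ hδ.le hδ1
      have h4 : (1 : ℝ) ≤ (((r : ℝ) + d) * t) ^ 2 := one_le_pow₀ hT1'
      calc δ ^ 4 * (n : ℝ) ≤ δ ^ 4 * (4 * u + 3) := mul_le_mul_of_nonneg_left h1 (by positivity)
        _ = 4 * (δ ^ 4 * u) + 3 * δ ^ 4 := by ring
        _ ≤ 4 * (10 ^ 10 * (((r : ℝ) + d) * t) ^ 2) + 3 * (((r : ℝ) + d) * t) ^ 2 := by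
            have := h3.trans h4
            linarith
        _ ≤ _ := by linarith
    have h5 : δ ^ 2 ≤ 1 := pow_le_one₀ hδ.le hδ1
    calc δ ^ 10 * (n : ℝ) ^ 2 = δ ^ 2 * (δ ^ 4 * n) ^ 2 := by ring
      _ ≤ 1 * (5 * 10 ^ 10 * (((r : ℝ) + d) * t) ^ 2) ^ 2 :=
          mul_le_mul h5 (pow_le_pow_left₀ (by positivity) h2 2) (by positivity) (by norm_num)
      _ = 25 * 10 ^ 20 * (((r : ℝ) + d) * t) ^ 4 * 1 := by ring
      _ ≤ 10 ^ 22 * (((r : ℝ) + d) * t) ^ 4 * (r * s + 1) := by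
          apply mul_le_mul _ hrs (by norm_num) (by positivity)
          exact mul_le_mul_of_nonneg_right (by norm_num) (by positivity)
  · push Not at hc
    have hk2 : 400 * k ≤ n := by
      refine le_trans ?_ hk
      exact Nat.mul_le_mul_right k (Nat.le_mul_of_pos_right 400 (by omega))
    have h1 : 2 * k ≤ n := by omega
    have h2 : n ≤ 2 * ((n + 1) / 2) := by omega
    have h3 : (n + 1) / 2 + u + k ≤ n := by omega
    exact hmain c s Γ Ω p (fun ω => redDS ⟨h1, h2, h3⟩ (D ω))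
      (fun ω => red_space ⟨h1, h2, h3⟩ (D ω) (hs ω)) (red_solves ⟨h1, h2, h3⟩ p D hD)

end Pool.Agent.N631.SX
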