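import Pool.Agent.N631.SX.Path
import Pool.Agent.N631.LX.Final
import Pool.Agent.R563.XT.Stm

/-!
# The error of a table of exclusive ors on a pair (helper631)
-/

set_option autoImplicit false

namespace Pool.Agent.N631.SX

open Pool.Agent.W959 Pool.Agent.W959.Ent Pool.Agent.TH457.EntD Pool.Agent.N631.LX
open Pool.Agent.R563

variable {k q n : ℕ}

/-- the depth of a tree -/
def dep {c : ℕ} : XT.Tree c Bool → ℕ
  | XT.Tree.answer _ => 0
  | XT.Tree.probe _ next => max (dep (next false)) (dep (next true)) + 1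

section tree

variable {R : ℕ} (c : Fin R → Fin k → Fin k → ZMod 2) (f g : Fin R → AA n k q → ZMod 2)
  (i0 j0 : Fin k)

/-- the bits of the memory lead to the end of the path -/
def onp (π : List (Fin R × ZMod 2)) (x y : AA n k q) : Prop :=
  ∀ p ∈ π, bt c f g i0 j0 p.1 x y = p.2

theorem path_list {m : ℕ} (hm : 10 ≤ m) (hq : 1 ≤ q) {t : ℕ}
    (W : Submodule (ZMod 2) (Fin k → Fin k → ZMod 2)) (hW : ∀ l, c l ∈ W)
    (hgood : ∀ w ∈ W, light q w i0 j0 → w i0 j0 = 0)
    {α β ε : ℝ} (hα : 0 ≤ α) (hβ : 0 ≤ β) (hε : 0 ≤ ε) (hε2 : (7 / 10 : ℝ) ^ q ≤ ε ^ 2)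
    (hP : ∀ P : ℝ, 0 ≤ P → P ^ (1 / (1 + 1 / (m : ℝ))) ≤ α * P + β)
    (π : List (Fin R × ZMod 2)) (hπ : π.length ≤ t) :
    EE (1 / (m : ℝ)) (fun x y => ind (onp c f g i0 j0 π x y) *
        ind (conj x.1 y.1 = zero n)) ≤
      (1 - 1 / (22 * (m : ℝ) ^ 2)) ^ n *
        (α * (EE (1 / (m : ℝ)) (fun x y => ind (onp c f g i0 j0 π x y)) + ε) +
          β * 2 ^ t) + ε := by
  have hm' : (10 : ℝ) ≤ m := by exact_mod_cast hm
  have hg0 : 0 ≤ 1 - 1 / (22 * (m : ℝ) ^ 2) := by
    have : 1 / (22 * (m : ℝ) ^ 2) ≤ 1 := by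
      rw [div_le_one (by positivity)]
      nlinarith
    linarith
  have hγ : 0 ≤ (1 - 1 / (22 * (m : ℝ) ^ 2)) ^ n := pow_nonneg hg0 _
  let c' : Fin π.length → Fin k → Fin k → ZMod 2 := fun l => c (π.get l).1
  let f' : Fin π.length → AA n k q → ZMod 2 :=
    fun l x => f (π.get l).1 x + (π.get l).2
  let g' : Fin π.length → AA n k q → ZMod 2 := fun l => g (π.get l).1
  have h1 := path c' f' g' i0 j0 hm hq (by
      intro L
      apply hgood
      have : cL c' L = ∑ l, L l • c' l := by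
        funext i j
        simp [cL, Finset.sum_apply]
      rw [this]
      exact Submodule.sum_mem _ fun l _ => Submodule.smul_mem _ _ (hW _))
    hα hβ hε hε2 hP
  have h2 : ∀ x y, (∀ l, bt c' f' g' i0 j0 l x y = 0) ↔ onp c f g i0 j0 π x y := by
    intro x y
    unfold onp
    rw [List.forall_mem_iff_get]
    refine forall_congr' fun l => ?_
    simp only [bt, c', f', g']
    exact z2g _ _ _ _
  have h3 : ∀ x y, ind (∀ l, bt c' f' g' i0 j0 l x y = 0) = ind (onp c f g i0 j0 π x y) := by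
    intro x y
    congr 1
    exact propext (h2 x y)
  simp only [h3] at h1
  refine h1.trans ?_
  have h4 : β * 2 ^ π.length ≤ β * 2 ^ t :=
    mul_le_mul_of_nonneg_left (pow_le_pow_right₀ (by norm_num) hπ) hβ
  have := mul_le_mul_of_nonneg_left (add_le_add_right h4 (α * (EE (1 / (m : ℝ))
    (fun x y => ind (onp c f g i0 j0 π x y)) + ε))) hγ
  linarith

theorem tree_bound {m : ℕ} (hm : 10 ≤ m) (hq : 1 ≤ q) {t : ℕ}
    (W : Submodule (ZMod 2) (Fin k → Fin k → ZMod 2)) (hW : ∀ l, c l ∈ W)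
    (hgood : ∀ w ∈ W, light q w i0 j0 → w i0 j0 = 0)
    {α β ε : ℝ} (hα : 0 ≤ α) (hβ : 0 ≤ β) (hε : 0 ≤ ε) (hε2 : (7 / 10 : ℝ) ^ q ≤ ε ^ 2)
    (hP : ∀ P : ℝ, 0 ≤ P → P ^ (1 / (1 + 1 / (m : ℝ))) ≤ α * P + β)
    (T : XT.Tree R Bool) (π : List (Fin R × ZMod 2)) (hπ : π.length + dep T ≤ t) :
    EE (1 / (m : ℝ)) (fun x y => ind (onp c f g i0 j0 π x y ∧
        T.out (fun l => decide (bt c f g i0 j0 l x y = 1)) = false) *
        ind (conj x.1 y.1 = zero n)) ≤
      (1 - 1 / (22 * (m : ℝ) ^ 2)) ^ n * α *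
        EE (1 / (m : ℝ)) (fun x y => ind (onp c f g i0 j0 π x y ∧
          T.out (fun l => decide (bt c f g i0 j0 l x y = 1)) = false)) +
      2 ^ (dep T) * ((1 - 1 / (22 * (m : ℝ) ^ 2)) ^ n * (α * ε + β * 2 ^ t) + ε) := by
  have hm' : (10 : ℝ) ≤ m := by exact_mod_cast hm
  have hm0 : (0 : ℝ) < m := by linarith
  have hg0 : 0 ≤ 1 - 1 / (22 * (m : ℝ) ^ 2) := by
    have : 1 / (22 * (m : ℝ) ^ 2) ≤ 1 := by
      rw [div_le_one (by positivity)]
      nlinarith
    linarith
  have hγ : 0 ≤ (1 - 1 / (22 * (m : ℝ) ^ 2)) ^ n := pow_nonneg hg0 _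
  have hη : 0 ≤ (1 - 1 / (22 * (m : ℝ) ^ 2)) ^ n * (α * ε + β * 2 ^ t) + ε := by positivity
  induction T generalizing π with
  | answer a =>
    simp only [dep, pow_zero, one_mul, XT.Tree.out]
    cases a with
    | false =>
      simp only [and_true]
      have := path_list c f g i0 j0 hm hq W hW hgood hα hβ hε hε2 hP π
        (by simp only [dep] at hπ; omega)
      refine this.trans (le_of_eq ?_)
      ring
    | true =>
      have h2 : ∀ x y : AA n k q, ind (onp c f g i0 j0 π x y ∧ true = false) = 0 :=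
        fun x y => ind_false (fun h => by simp at h)
      simp only [h2, zero_mul, EE_const hq, mul_zero, zero_add]
      exact hη
  | probe l next ih =>
    simp only [dep] at hπ
    have i0' := ih false ((l, 0) :: π) (by simp only [List.length_cons]; omega)
    have i1' := ih true ((l, 1) :: π) (by simp only [List.length_cons]; omega)
    have h1 : ∀ x y, ind (onp c f g i0 j0 π x y ∧
        (XT.Tree.probe l next).out (fun l => decide (bt c f g i0 j0 l x y = 1)) = false) =
        ind (onp c f g i0 j0 ((l, 0) :: π) x y ∧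
          (next false).out (fun l => decide (bt c f g i0 j0 l x y = 1)) = false) +
        ind (onp c f g i0 j0 ((l, 1) :: π) x y ∧
          (next true).out (fun l => decide (bt c f g i0 j0 l x y = 1)) = false) := by
      intro x y
      have e1 : ∀ a, onp c f g i0 j0 ((l, a) :: π) x y ↔
          bt c f g i0 j0 l x y = a ∧ onp c f g i0 j0 π x y := by
        intro a
        simp [onp]
      rcases zmod2_cases (bt c f g i0 j0 l x y) with h | h
      · have e2 : ¬ (onp c f g i0 j0 ((l, 1) :: π) x y ∧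
            (next true).out (fun l => decide (bt c f g i0 j0 l x y = 1)) = false) := by
          rintro ⟨h2, -⟩
          rw [e1, h] at h2
          exact absurd h2.1 (by decide)
        rw [ind_false e2, add_zero]
        congr 1
        apply propext
        rw [e1]
        simp only [XT.Tree.out, h]
        simp
      · have e2 : ¬ (onp c f g i0 j0 ((l, 0) :: π) x y ∧
            (next false).out (fun l => decide (bt c f g i0 j0 l x y = 1)) = false) := by
          rintro ⟨h2, -⟩
          rw [e1, h] at h2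
          exact absurd h2.1 (by decide)
        rw [ind_false e2, zero_add]
        congr 1
        apply propext
        rw [e1]
        simp only [XT.Tree.out, h]
        simp
    simp only [h1, add_mul, EE_add]
    have h2 : (2 : ℝ) ^ dep (next false) + 2 ^ dep (next true) ≤
        2 ^ dep (XT.Tree.probe l next) := by
      have e1 : (2 : ℝ) ^ dep (next false) ≤ 2 ^ max (dep (next false)) (dep (next true)) :=
        pow_le_pow_right₀ (by norm_num) (le_max_left _ _)
      have e2 : (2 : ℝ) ^ dep (next true) ≤ 2 ^ max (dep (next false)) (dep (next true)) :=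
        pow_le_pow_right₀ (by norm_num) (le_max_right _ _)
      simp only [dep, pow_succ]
      linarith
    have h3 := mul_le_mul_of_nonneg_right h2 hη
    rw [add_mul] at h3
    rw [mul_add]
    linarith

end tree

/-- the error on a good pair -/
theorem pair_error {R : ℕ} (c : Fin R → Fin k → Fin k → ZMod 2)
    (f g : Fin R → AA n k q → ZMod 2) (i0 j0 : Fin k) {t m : ℕ} (ht : 1 ≤ t)
    (hm : m = 1400 * t) (hn : n = m ^ 2) (hqt : q = 100 * t)
    (W : Submodule (ZMod 2) (Fin k → Fin k → ZMod 2)) (hW : ∀ l, c l ∈ W)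
    (hgood : ∀ w ∈ W, light q w i0 j0 → w i0 j0 = 0)
    (T : XT.Tree R Bool) (hT : dep T ≤ t) :
    (1 / 80 : ℝ) ≤ EE (1 / (m : ℝ)) (fun x y => ind (¬ (
      T.out (fun l => decide (bt c f g i0 j0 l x y = 1)) = true ↔
        ¬ conj x.1 y.1 = zero n))) := by
  have hm12 : 1200 ≤ m := by rw [hm]; omega
  have hm10 : 10 ≤ m := by omega
  have hq : 1 ≤ q := by omega
  have hm' : (1200 : ℝ) ≤ m := by exact_mod_cast hm12
  have hm0 : (0 : ℝ) < m := by linarith
  have hinv : 1 / (m : ℝ) ≤ 1 / 10 := by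
    apply one_div_le_one_div_of_le <;> linarith
  have hinv0 : 0 ≤ 1 / (m : ℝ) := by positivity
  have hr1 : 0 ≤ 1 - 1 / (m : ℝ) := by linarith
  have hme : 100 * ((2 * t + 12 : ℕ) : ℝ) ≤ m := by
    have : 100 * (2 * t + 12) ≤ m := by
      rw [hm]
      omega
    exact_mod_cast this
  obtain ⟨e, he⟩ : ∃ e : ℝ, e = ((2 * t + 12 : ℕ) : ℝ) := ⟨_, rfl⟩
  rw [← he] at hme
  obtain ⟨α, hα⟩ : ∃ α : ℝ, α = 2 ^ (e * (1 / ((m : ℝ) + 1))) := ⟨_, rfl⟩
  obtain ⟨β, hβ⟩ : ∃ β : ℝ, β = 2 ^ (-e * (1 - 1 / ((m : ℝ) + 1))) := ⟨_, rfl⟩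
  have hα0 : 0 ≤ α := by rw [hα]; positivity
  have hβ0 : 0 ≤ β := by rw [hβ]; positivity
  have hα1 : α ≤ 1007 / 1000 := by rw [hα]; exact two_rpow_le hme
  have hβ1 : β * 2 ^ t * 2 ^ t ≤ 1007 / 1000 * (1 / 4096) := by
    have h1 : β * 2 ^ t * 2 ^ t = α * (1 / 4096) := by
      rw [hα, hβ, mul_assoc, ← pow_add, ← Real.rpow_natCast, ← Real.rpow_add (by norm_num),
        show (1 / 4096 : ℝ) = 2 ^ (-12 : ℝ) by
          rw [Real.rpow_neg (by norm_num)]; norm_num,
        ← Real.rpow_add (by norm_num)]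
      congr 1
      rw [he]
      push_cast
      ring
    rw [h1]
    exact mul_le_mul_of_nonneg_right hα1 (by norm_num)
  obtain ⟨κ, hκ⟩ : ∃ κ : ℝ, κ = (1 - 1 / (22 * (m : ℝ) ^ 2)) ^ n := ⟨_, rfl⟩
  have hκ0 : 0 ≤ κ := by
    rw [hκ]
    apply pow_nonneg
    have : 1 / (22 * (m : ℝ) ^ 2) ≤ 1 := by
      rw [div_le_one (by positivity)]
      nlinarith
    linarith
  have hκ1 : κ ≤ 22 / 23 := by
    rw [hκ, hn]
    exact gamma_le hm10
  obtain ⟨ε, hε⟩ : ∃ ε : ℝ, ε = Real.exp (-((t : ℝ) + 12)) := ⟨_, rfl⟩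
  have hε0 : 0 ≤ ε := by rw [hε]; positivity
  have hε2 : (7 / 10 : ℝ) ^ q ≤ ε ^ 2 := by
    have h1 : (7 / 10 : ℝ) ≤ Real.exp (-(3 / 10 : ℝ)) := by
      have := Real.add_one_le_exp (-(3 / 10 : ℝ))
      linarith
    have ht' : (1 : ℝ) ≤ t := by exact_mod_cast ht
    calc (7 / 10 : ℝ) ^ q ≤ Real.exp (-(3 / 10 : ℝ)) ^ q :=
          pow_le_pow_left₀ (by norm_num) h1 _
      _ = Real.exp (-(30 * (t : ℝ))) := by
          rw [← Real.exp_nat_mul, hqt]
          congr 1
          push_cast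
          ring
      _ ≤ Real.exp (-(2 * ((t : ℝ) + 12))) := by
          apply Real.exp_le_exp.2
          linarith
      _ = ε ^ 2 := by
          rw [hε, ← Real.exp_nat_mul]
          congr 1
          push_cast
          ring
  have h1 := tree_bound c f g i0 j0 hm10 hq (t := t) W hW hgood hα0 hβ0 hε0 hε2
    (fun P hP => by rw [hα, hβ]; exact holder_leaf hm10 e P hP) T [] (by simpa using hT)
  have e0 : ∀ x y, onp c f g i0 j0 [] x y ↔ True := fun x y => by simp [onp]
  simp only [e0, true_and, ← hκ] at h1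
  obtain ⟨A, hA⟩ : ∃ A, A = EE (1 / (m : ℝ)) (fun x y => ind (
        T.out (fun l => decide (bt c f g i0 j0 l x y = 1)) = false) *
        ind (conj x.1 y.1 = zero n)) := ⟨_, rfl⟩
  obtain ⟨w, hw⟩ : ∃ w, w = EE (1 / (m : ℝ)) (fun x y => ind (¬ (
      T.out (fun l => decide (bt c f g i0 j0 l x y = 1)) = true ↔
        ¬ conj x.1 y.1 = zero n))) :=
    ⟨_, rfl⟩
  rw [← hw]
  rw [← hA] at h1
  have hA0 : 0 ≤ A := by
    rw [hA]
    exact EE_nonneg hinv0 hr1 fun x y => mul_nonneg (ind_nonneg _) (ind_nonneg _)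
  have hw0 : 0 ≤ w := by
    rw [hw]
    exact EE_nonneg hinv0 hr1 fun x y => ind_nonneg _
  have h2 : EE (1 / (m : ℝ)) (fun x y => ind (
      T.out (fun l => decide (bt c f g i0 j0 l x y = 1)) = false)) ≤ A + w := by
    rw [hA, hw, ← EE_add]
    apply EE_mono hinv0 hr1
    intro x y
    by_cases h3 : T.out (fun l => decide (bt c f g i0 j0 l x y = 1)) = false
    · by_cases h4 : conj x.1 y.1 = zero n
      · rw [ind_true h3, ind_true h4]
        have := ind_nonneg (¬ (T.out (fun l => decide (bt c f g i0 j0 l x y = 1)) = true ↔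
          ¬ conj x.1 y.1 = zero n))
        linarith
      · have h5 : ¬ (T.out (fun l => decide (bt c f g i0 j0 l x y = 1)) = true ↔
            ¬ conj x.1 y.1 = zero n) := by
          rw [h3]
          simp [h4]
        rw [ind_true h3, ind_false h4, ind_true h5]
        norm_num
    · rw [ind_false h3, zero_mul, zero_add]
      exact ind_nonneg _
  have h3 : (366 / 1000 : ℝ) ≤ A + w := by
    have h4 : (366 / 1000 : ℝ) ≤
        EE (k := k) (q := q) (1 / (m : ℝ)) (fun x y => ind (conj x.1 y.1 = zero n)) := by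
      unfold EE
      simp only [ex2_disj, Finset.sum_const, Finset.card_univ, nsmul_eq_mul]
      have hN := card_pos (k := k) hq
      have h5 := disj_ge hm12
      rw [hn]
      calc (366 / 1000 : ℝ) ≤ _ := h5
        _ = _ := by field_simp
    refine h4.trans ?_
    rw [hA, hw, ← EE_add]
    apply EE_mono hinv0 hr1
    intro x y
    by_cases h4 : conj x.1 y.1 = zero n
    · rw [ind_true h4]
      by_cases h3 : T.out (fun l => decide (bt c f g i0 j0 l x y = 1)) = false
      · rw [ind_true h3]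
        have := ind_nonneg (¬ (T.out (fun l => decide (bt c f g i0 j0 l x y = 1)) = true ↔
          ¬ conj x.1 y.1 = zero n))
        linarith
      · have h5 : ¬ (T.out (fun l => decide (bt c f g i0 j0 l x y = 1)) = true ↔
            ¬ conj x.1 y.1 = zero n) := by
          rw [Bool.not_eq_false] at h3
          rw [h3]
          simp [h4]
        rw [ind_true h5]
        have := mul_nonneg (ind_nonneg (T.out (fun l =>
          decide (bt c f g i0 j0 l x y = 1)) = false)) (zero_le_one (α := ℝ))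
        linarith
    · rw [ind_false h4, mul_zero, zero_add]
      exact ind_nonneg _
  -- the error terms
  have h4 : (2 : ℝ) ^ dep T * (κ * (α * ε + β * 2 ^ t) + ε) ≤ 3 / 10000 := by
    have h5 : (2 : ℝ) ^ dep T ≤ 2 ^ t := pow_le_pow_right₀ (by norm_num) hT
    have h6 : (2 : ℝ) ^ t * ε ≤ 1 / 100000 := by
      have h7 : (2 : ℝ) ^ t ≤ Real.exp t := by
        calc (2 : ℝ) ^ t ≤ Real.exp 1 ^ t := by
              apply pow_le_pow_left₀ (by norm_num)
              have := Real.add_one_le_exp (1 : ℝ)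
              linarith
          _ = Real.exp t := by
              rw [← Real.exp_nat_mul]
              simp
      calc (2 : ℝ) ^ t * ε ≤ Real.exp t * ε := mul_le_mul_of_nonneg_right h7 hε0
        _ = Real.exp (-12) := by
            rw [hε, ← Real.exp_add]
            congr 1
            ring
        _ ≤ _ := exp12
    have h7 : κ * (α * ε + β * 2 ^ t) + ε ≤ (α * ε + β * 2 ^ t) + ε := by
      have : 0 ≤ α * ε + β * 2 ^ t := by positivity
      nlinarith
    have h8 : 0 ≤ κ * (α * ε + β * 2 ^ t) + ε := by positivity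
    calc (2 : ℝ) ^ dep T * (κ * (α * ε + β * 2 ^ t) + ε)
        ≤ 2 ^ t * ((α * ε + β * 2 ^ t) + ε) := by
          apply mul_le_mul h5 h7 h8 (by positivity)
      _ = (α + 1) * (2 ^ t * ε) + β * 2 ^ t * 2 ^ t := by ring
      _ ≤ (1007 / 1000 + 1) * (1 / 100000) + 1007 / 1000 * (1 / 4096) := by
          have : 0 ≤ (2 : ℝ) ^ t * ε := by positivity
          have h9 : (α + 1) * (2 ^ t * ε) ≤ (1007 / 1000 + 1) * (1 / 100000) :=
            mul_le_mul (by linarith) h6 this (by norm_num)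
          linarith
      _ ≤ _ := by norm_num
  have h5 : κ * α ≤ 9634 / 10000 := by
    calc κ * α ≤ 22 / 23 * (1007 / 1000) := mul_le_mul hκ1 hα1 hα0 (by norm_num)
      _ ≤ _ := by norm_num
  have h6 : κ * α * EE (1 / (m : ℝ)) (fun x y => ind (
      T.out (fun l => decide (bt c f g i0 j0 l x y = 1)) = false)) ≤ 9634 / 10000 * (A + w) := by
    have h7 : 0 ≤ κ * α := by positivity
    calc _ ≤ κ * α * (A + w) := mul_le_mul_of_nonneg_left h2 h7
      _ ≤ _ := mul_le_mul_of_nonneg_right h5 (by linarith)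
  linarith

end Pool.Agent.N631.SX
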